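import Pool.Agent.helper169_cat.Defs

/-!
# LIM1
-/

set_option autoImplicit false

universe u v

namespace Pool.Agent.H169C

open Pool.Agent.TH60.FP Filter Topology

section Geometry

variable {X : Type u} [MetricSpace X]

/-- a point between `a` and `b` is `pt a b t` -/
theorem lim1_btw_pt (hX : Cat X) {a m b : X} (h : Btw a m b) :
    ∃ t : ℝ, 0 ≤ t ∧ t ≤ 1 ∧ m = pt a b t ∧ dist a m = t * dist a b := by
  unfold Btw at h
  rcases eq_or_lt_of_le (dist_nonneg (x := a) (y := b)) with h0 | h0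
  · have h1 := dist_nonneg (x := a) (y := m)
    have h2 := dist_nonneg (x := m) (y := b)
    have h3 : dist a m = 0 := by linarith
    refine ⟨0, le_rfl, zero_le_one, ?_, by rw [h3, zero_mul]⟩
    rw [pt_zero hX]
    exact (dist_eq_zero.1 h3).symm
  · have h1 := dist_nonneg (x := a) (y := m)
    have h2 := dist_nonneg (x := m) (y := b)
    have h3 : dist a m / dist a b * dist a b = dist a m := by field_simp
    have h4 : dist a m / dist a b ≤ 1 := (div_le_one h0).2 (by linarith)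
    refine ⟨dist a m / dist a b, by positivity, h4, ?_, h3.symm⟩
    apply pt_unique hX (by positivity) h4
    · rw [h3]
    · rw [sub_mul, h3, one_mul]
      linarith

/-- the geometric part: far from the conclusion there is no chained pair -/
theorem lim1_geom (hX : Cat X) {V : Set X} {L : ℝ} (hMed : Med X) (hBra : Bra X V L)
    (hL : 0 ≤ L) {W R : ℝ} (hW : 0 ≤ W) (hR : 0 ≤ R) (l0 : ℝ → X)
    (l : Fin (grid (2 * R) (2 * R) + 1) → ℝ → X) (h0 : Isometry l0) (hl : ∀ i, Isometry (l i))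
    (hd : ∀ i s, dist (l i s) (l0 s) ≤ R) (hs : ∀ i j, i ≠ j → 1 ≤ dist (l i 0) (l j 0)) :
    ∃ u u' : X, Ch V L (u, u') ∧ dist u (l0 (-W)) ≤ R + L ∧ dist u' (l0 W) ≤ R + L := by
  classical
  have hstr : ∀ i, ∃ o : ℝ, Sy l0 (fun t => l i (t + o)) := fun i =>
    strip hX h0 (hl i) (B := R) (fun t => by rw [dist_comm]; exact hd i t)
  choose κ hκ using hstr
  set m : Fin (grid (2 * R) (2 * R) + 1) → ℝ → X := fun i t => l i (t + κ i) with hm
  have hmi : ∀ i, Isometry (m i) := fun i => iso_shift (hl i) (κ i)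
  have hsy : ∀ i j, Sy (m i) (m j) := fun i j =>
    sy_trans hX h0 (hmi i) (hmi j) (hκ i) (hκ j)
  have hl0 : ∀ i, l i 0 = m i (-κ i) := fun i => by simp [hm]
  have hRk : ∀ i, dist (l0 0) (m i 0) ^ 2 + κ i ^ 2 ≤ R ^ 2 := by
    intro i
    have h1 := hκ i 0 (-κ i)
    have h2 : dist (l0 0) (l i 0) ≤ R := by rw [dist_comm]; exact hd i 0
    have h3 : dist (l0 0) (l i 0) ^ 2 ≤ R ^ 2 := pow_le_pow_left₀ dist_nonneg h2 2
    rw [hl0 i] at h3
    change dist (l0 0) (m i (-κ i)) ^ 2 = dist (l0 0) (m i 0) ^ 2 + (-κ i - 0) ^ 2 at h1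
    rw [h1] at h3
    nlinarith
  have hDR : ∀ i, dist (l0 0) (m i 0) ≤ R := fun i =>
    le_of_sq_le hR (by nlinarith [hRk i, sq_nonneg (κ i)])
  have hκR : ∀ i, |κ i| ≤ R := fun i =>
    abs_le_of_sq_le_sq (by nlinarith [hRk i, sq_nonneg (dist (l0 0) (m i 0))]) hR
  by_cases hcase : ∃ (i j k : Fin (grid (2 * R) (2 * R) + 1)) (μ : ℝ → X), Isometry μ ∧
      Sy (m i) μ ∧ Btw (m i 0) (μ 0) (m j 0) ∧ Btw (m j 0) (μ 0) (m k 0) ∧
      Btw (m i 0) (μ 0) (m k 0) ∧ m i 0 ≠ μ 0 ∧ m j 0 ≠ μ 0 ∧ m k 0 ≠ μ 0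
  · -- Case 1
    obtain ⟨i, j, k, μ, hμ, hiμ, b1, b2, b3, n1, n2, n3⟩ := hcase
    have hμi : Sy μ (m i) := sy_symm hiμ
    have hμj : Sy μ (m j) := sy_trans hX (hmi i) hμ (hmi j) hiμ (hsy i j)
    have hμk : Sy μ (m k) := sy_trans hX (hmi i) hμ (hmi k) hiμ (hsy i k)
    have hV := hBra (m i) (m j) (m k) μ (hmi i) (hmi j) (hmi k) hμ hμi hμj hμk n1 n2 n3 b1 b2 b3
    have h0μ : Sy l0 μ := sy_trans hX (hmi i) h0 hμ (sy_symm (hκ i)) hiμ
    have hRμ : dist (l0 0) (μ 0) ≤ R := by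
      obtain ⟨t, ht0, ht1, hmt, _⟩ := lim1_btw_pt hX b1
      rw [hmt, dist_comm]
      exact ball_conv hX ht0 ht1 (by rw [dist_comm]; exact hDR i) (by rw [dist_comm]; exact hDR j)
    obtain ⟨s1, hs1, hs1', hs1V⟩ := hV (-W - L)
    obtain ⟨s2, hs2, hs2', hs2V⟩ := hV W
    have hs12 : s1 ≤ s2 := by linarith
    refine ⟨μ s1, μ s2, ⟨hs1V, hs2V, ?_⟩, ?_, ?_⟩
    · intro t0 t1 ht0 ht01 ht1 hLd
      have hdist : dist (μ s1) (μ s2) = s2 - s1 := by
        rw [hμ.dist_eq, Real.dist_eq, abs_of_nonpos (by linarith)]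
        ring
      change L ≤ (t1 - t0) * dist (μ s1) (μ s2) at hLd
      rw [hdist] at hLd
      change ∃ t : ℝ, t0 ≤ t ∧ t ≤ t1 ∧ pt (μ s1) (μ s2) t ∈ V
      have hpt : ∀ t : ℝ, 0 ≤ t → t ≤ 1 → pt (μ s1) (μ s2) t = μ ((1 - t) * s1 + t * s2) :=
        fun t h0 h1 => GeoOn.pt hX (geoOn_of_isometry hμ s1 s2) le_rfl hs12 hs12 le_rfl h0 h1
      rcases eq_or_lt_of_le hs12 with he | hlt
      · refine ⟨t0, le_rfl, ht01, ?_⟩
        rw [hpt t0 ht0 (ht01.trans ht1), ← he]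
        have : (1 - t0) * s1 + t0 * s1 = s1 := by ring
        rw [this]
        exact hs1V
      · obtain ⟨s', hs', hs'', hs'V⟩ := hV ((1 - t0) * s1 + t0 * s2)
        have hpos : 0 < s2 - s1 := by linarith
        have e1 : (s' - s1) / (s2 - s1) * (s2 - s1) = s' - s1 := by field_simp
        have e2 : t0 ≤ (s' - s1) / (s2 - s1) := by
          rw [le_div_iff₀ hpos]
          nlinarith
        have e3 : (s' - s1) / (s2 - s1) ≤ t1 := by
          rw [div_le_iff₀ hpos]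
          nlinarith
        refine ⟨(s' - s1) / (s2 - s1), e2, e3, ?_⟩
        rw [hpt _ (ht0.trans e2) (e3.trans ht1)]
        have e4 : (1 - (s' - s1) / (s2 - s1)) * s1 + (s' - s1) / (s2 - s1) * s2 = s' := by
          have : (1 - (s' - s1) / (s2 - s1)) * s1 + (s' - s1) / (s2 - s1) * s2 =
              s1 + (s' - s1) / (s2 - s1) * (s2 - s1) := by ring
          rw [this, e1]
          ring
        rw [e4]
        exact hs'V
    · apply le_of_sq_le (by linarith)
      rw [dist_comm, h0μ (-W) s1]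
      have h3 : dist (l0 0) (μ 0) ^ 2 ≤ R ^ 2 := pow_le_pow_left₀ dist_nonneg hRμ 2
      nlinarith
    · apply le_of_sq_le (by linarith)
      rw [dist_comm, h0μ W s2]
      have h3 : dist (l0 0) (μ 0) ^ 2 ≤ R ^ 2 := pow_le_pow_left₀ dist_nonneg hRμ 2
      nlinarith
  · -- Case 2
    exfalso
    -- the most distant pair
    obtain ⟨⟨p, q⟩, hpq⟩ := Finite.exists_max
      (fun e : Fin (grid (2 * R) (2 * R) + 1) × Fin (grid (2 * R) (2 * R) + 1) =>
        dist (m e.1 0) (m e.2 0))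
    have hmax : ∀ i j, dist (m i 0) (m j 0) ≤ dist (m p 0) (m q 0) := fun i j => hpq (i, j)
    have hbt : ∀ k, Btw (m p 0) (m k 0) (m q 0) := by
      intro k
      obtain ⟨μ, hμ, hpμ, b1, b2, b3⟩ := hMed (m p) (m q) (m k) (hmi p) (hmi q) (hmi k)
        (hsy p q) (hsy p k) (hsy q k)
      by_cases n1 : m p 0 = μ 0
      · have h1 : dist (m q 0) (m p 0) + dist (m p 0) (m k 0) = dist (m q 0) (m k 0) := by
          unfold Btw at b2
          rw [← n1] at b2
          exact b2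
        have h2 := hmax q k
        have h3 := dist_nonneg (x := m p 0) (y := m k 0)
        rw [dist_comm (m q 0) (m p 0)] at h1
        have h4 : m p 0 = m k 0 := dist_eq_zero.1 (by linarith)
        unfold Btw
        rw [← h4, dist_self, zero_add]
      by_cases n2 : m q 0 = μ 0
      · have h1 : dist (m p 0) (m q 0) + dist (m q 0) (m k 0) = dist (m p 0) (m k 0) := by
          unfold Btw at b3
          rw [← n2] at b3
          exact b3
        have h2 := hmax p k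
        have h3 := dist_nonneg (x := m q 0) (y := m k 0)
        have h4 : m q 0 = m k 0 := dist_eq_zero.1 (by linarith)
        unfold Btw
        rw [← h4, dist_self, add_zero]
      by_cases n3 : m k 0 = μ 0
      · rw [n3]
        exact b1
      · exact absurd ⟨p, q, k, μ, hμ, hpμ, b1, b2, b3, n1, n2, n3⟩ hcase
    have hpt : ∀ k, ∃ t : ℝ, 0 ≤ t ∧ t ≤ 1 ∧ m k 0 = pt (m p 0) (m q 0) t ∧
        dist (m p 0) (m k 0) = t * dist (m p 0) (m q 0) := fun k => lim1_btw_pt hX (hbt k)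
    have hdd : ∀ j k, dist (m j 0) (m k 0) = |dist (m p 0) (m j 0) - dist (m p 0) (m k 0)| := by
      intro j k
      obtain ⟨t, ht0, ht1, ht, ht'⟩ := hpt j
      obtain ⟨t', ht0', ht1', hs, hs'⟩ := hpt k
      rw [ht', hs', ht, hs, pt_geo hX _ _ ht0 ht1 ht0' ht1', ← sub_mul, abs_mul,
        abs_of_nonneg (dist_nonneg (x := m p 0) (y := m q 0))]
    set a : Fin (grid (2 * R) (2 * R) + 1) → ℝ := fun k => dist (m p 0) (m k 0) with ha
    have ha0 : ∀ k, 0 ≤ a k := fun k => dist_nonneg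
    have ha1 : ∀ k, a k ≤ 2 * R := by
      intro k
      have h1 := dist_triangle_left (m p 0) (m k 0) (l0 0)
      have h2 := hDR p
      have h3 := hDR k
      simp only [ha]
      linarith
    have hfar : ∀ j k, j ≠ k → 1 ≤ (a j - a k) ^ 2 + (κ j - κ k) ^ 2 := by
      intro j k hjk
      have h1 := hs j k hjk
      have h2 : (1 : ℝ) ≤ dist (l j 0) (l k 0) ^ 2 := by nlinarith
      rw [hl0 j, hl0 k, hsy j k (-κ j) (-κ k), hdd j k, sq_abs] at h2
      simp only [ha]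
      nlinarith
    set A : ℕ := ⌊2 * (2 * R)⌋₊ with hA
    let f : Fin (grid (2 * R) (2 * R) + 1) → Fin (A + 1) × Fin (A + 1) := fun k =>
      (⟨⌊2 * a k⌋₊, Nat.lt_succ_of_le (Nat.floor_mono (by linarith [ha1 k]))⟩,
        ⟨⌊2 * (κ k + R)⌋₊, Nat.lt_succ_of_le (Nat.floor_mono (by
          have := (abs_le.1 (hκR k)).2
          linarith))⟩)
    obtain ⟨j, k, hjk, hf⟩ := Fintype.exists_ne_map_eq_of_card_lt f (by
      rw [Fintype.card_prod, Fintype.card_fin, Fintype.card_fin]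
      unfold grid
      exact Nat.lt_succ_self _)
    have hf1 : ⌊2 * a j⌋₊ = ⌊2 * a k⌋₊ := congrArg (fun z => (z.1 : Fin (A + 1)).val) hf
    have hf2 : ⌊2 * (κ j + R)⌋₊ = ⌊2 * (κ k + R)⌋₊ :=
      congrArg (fun z => (z.2 : Fin (A + 1)).val) hf
    have key : ∀ x y : ℝ, 0 ≤ x → 0 ≤ y → ⌊2 * x⌋₊ = ⌊2 * y⌋₊ → (x - y) ^ 2 ≤ 1 / 4 := by
      intro x y hx hy hxy
      have h1 := Nat.floor_le (show (0 : ℝ) ≤ 2 * x by linarith)
      have h2 := Nat.lt_floor_add_one (2 * x)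
      have h3 := Nat.floor_le (show (0 : ℝ) ≤ 2 * y by linarith)
      have h4 := Nat.lt_floor_add_one (2 * y)
      rw [hxy] at h1 h2
      have h5 : |x - y| ≤ 1 / 2 := by
        rw [abs_le]
        constructor <;> linarith
      have h6 : |x - y| ^ 2 ≤ (1 / 2) ^ 2 := pow_le_pow_left₀ (abs_nonneg _) h5 2
      rw [sq_abs] at h6
      linarith
    have k1 := key (a j) (a k) (ha0 j) (ha0 k) hf1
    have k2 := key (κ j + R) (κ k + R) (by linarith [(abs_le.1 (hκR j)).1])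
      (by linarith [(abs_le.1 (hκR k)).1]) hf2
    have k3 := hfar j k hjk
    have k4 : (κ j + R - (κ k + R)) ^ 2 = (κ j - κ k) ^ 2 := by ring
    rw [k4] at k2
    linarith

/-- ultralimits of bounded sequences in a proper space -/
theorem lim1_lim [ProperSpace X] (w : ℕ → X) (x0 : X) (r : ℝ)
    (h : ∀ᶠ n in atTop, dist (w n) x0 ≤ r) :
    ∃ x, Tendsto w (hyperfilter ℕ : Filter ℕ) (𝓝 x) := by
  have hle : (hyperfilter ℕ : Filter ℕ) ≤ atTop := Nat.hyperfilter_le_atTop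
  have h1 : ∀ᶠ n in (hyperfilter ℕ : Filter ℕ), dist (w n) x0 ≤ r := h.filter_mono hle
  have h2 : ((hyperfilter ℕ).map w : Filter X) ≤ 𝓟 (Metric.closedBall x0 r) := by
    rw [le_principal_iff]
    exact h1
  obtain ⟨x, _, hx⟩ := (isCompact_closedBall x0 r).ultrafilter_le_nhds _ h2
  exact ⟨x, hx⟩

end Geometry

theorem t_LIM1 : Stmt_LIM1.{u, v} := by
  intro G X _ _ _ V L hAct hMed hBra hL W R hW hR
  by_contra hcon
  push Not at hcon
  have hX := hAct.cat
  have := hAct.proper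
  have := hAct.isom
  obtain ⟨K, hK, hKg⟩ := hAct.cc
  have h1 : ∀ n : ℕ, W ≤ (n : ℝ) + W := fun n => by
    have : (0 : ℝ) ≤ n := Nat.cast_nonneg n
    linarith
  choose c0 c hc0 hc hcd hcs hE using fun n : ℕ => hcon ((n : ℝ) + W) (h1 n)
  choose g hg using fun n : ℕ => hKg (c0 n 0)
  set x0 : X := g 0 • c0 0 0 with hx0
  obtain ⟨ρ, hρ⟩ := hK.isBounded.subset_closedBall x0
  have hgK : ∀ n, dist (g n • c0 n 0) x0 ≤ ρ := fun n => hρ (hg n)
  -- large `n`
  have hbig : ∀ s : ℝ, ∀ᶠ n : ℕ in atTop, -((n : ℝ) + W) ≤ s ∧ s ≤ (n : ℝ) + W := by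
    intro s
    obtain ⟨N, hN⟩ := exists_nat_ge |s|
    filter_upwards [eventually_ge_atTop N] with n hn
    have h2 : (N : ℝ) ≤ n := by exact_mod_cast hn
    have h3 := abs_le.1 (hN.trans h2)
    constructor <;> linarith [h3.1, h3.2]
  have hbig' : ∀ s : ℝ, ∀ᶠ n : ℕ in (hyperfilter ℕ : Filter ℕ), -((n : ℝ) + W) ≤ s ∧
      s ≤ (n : ℝ) + W := fun s => (hbig s).filter_mono Nat.hyperfilter_le_atTop
  have hz : ∀ n : ℕ, -((n : ℝ) + W) ≤ 0 ∧ (0 : ℝ) ≤ (n : ℝ) + W := fun n => by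
    have : (0 : ℝ) ≤ n := Nat.cast_nonneg n
    constructor <;> linarith
  have hb0 : ∀ s : ℝ, ∀ᶠ n : ℕ in atTop, dist (g n • c0 n s) x0 ≤ |s| + ρ := by
    intro s
    filter_upwards [hbig s] with n hn
    have h2 : dist (g n • c0 n s) (g n • c0 n 0) = |s| := by
      rw [dist_smul, hc0 n s 0 hn.1 hn.2 (hz n).1 (hz n).2, sub_zero]
    have h3 := dist_triangle (g n • c0 n s) (g n • c0 n 0) x0
    have h4 := hgK n
    linarith
  have hbi : ∀ i (s : ℝ), ∀ᶠ n : ℕ in atTop, dist (g n • c n i s) x0 ≤ R + (|s| + ρ) := by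
    intro i s
    filter_upwards [hbig s, hb0 s] with n hn hn'
    have h2 : dist (g n • c n i s) (g n • c0 n s) ≤ R := by
      rw [dist_smul]
      exact hcd n i s hn.1 hn.2
    have h3 := dist_triangle (g n • c n i s) (g n • c0 n s) x0
    linarith
  choose l0 hl0 using fun s : ℝ => lim1_lim (fun n => g n • c0 n s) x0 _ (hb0 s)
  choose l hl using fun (i : Fin (grid (2 * R) (2 * R) + 1)) (s : ℝ) =>
    lim1_lim (fun n => g n • c n i s) x0 _ (hbi i s)
  have h0 : Isometry l0 := by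
    apply Isometry.of_dist_eq
    intro s t
    have h2 := (hl0 s).dist (hl0 t)
    have h3 : Tendsto (fun n => dist (g n • c0 n s) (g n • c0 n t))
        (hyperfilter ℕ : Filter ℕ) (𝓝 (dist s t)) := by
      refine tendsto_const_nhds.congr' ?_
      filter_upwards [hbig' s, hbig' t] with n hn hn'
      rw [dist_smul, hc0 n s t hn.1 hn.2 hn'.1 hn'.2, Real.dist_eq]
    exact tendsto_nhds_unique h2 h3
  have hli : ∀ i, Isometry (l i) := by
    intro i
    apply Isometry.of_dist_eq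
    intro s t
    have h2 := (hl i s).dist (hl i t)
    have h3 : Tendsto (fun n => dist (g n • c n i s) (g n • c n i t))
        (hyperfilter ℕ : Filter ℕ) (𝓝 (dist s t)) := by
      refine tendsto_const_nhds.congr' ?_
      filter_upwards [hbig' s, hbig' t] with n hn hn'
      rw [dist_smul, hc n i s t hn.1 hn.2 hn'.1 hn'.2, Real.dist_eq]
    exact tendsto_nhds_unique h2 h3
  have hd : ∀ i s, dist (l i s) (l0 s) ≤ R := by
    intro i s
    refine le_of_tendsto ((hl i s).dist (hl0 s)) ?_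
    filter_upwards [hbig' s] with n hn
    rw [dist_smul]
    exact hcd n i s hn.1 hn.2
  have hs : ∀ i j, i ≠ j → 1 ≤ dist (l i 0) (l j 0) := by
    intro i j hij
    refine ge_of_tendsto ((hl i 0).dist (hl j 0)) (Eventually.of_forall fun n => ?_)
    rw [dist_smul]
    exact hcs n i j hij
  obtain ⟨e, e', hch, hd1, hd2⟩ := lim1_geom hX hMed hBra hL hW hR l0 l h0 hli hd hs
  have t1 : Tendsto (fun n => dist e (g n • c0 n (-W))) (hyperfilter ℕ : Filter ℕ)
      (𝓝 (dist e (l0 (-W)))) := tendsto_const_nhds.dist (hl0 (-W))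
  have t2 : Tendsto (fun n => dist e' (g n • c0 n W)) (hyperfilter ℕ : Filter ℕ)
      (𝓝 (dist e' (l0 W))) := tendsto_const_nhds.dist (hl0 W)
  have f1 := t1.eventually_lt_const (show dist e (l0 (-W)) < R + L + 1 by linarith)
  have f2 := t2.eventually_lt_const (show dist e' (l0 W) < R + L + 1 by linarith)
  obtain ⟨n, hn1, hn2⟩ := (f1.and f2).exists
  have hmem : ((g n)⁻¹ • e, (g n)⁻¹ • e') ∈ EE V L (R + L + 1) W (c0 n) := by
    refine ⟨⟨hAct.inv _ _ hch.1, hAct.inv _ _ hch.2.1, ?_⟩, ?_, ?_⟩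
    · intro t0 t1 ht0 ht01 ht1 hLd
      change L ≤ (t1 - t0) * dist ((g n)⁻¹ • e) ((g n)⁻¹ • e') at hLd
      rw [dist_smul] at hLd
      obtain ⟨t, ht, ht', htV⟩ := hch.2.2 t0 t1 ht0 ht01 ht1 hLd
      refine ⟨t, ht, ht', ?_⟩
      change pt ((g n)⁻¹ • e) ((g n)⁻¹ • e') t ∈ V
      rw [← pt_smul hX (g n)⁻¹ e e' (ht0.trans ht) (ht'.trans ht1)]
      exact hAct.inv _ _ htV
    · change dist ((g n)⁻¹ • e) (c0 n (-W)) ≤ R + L + 1
      rw [← dist_smul (g n), smul_inv_smul]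
      exact hn1.le
    · change dist ((g n)⁻¹ • e') (c0 n W) ≤ R + L + 1
      rw [← dist_smul (g n), smul_inv_smul]
      exact hn2.le
  have hEn := hE n
  rw [hEn] at hmem
  exact hmem

end Pool.Agent.H169C
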