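import Pool.Agent.helper169_cat.SDefs
import Pool.Agent.helper169_cat.Lim1

/-!
JOB for MP_3abe50_al (owner helper169): LIM3, limits of long geodesics near each other.
-/

set_option autoImplicit false

universe u v

namespace Pool.Agent.H169C

open Pool.Agent.TH60.FP Filter Topology

theorem t_LIM3 : Stmt_LIM3.{u, v} := by
  classical
  intro G X _ _ _ hAct m R hR hm
  by_contra hcon
  push Not at hcon
  have hX := hAct.cat
  have := hAct.proper
  have := hAct.isom
  obtain ⟨K, hK, hKg⟩ := hAct.cc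
  have h1 : ∀ n : ℕ, (0 : ℝ) ≤ (n : ℝ) := fun n => Nat.cast_nonneg n
  choose c0 c hc0 hc hcd hcs using fun n : ℕ => hcon (n : ℝ) (h1 n)
  choose g hg using fun n : ℕ => hKg (c0 n 0)
  set x0 : X := g 0 • c0 0 0 with hx0
  obtain ⟨ρ, hρ⟩ := hK.isBounded.subset_closedBall x0
  have hgK : ∀ n, dist (g n • c0 n 0) x0 ≤ ρ := fun n => hρ (hg n)
  -- large `n`
  have hbig : ∀ s : ℝ, ∀ᶠ n : ℕ in atTop, -(n : ℝ) ≤ s ∧ s ≤ (n : ℝ) := by
    intro s
    obtain ⟨N, hN⟩ := exists_nat_ge |s|
    filter_upwards [eventually_ge_atTop N] with n hn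
    have h2 : (N : ℝ) ≤ n := by exact_mod_cast hn
    have h3 := abs_le.1 (hN.trans h2)
    constructor <;> linarith [h3.1, h3.2]
  have hbig' : ∀ s : ℝ, ∀ᶠ n : ℕ in (hyperfilter ℕ : Filter ℕ), -(n : ℝ) ≤ s ∧
      s ≤ (n : ℝ) := fun s => (hbig s).filter_mono Nat.hyperfilter_le_atTop
  have hz : ∀ n : ℕ, -(n : ℝ) ≤ 0 ∧ (0 : ℝ) ≤ (n : ℝ) := fun n => by
    have : (0 : ℝ) ≤ n := Nat.cast_nonneg n
    constructor <;> linarith
  have hb0 : ∀ s : ℝ, ∀ᶠ n : ℕ in atTop, dist (g n • c0 n s) x0 ≤ |s| + ρ := by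
    intro s
    filter_upwards [hbig s] with n hn
    have h2 : dist (g n • c0 n s) (g n • c0 n 0) = |s| := by
      rw [dist_smul, hc0 n s 0 hn.1 hn.2 (hz n).1 (hz n).2, sub_zero]
    have h3 := dist_triangle (g n • c0 n s) (g n • c0 n 0) x0
    have h4 := hgK n
    linarith
  have hbi : ∀ i (s : ℝ), ∀ᶠ n : ℕ in atTop, dist (g n • c n i s) x0 ≤ R + (|s| + ρ) := by
    intro i s
    filter_upwards [hbig s, hb0 s] with n hn hn'
    have h2 : dist (g n • c n i s) (g n • c0 n s) ≤ R := by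
      rw [dist_smul]
      exact hcd n i s hn.1 hn.2
    have h3 := dist_triangle (g n • c n i s) (g n • c0 n s) x0
    linarith
  choose l0 hl0 using fun s : ℝ => lim1_lim (fun n => g n • c0 n s) x0 _ (hb0 s)
  choose l hl using fun (i : Fin m) (s : ℝ) =>
    lim1_lim (fun n => g n • c n i s) x0 _ (hbi i s)
  have h0 : Isometry l0 := by
    apply Isometry.of_dist_eq
    intro s t
    have h2 := (hl0 s).dist (hl0 t)
    have h3 : Tendsto (fun n => dist (g n • c0 n s) (g n • c0 n t))
        (hyperfilter ℕ : Filter ℕ) (𝓝 (dist s t)) := by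
      refine tendsto_const_nhds.congr' ?_
      filter_upwards [hbig' s, hbig' t] with n hn hn'
      rw [dist_smul, hc0 n s t hn.1 hn.2 hn'.1 hn'.2, Real.dist_eq]
    exact tendsto_nhds_unique h2 h3
  have hli : ∀ i, Isometry (l i) := by
    intro i
    apply Isometry.of_dist_eq
    intro s t
    have h2 := (hl i s).dist (hl i t)
    have h3 : Tendsto (fun n => dist (g n • c n i s) (g n • c n i t))
        (hyperfilter ℕ : Filter ℕ) (𝓝 (dist s t)) := by
      refine tendsto_const_nhds.congr' ?_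
      filter_upwards [hbig' s, hbig' t] with n hn hn'
      rw [dist_smul, hc n i s t hn.1 hn.2 hn'.1 hn'.2, Real.dist_eq]
    exact tendsto_nhds_unique h2 h3
  have hd : ∀ i s, dist (l i s) (l0 s) ≤ R := by
    intro i s
    refine le_of_tendsto ((hl i s).dist (hl0 s)) ?_
    filter_upwards [hbig' s] with n hn
    rw [dist_smul]
    exact hcd n i s hn.1 hn.2
  have hs : ∀ i j, i ≠ j → 1 ≤ dist (l i 0) (l j 0) := by
    intro i j hij
    refine ge_of_tendsto ((hl i 0).dist (hl j 0)) (Eventually.of_forall fun n => ?_)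
    rw [dist_smul]
    exact hcs n i j hij
  have hinj : Function.Injective (fun i => l i 0) := by
    intro i j hij
    by_contra hne
    have h2 := hs i j hne
    have h3 : l i 0 = l j 0 := hij
    rw [h3, dist_self] at h2
    linarith
  have hfin := hm l0 h0 (Finset.univ.image (fun i => l i 0)) (by
    intro x hx
    obtain ⟨i, _, rfl⟩ := Finset.mem_image.1 hx
    refine ⟨⟨l i, hli i, ⟨R, fun s => ?_⟩, rfl⟩, hd i 0⟩
    rw [dist_comm]
    exact hd i s) (by
    intro x hx y hy hxy
    obtain ⟨i, _, rfl⟩ := Finset.mem_image.1 hx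
    obtain ⟨j, _, rfl⟩ := Finset.mem_image.1 hy
    apply hs
    rintro rfl
    exact hxy rfl)
  rw [Finset.card_image_of_injective _ hinj, Finset.card_univ, Fintype.card_fin] at hfin
  exact lt_irrefl _ hfin

end Pool.Agent.H169C
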