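import Pool.Agent.helper169_cat.SDefs
import Pool.Agent.Helper344_MA.MACH

/-!
# The averaging machine with subexponential counts (after helper344)
-/

set_option autoImplicit false

universe v

namespace Pool.Agent.H169C

open Filter Topology

theorem ma_partA2 {G : Type v} [Group G] (S : Finset G) (Γ : SimpleGraph G)
    (hS : Subgroup.closure (S : Set G) = ⊤)
    (hΓ : Γ = SimpleGraph.fromRel (fun a b : G => a⁻¹ * b ∈ S))
    (H : G → ℕ) (Λ : ℕ) (hH : ∀ g h, Γ.dist g h ≤ 1 → H g ≤ H h + Λ)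
    (hD : ∀ M : ℕ, ∃ D : ℕ, ∀ g, H g ≤ M → Γ.dist 1 g ≤ D)
    (hF : ∀ ε : ℝ, 0 < ε → ∃ (N n B : ℕ) (F : Fin N → ℕ → G → G), 1 ≤ ε * N ∧ 2 ≤ n ∧
      (∀ M : ℕ, ∃ D : ℕ, ∀ j ρ g, B ≤ ρ → ρ + B ≤ H g → H g ≤ ρ + M → Γ.dist g (F j ρ g) ≤ D) ∧
      (∀ ρ g, B ≤ ρ → ρ + B ≤ H g → ∃ j0 : ℕ, ∀ j : Fin N, (j : ℕ) ≠ j0 →
        ((F j ρ '' {h | Γ.dist g h ≤ n}).ncard : ℝ) ≤ Real.exp (ε * n)))
    (ε : ℝ) (hε : 0 < ε) :
    ∃ (ξ : G → lp (fun _ : (ℕ × ℕ × ℕ) × G => ℝ) 2) (D : ℕ),
      (∀ g h, Γ.dist g h ≤ 1 → ‖ξ g - ξ h‖ ^ 2 ≤ ε) ∧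
      (∀ g h, D < Γ.dist g h → ‖ξ g - ξ h‖ ^ 2 = 2) := by
  classical
  have hconn := ma_conn S Γ hS hΓ
  obtain ⟨N, n', B, F, hNε, hn', hF1, hF2⟩ := hF (ε / 24) (by positivity)
  have hN0 : 0 < N := by
    rcases Nat.eq_zero_or_pos N with h | h
    · rw [h] at hNε
      norm_num at hNε
    · exact h
  have hN : (2 : ℝ) / N ≤ ε / 3 := by
    have h5 : (0 : ℝ) < N := by exact_mod_cast hN0
    rw [div_le_iff₀ h5]
    nlinarith
  obtain ⟨m, rfl⟩ : ∃ m, n' = m + 1 := ⟨n' - 1, by omega⟩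
  have hm0 : 0 < m := by omega
  have hm : 4 * ((ε / 24) * ((m : ℝ) + 1)) / m ≤ ε / 3 := by
    have h5 : (1 : ℝ) ≤ m := by exact_mod_cast hm0
    rw [div_le_iff₀ (by linarith)]
    nlinarith
  obtain ⟨T, hT0, hT⟩ := ma_choose_nat (2 * (Λ : ℝ)) (ε / 3) (by positivity)
  obtain ⟨B', hB'⟩ : ∃ B' : ℕ, B' = B + Λ * (m + 3) := ⟨_, rfl⟩
  -- balls
  obtain ⟨bl, hbl⟩ : ∃ bl : G → ℕ → Finset G, ∀ g i h, h ∈ bl g i ↔ Γ.dist g h ≤ i :=
    ⟨fun g i => (ma_ball S Γ hS hΓ g i).toFinset, fun g i h => by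
      rw [Set.Finite.mem_toFinset]; rfl⟩
  have hbl_mono : ∀ g, Monotone (bl g) := by
    intro g i k hik h hh
    rw [hbl] at hh ⊢
    omega
  have hbl_nb : ∀ g g', Γ.dist g g' ≤ 1 → ∀ i, bl g i ⊆ bl g' (i + 1) := by
    intro g g' hgg i h hh
    rw [hbl] at hh ⊢
    have h1 := hconn.dist_triangle (u := g') (v := g) (w := h)
    rw [SimpleGraph.dist_comm (u := g') (v := g)] at h1
    omega
  have hbl_self : ∀ g i, g ∈ bl g i := by
    intro g i
    rw [hbl, SimpleGraph.dist_self]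
    exact Nat.zero_le _
  -- the function `H` along paths
  have hHc : ∀ g h, H g ≤ H h + Λ * Γ.dist g h := by
    intro g h
    have h1 := ma_chain hconn (fun g h => (H g : ℝ) - H h) Λ (fun g => by simp)
      (fun g h hgh => by
        have : (H g : ℝ) ≤ H h + Λ := by exact_mod_cast hH g h hgh
        linarith) (fun a b c => by simp) g h
    have h2 : (H g : ℝ) ≤ H h + Λ * Γ.dist g h := by linarith
    exact_mod_cast h2
  -- the rounding
  obtain ⟨ρ, hρ⟩ : ∃ ρ : ℕ → G → ℤ, ρ = fun (τ : ℕ) (g : G) =>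
      (τ : ℤ) + T * (((H g : ℤ) - B' - τ) / (T : ℤ)) := ⟨_, rfl⟩
  have hT' : (0 : ℤ) < T := by exact_mod_cast hT0
  have hρ1 : ∀ τ g, ρ τ g ≤ (H g : ℤ) - B' := by
    intro τ g
    rw [hρ]
    have := Int.mul_ediv_self_le (x := (H g : ℤ) - B' - τ) (k := (T : ℤ)) hT'.ne'
    show (τ : ℤ) + T * (((H g : ℤ) - B' - τ) / (T : ℤ)) ≤ (H g : ℤ) - B'
    omega
  have hρ2 : ∀ τ g, (H g : ℤ) - B' < ρ τ g + T := by
    intro τ g
    rw [hρ]
    have h6 := Int.lt_ediv_add_one_mul_self ((H g : ℤ) - B' - τ) hT'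
    rw [add_mul, one_mul, mul_comm] at h6
    show (H g : ℤ) - B' < (τ : ℤ) + T * (((H g : ℤ) - B' - τ) / (T : ℤ)) + T
    omega
  -- the sets
  obtain ⟨A, hA⟩ : ∃ A : G → ℕ → ℕ → ℕ → Finset G, A = fun g τ j r =>
      if h : j < N ∧ (B : ℤ) ≤ ρ τ g then (bl g r).image (F ⟨j, h.1⟩ (ρ τ g).toNat) else {1} :=
    ⟨_, rfl⟩
  have hA1 : ∀ g τ j r (hj : j < N), (B : ℤ) ≤ ρ τ g →
      A g τ j r = (bl g r).image (F ⟨j, hj⟩ (ρ τ g).toNat) := by
    intro g τ j r hj h
    rw [hA]
    exact dif_pos ⟨hj, h⟩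
  have hA2 : ∀ g τ j r, ¬ ((B : ℤ) ≤ ρ τ g) → A g τ j r = {1} := by
    intro g τ j r h
    rw [hA]
    exact dif_neg fun hh => h hh.2
  have hAne : ∀ g τ j r, (A g τ j r).Nonempty := by
    intro g τ j r
    rw [hA]
    show (if h : j < N ∧ (B : ℤ) ≤ ρ τ g then (bl g r).image (F ⟨j, h.1⟩ (ρ τ g).toNat)
      else {1}).Nonempty
    split_ifs with h
    · exact ⟨_, Finset.mem_image_of_mem _ (hbl_self g r)⟩
    · exact Finset.singleton_nonempty 1
  -- the vectors
  obtain ⟨I, hI⟩ : ∃ I : Finset (ℕ × ℕ × ℕ), I =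
      Finset.range T ×ˢ (Finset.range N ×ˢ Finset.range m) := ⟨_, rfl⟩
  have hIne : I.Nonempty := by
    rw [hI]
    exact ⟨(0, 0, 0), by simp [hT0, hN0, hm0]⟩
  have hIcard : (I.card : ℝ) = T * (N * m) := by
    rw [hI, Finset.card_product, Finset.card_product, Finset.card_range, Finset.card_range,
      Finset.card_range]
    push_cast
    ring
  obtain ⟨ξ, hξ⟩ : ∃ ξ : G → lp (fun _ : (ℕ × ℕ × ℕ) × G => ℝ) 2, ξ = fun g =>
      mvl I (fun k => A g k.1 k.2.1 (k.2.2 + 1)) := ⟨_, rfl⟩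
  have hξd : ∀ g h, ‖ξ g - ξ h‖ ^ 2 = 1 / ((T : ℝ) * (N * m)) *
      ∑ τ ∈ Finset.range T, ∑ j ∈ Finset.range N, ∑ i ∈ Finset.range m,
        dl (A g τ j (i + 1)) (A h τ j (i + 1)) := by
    intro g h
    rw [hξ]
    have := mvl_dist I hIne (fun k => A g k.1 k.2.1 (k.2.2 + 1)) (fun k => A h k.1 k.2.1 (k.2.2 + 1))
      (fun k _ => hAne _ _ _ _) (fun k _ => hAne _ _ _ _)
    refine this.trans ?_
    rw [hIcard, hI, Finset.sum_product]
    congr 1
    refine Finset.sum_congr rfl fun τ _ => ?_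
    rw [Finset.sum_product]
  have hT1 : (0 : ℝ) < T := by exact_mod_cast hT0
  have hN1 : (0 : ℝ) < N := by exact_mod_cast hN0
  have hm1 : (0 : ℝ) < m := by exact_mod_cast hm0
  obtain ⟨DM, hDM⟩ := hF1 (T + B' + Λ * (m + 1))
  obtain ⟨D0, hD0⟩ := hD (B' + B + T)
  refine ⟨ξ, 2 * max (DM + (m + 1)) D0, ?_, ?_⟩
  · -- neighbours
    intro g g' hgg
    have hgg' : Γ.dist g' g ≤ 1 := by rwa [SimpleGraph.dist_comm]
    obtain ⟨LC, hLC⟩ : ∃ LC : ℝ, LC = (ε / 24) * ((m : ℝ) + 1) :=
      ⟨_, rfl⟩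
    have hLC0 : 0 ≤ LC := by
      rw [hLC]
      positivity
    -- one value of `τ`
    have hgood : ∀ τ, ρ τ g = ρ τ g' → ∑ j ∈ Finset.range N, ∑ i ∈ Finset.range m,
        dl (A g τ j (i + 1)) (A g' τ j (i + 1)) ≤ N * (4 * LC) + 2 * m := by
      intro τ hττ
      by_cases hdef : (B : ℤ) ≤ ρ τ g
      · have hdef' : (B : ℤ) ≤ ρ τ g' := by rwa [← hττ]
        have hρn : ((ρ τ g).toNat : ℤ) = ρ τ g := Int.toNat_of_nonneg (by omega)
        have c1 : B ≤ (ρ τ g).toNat := by omega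
        have c2 : (ρ τ g).toNat + B ≤ H g := by
          have := hρ1 τ g
          omega
        obtain ⟨j0, hj0⟩ := hF2 (ρ τ g).toNat g c1 c2
        have hterm : ∀ j ∈ Finset.range N, ∑ i ∈ Finset.range m,
            dl (A g τ j (i + 1)) (A g' τ j (i + 1)) ≤ 4 * LC + (if j = j0 then 2 * (m : ℝ) else 0) := by
          intro j hj
          have hjN : j < N := Finset.mem_range.1 hj
          by_cases hjj : j = j0
          · rw [if_pos hjj]
            refine (Finset.sum_le_sum fun i _ => dl_le_two _ _).trans ?_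
            rw [Finset.sum_const, Finset.card_range, nsmul_eq_mul]
            linarith
          · rw [if_neg hjj, add_zero]
            have h1 := dl_sum m (fun r => A g τ j r) (fun r => A g' τ j r) (hAne _ _ _ _)
              (fun i => by
                show A g τ j i ⊆ A g' τ j (i + 1)
                rw [hA1 g τ j i hjN hdef, hA1 g' τ j (i + 1) hjN hdef', ← hττ]
                exact Finset.image_subset_image (hbl_nb g g' hgg i))
              (fun i => by
                show A g' τ j i ⊆ A g τ j (i + 1)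
                rw [hA1 g' τ j i hjN hdef', hA1 g τ j (i + 1) hjN hdef, ← hττ]
                exact Finset.image_subset_image (hbl_nb g' g hgg' i))
              (fun i k hik => by
                show A g τ j i ⊆ A g τ j k
                rw [hA1 g τ j i hjN hdef, hA1 g τ j k hjN hdef]
                exact Finset.image_subset_image (hbl_mono g hik))
            refine h1.trans ?_
            have h2 := hj0 ⟨j, hjN⟩ hjj
            have h3 : (F ⟨j, hjN⟩ (ρ τ g).toNat '' {h | Γ.dist g h ≤ m + 1}) =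
                ((A g τ j (m + 1) : Finset G) : Set G) := by
              rw [hA1 g τ j (m + 1) hjN hdef, Finset.coe_image]
              congr 1
              ext h
              rw [Finset.mem_coe, hbl]
              rfl
            rw [h3, Set.ncard_coe_finset] at h2
            have h4 : ((A g τ j (m + 1)).card : ℝ) ≤ Real.exp LC := by
              rw [hLC]
              push_cast at h2
              exact h2
            have h7 : (0 : ℝ) < (A g τ j (m + 1)).card := by
              exact_mod_cast (hAne g τ j (m + 1)).card_pos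
            have h8 := Real.log_le_log h7 h4
            rw [Real.log_exp] at h8
            show 4 * Real.log ((A g τ j (m + 1)).card) ≤ 4 * LC
            linarith
        refine (Finset.sum_le_sum hterm).trans ?_
        rw [Finset.sum_add_distrib, Finset.sum_const, Finset.card_range, nsmul_eq_mul]
        have h9 : ∑ j ∈ Finset.range N, (if j = j0 then 2 * (m : ℝ) else 0) ≤ 2 * m := by
          rw [Finset.sum_ite_eq']
          split_ifs
          · exact le_refl _
          · positivity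
        linarith
      · have hdef' : ¬ (B : ℤ) ≤ ρ τ g' := by rwa [← hττ]
        have h1 : ∑ j ∈ Finset.range N, ∑ i ∈ Finset.range m,
            dl (A g τ j (i + 1)) (A g' τ j (i + 1)) = 0 := by
          refine Finset.sum_eq_zero fun j _ => Finset.sum_eq_zero fun i _ => ?_
          rw [hA2 g τ j _ hdef, hA2 g' τ j _ hdef']
          exact dl_self _ (Finset.singleton_nonempty 1)
        rw [h1]
        positivity
    have hall : ∀ τ ∈ Finset.range T, ∑ j ∈ Finset.range N, ∑ i ∈ Finset.range m,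
        dl (A g τ j (i + 1)) (A g' τ j (i + 1)) ≤ (N * (4 * LC) + 2 * m) +
          (if ((H g : ℤ) - B' - τ) / (T : ℤ) ≠ ((H g' : ℤ) - B' - τ) / (T : ℤ) then
            2 * ((N : ℝ) * m) else 0) := by
      intro τ _
      by_cases hb : ((H g : ℤ) - B' - τ) / (T : ℤ) = ((H g' : ℤ) - B' - τ) / (T : ℤ)
      · rw [if_neg (by simpa using hb), add_zero]
        refine hgood τ ?_
        rw [hρ]
        show (τ : ℤ) + T * (((H g : ℤ) - B' - τ) / (T : ℤ)) =
          (τ : ℤ) + T * (((H g' : ℤ) - B' - τ) / (T : ℤ))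
        rw [hb]
      · rw [if_pos hb]
        have h1 : ∑ j ∈ Finset.range N, ∑ i ∈ Finset.range m,
            dl (A g τ j (i + 1)) (A g' τ j (i + 1)) ≤ 2 * ((N : ℝ) * m) := by
          refine (Finset.sum_le_sum fun j _ => Finset.sum_le_sum fun i _ => dl_le_two _ _).trans ?_
          simp only [Finset.sum_const, Finset.card_range, nsmul_eq_mul]
          linarith
        have h2 : 0 ≤ (N : ℝ) * (4 * LC) + 2 * m := by positivity
        linarith
    rw [hξd]
    have hsum : ∑ τ ∈ Finset.range T, ∑ j ∈ Finset.range N, ∑ i ∈ Finset.range m,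
        dl (A g τ j (i + 1)) (A g' τ j (i + 1)) ≤
        T * (N * (4 * LC) + 2 * m) + Λ * (2 * ((N : ℝ) * m)) := by
      refine (Finset.sum_le_sum hall).trans ?_
      rw [Finset.sum_add_distrib, Finset.sum_const, Finset.card_range, nsmul_eq_mul,
        ← Finset.sum_filter, Finset.sum_const, nsmul_eq_mul]
      have h1 := ma_floor T hT0 ((H g : ℤ) - B') ((H g' : ℤ) - B') Λ (by
        have a1 := hH g g' hgg
        have a2 := hH g' g hgg'
        rw [abs_le]
        omega)
      have h2 : (((Finset.range T).filter (fun τ : ℕ => ((H g : ℤ) - B' - τ) / (T : ℤ) ≠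
        ((H g' : ℤ) - B' - τ) / (T : ℤ))).card : ℝ) ≤ Λ := by exact_mod_cast h1
      have h3 := mul_le_mul_of_nonneg_right h2 (by positivity : 0 ≤ 2 * ((N : ℝ) * m))
      linarith
    calc 1 / ((T : ℝ) * (N * m)) * ∑ τ ∈ Finset.range T, ∑ j ∈ Finset.range N,
          ∑ i ∈ Finset.range m, dl (A g τ j (i + 1)) (A g' τ j (i + 1))
        ≤ 1 / ((T : ℝ) * (N * m)) * (T * (N * (4 * LC) + 2 * m) + Λ * (2 * ((N : ℝ) * m))) :=
          mul_le_mul_of_nonneg_left hsum (by positivity)
      _ = 4 * LC / m + 2 / N + 2 * Λ / T := by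
          field_simp
      _ ≤ ε := by
          rw [hLC]
          linarith
  · -- disjoint supports
    intro g g' hgg
    have hsupp : ∀ x τ j i, i < m → j < N → ∀ q ∈ A x τ j (i + 1),
        Γ.dist x q ≤ max (DM + (m + 1)) D0 := by
      intro x τ j i hi hj q hq
      by_cases hdef : (B : ℤ) ≤ ρ τ x
      · rw [hA1 x τ j (i + 1) hj hdef, Finset.mem_image] at hq
        obtain ⟨h, hh, rfl⟩ := hq
        rw [hbl] at hh
        have hρn : ((ρ τ x).toNat : ℤ) = ρ τ x := Int.toNat_of_nonneg (by omega)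
        have a1 := hHc x h
        have a2 := hHc h x
        rw [SimpleGraph.dist_comm (u := h) (v := x)] at a2
        have a3 : Λ * Γ.dist x h ≤ Λ * (m + 1) := Nat.mul_le_mul_left _ (by omega)
        have a4 := hρ1 τ x
        have a5 := hρ2 τ x
        have a6 : Λ * (m + 3) = Λ * (m + 1) + 2 * Λ := by ring
        have h1 := hDM ⟨j, hj⟩ (ρ τ x).toNat h (by omega) (by omega) (by omega)
        have h2 := hconn.dist_triangle (u := x) (v := h) (w := F ⟨j, hj⟩ (ρ τ x).toNat h)
        refine le_trans ?_ (le_max_left _ _)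
        omega
      · rw [hA2 x τ j _ hdef, Finset.mem_singleton] at hq
        subst hq
        refine le_trans ?_ (le_max_right _ _)
        rw [SimpleGraph.dist_comm]
        have a5 := hρ2 τ x
        exact hD0 x (by omega)
    rw [hξd]
    have h2 : ∑ τ ∈ Finset.range T, ∑ j ∈ Finset.range N, ∑ i ∈ Finset.range m,
        dl (A g τ j (i + 1)) (A g' τ j (i + 1)) = T * (N * (m * 2)) := by
      have h3 : ∀ τ ∈ Finset.range T, ∀ j ∈ Finset.range N, ∀ i ∈ Finset.range m,
          dl (A g τ j (i + 1)) (A g' τ j (i + 1)) = 2 := by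
        intro τ _ j hj i hi
        refine dl_disj _ _ ?_
        rw [Finset.eq_empty_iff_forall_notMem]
        intro q hq
        rw [Finset.mem_inter] at hq
        have b1 := hsupp g τ j i (Finset.mem_range.1 hi) (Finset.mem_range.1 hj) q hq.1
        have b2 := hsupp g' τ j i (Finset.mem_range.1 hi) (Finset.mem_range.1 hj) q hq.2
        have b3 := hconn.dist_triangle (u := g) (v := q) (w := g')
        rw [SimpleGraph.dist_comm (u := q) (v := g')] at b3
        omega
      rw [Finset.sum_congr rfl fun τ hτ => Finset.sum_congr rfl fun j hj =>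
        Finset.sum_congr rfl fun i hi => h3 τ hτ j hj i hi]
      simp only [Finset.sum_const, Finset.card_range, nsmul_eq_mul]
    rw [h2]
    field_simp

theorem t_MACH2 : Stmt_MACH2.{v} := by
  classical
  intro G _ S Γ hS hΓ H Λ hH hD hF
  have hconn := ma_conn S Γ hS hΓ
  have : Countable G := ma_countable S Γ hS hΓ
  choose ξ D hξ1 hξ2 using fun k : ℕ => ma_partA2 S Γ hS hΓ H Λ hH hD hF ((1 / 4 : ℝ) ^ k) (by positivity)
  obtain ⟨e, he⟩ := exists_injective_nat (ℕ × ((ℕ × ℕ × ℕ) × G))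
  -- distances
  have hξd : ∀ k g h, ‖ξ k g - ξ k h‖ ≤ (1 / 2 : ℝ) ^ k * Γ.dist g h := by
    intro k
    refine ma_chain hconn (fun g h => ‖ξ k g - ξ k h‖) _ (fun g => by simp) (fun g h hgh => ?_)
      (fun a b c => ?_)
    · have h1 := hξ1 k g h hgh
      have h2 : ((1 / 4 : ℝ) ^ k) = ((1 / 2 : ℝ) ^ k) ^ 2 := by
        rw [← pow_mul, mul_comm, pow_mul]
        norm_num
      rw [h2] at h1
      exact (pow_le_pow_iff_left₀ (norm_nonneg _) (by positivity) (by norm_num)).1 h1
    · have : ξ k a - ξ k c = (ξ k a - ξ k b) + (ξ k b - ξ k c) := by abel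
      show ‖ξ k a - ξ k c‖ ≤ ‖ξ k a - ξ k b‖ + ‖ξ k b - ξ k c‖
      rw [this]
      exact norm_add_le _ _
  have hξs : ∀ k g h, ‖ξ k g - ξ k h‖ ^ 2 ≤ (1 / 4 : ℝ) ^ k * (Γ.dist g h : ℝ) ^ 2 := by
    intro k g h
    refine (pow_le_pow_left₀ (norm_nonneg _) (hξd k g h) 2).trans (le_of_eq ?_)
    rw [mul_pow, ← pow_mul, mul_comm k 2, pow_mul]
    norm_num
  -- the differences
  obtain ⟨W, hW⟩ : ∃ W : G → G → ℕ × ((ℕ × ℕ × ℕ) × G) → ℝ, W = fun g h x =>
      ξ x.1 g x.2 - ξ x.1 h x.2 := ⟨_, rfl⟩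
  have hWk : ∀ g h k, ∑' y, (W g h (k, y)) ^ 2 = ‖ξ k g - ξ k h‖ ^ 2 := by
    intro g h k
    rw [lp_norm_sq, hW]
    rfl
  have hsumk : ∀ g h, Summable fun k => ‖ξ k g - ξ k h‖ ^ 2 := by
    intro g h
    refine Summable.of_nonneg_of_le (fun k => by positivity) (fun k => hξs k g h) ?_
    exact (summable_geometric_of_lt_one (by norm_num) (by norm_num)).mul_right _
  have hWs : ∀ g h, Summable fun x => (W g h x) ^ 2 := by
    intro g h
    rw [summable_prod_of_nonneg (fun x => by positivity)]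
    refine ⟨fun k => ?_, ?_⟩
    · have h1 := (lp.memℓp (ξ k g - ξ k h)).summable (by norm_num)
      simp only [ENNReal.toReal_ofNat, Real.rpow_ofNat, Real.norm_eq_abs, sq_abs] at h1
      rw [hW]
      exact h1
    · simp only [hWk]
      exact hsumk g h
  have hWt : ∀ g h, ∑' x, (W g h x) ^ 2 = ∑' k, ‖ξ k g - ξ k h‖ ^ 2 := by
    intro g h
    rw [(hWs g h).tsum_prod]
    simp only [hWk]
  -- the embedding
  obtain ⟨f, hf⟩ : ∃ f : G → lp (fun _ : ℕ => ℝ) 2, f = fun g =>
      ⟨Function.extend e (W g 1) 0, ext_mem e he _ (hWs g 1)⟩ := ⟨_, rfl⟩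
  have hfd : ∀ g h, ‖f g - f h‖ ^ 2 = ∑' k, ‖ξ k g - ξ k h‖ ^ 2 := by
    intro g h
    have h0 := lp_norm_sq.{0} (f g - f h)
    have h1 : ∀ n, (f g - f h) n = Function.extend e (W g h) 0 n := by
      intro n
      have h2 : (f g - f h) n = Function.extend e (W g 1) 0 n - Function.extend e (W h 1) 0 n := by
        rw [hf]
        rfl
      rw [h2]
      by_cases hn : ∃ x, e x = n
      · obtain ⟨x, rfl⟩ := hn
        rw [he.extend_apply, he.extend_apply, he.extend_apply, hW]
        show (ξ x.1 g x.2 - ξ x.1 1 x.2) - (ξ x.1 h x.2 - ξ x.1 1 x.2) = ξ x.1 g x.2 - ξ x.1 h x.2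
        ring
      · rw [Function.extend_apply' _ _ _ hn, Function.extend_apply' _ _ _ hn,
          Function.extend_apply' _ _ _ hn]
        simp
    rw [h0, ← hWt]
    simp only [h1]
    rw [ext_sq e he, tsum_extend_zero he]
  refine ⟨f, fun t => Real.sqrt (((Finset.range t).filter (fun k => D k < t)).card : ℝ),
    fun t => 2 * t, ?_, ?_⟩
  · refine Real.tendsto_sqrt_atTop.comp (tendsto_natCast_atTop_atTop.comp ?_)
    rw [tendsto_atTop]
    intro m
    rw [eventually_atTop]
    refine ⟨m + ∑ k ∈ Finset.range m, (D k + 1), fun t ht => ?_⟩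
    have hsub : Finset.range m ⊆ (Finset.range t).filter (fun k => D k < t) := by
      intro k hk
      have hk' := Finset.mem_range.1 hk
      have h1 : D k + 1 ≤ ∑ k ∈ Finset.range m, (D k + 1) :=
        Finset.single_le_sum (f := fun k => D k + 1) (fun _ _ => Nat.zero_le _) hk
      rw [Finset.mem_filter, Finset.mem_range]
      constructor <;> omega
    have := Finset.card_le_card hsub
    rwa [Finset.card_range] at this
  · intro g h
    constructor
    · rw [← Real.sqrt_sq (norm_nonneg (f g - f h)), hfd]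
      refine Real.sqrt_le_sqrt ?_
      have h1 := (hsumk g h).sum_le_tsum ((Finset.range (Γ.dist g h)).filter
        (fun k => D k < Γ.dist g h)) (fun k _ => by positivity)
      refine le_trans ?_ h1
      have h2 : ∀ k ∈ (Finset.range (Γ.dist g h)).filter (fun k => D k < Γ.dist g h),
          ‖ξ k g - ξ k h‖ ^ 2 = 2 := by
        intro k hk
        exact hξ2 k g h (Finset.mem_filter.1 hk).2
      rw [Finset.sum_congr rfl h2, Finset.sum_const, nsmul_eq_mul]
      have : (0 : ℝ) ≤ (((Finset.range (Γ.dist g h)).filter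
        (fun k => D k < Γ.dist g h)).card : ℝ) := by positivity
      linarith
    · have h1 : ‖f g - f h‖ ^ 2 ≤ (2 * (Γ.dist g h : ℝ)) ^ 2 := by
        rw [hfd]
        have h2 : Summable fun k : ℕ => (1 / 4 : ℝ) ^ k * (Γ.dist g h : ℝ) ^ 2 :=
          (summable_geometric_of_lt_one (by norm_num) (by norm_num)).mul_right _
        refine ((hsumk g h).tsum_le_tsum (fun k => hξs k g h) h2).trans ?_
        rw [tsum_mul_right, tsum_geometric_of_lt_one (by norm_num) (by norm_num)]
        have : (0 : ℝ) ≤ (Γ.dist g h : ℝ) ^ 2 := by positivity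
        norm_num
        nlinarith
      exact (pow_le_pow_iff_left₀ (norm_nonneg _) (by positivity) (by norm_num)).1 h1

end Pool.Agent.H169C
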