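import Pool.Agent.helper169_cat.SDefs

set_option autoImplicit false

universe u v

namespace Pool.Agent.H169C

open Pool.Agent.TH60.FP Filter Topology

section UNI

variable {X : Type u} [MetricSpace X]

/-- separated subsets of a part of the parallel set -/
def uniG (l : ℝ → X) (R : ℝ) (A : Finset X) : Prop :=
  (∀ x ∈ A, x ∈ PS l ∧ dist x (l 0) ≤ R) ∧ Sep A

/-- a bound for their cardinality -/
def uniU (l : ℝ → X) (R B : ℝ) : Prop := ∀ A : Finset X, uniG l R A → (A.card : ℝ) ≤ B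

theorem uni_sub {l l' : ℝ → X} (h : ∃ B : ℝ, ∀ s : ℝ, dist (l s) (l' s) ≤ B) : PS l ⊆ PS l' := by
  rintro x ⟨c, hc, ⟨B', hB'⟩, hx⟩
  obtain ⟨B, hB⟩ := h
  refine ⟨c, hc, ⟨B + B', fun s => ?_⟩, hx⟩
  have h1 := dist_triangle (l' s) (l s) (c s)
  have h2 := hB s
  have h3 := hB' s
  rw [dist_comm (l' s) (l s)] at h1
  linarith

theorem uni_const (hX : Cat X) {l l' : ℝ → X} (hl : Isometry l) (hl' : Isometry l')
    (h : ∃ B : ℝ, ∀ s : ℝ, dist (l s) (l' s) ≤ B) (s : ℝ) :
    dist (l s) (l' s) = dist (l 0) (l' 0) := by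
  obtain ⟨B, hB⟩ := h
  obtain ⟨o, ho⟩ := strip hX hl hl' hB
  have h1 := ho s (s - o)
  have h2 := ho 0 (-o)
  simp only [sub_add_cancel, neg_add_cancel] at h1 h2
  have h3 : dist (l s) (l' s) ^ 2 = dist (l 0) (l' 0) ^ 2 := by
    rw [h1, h2]
    ring
  exact (pow_left_inj₀ dist_nonneg dist_nonneg two_ne_zero).1 h3

theorem uni_conv (hX : Cat X) {l : ℝ → X} (hl : Isometry l) {x : X} (hx : x ∈ PS l) {θ : ℝ}
    (h0 : 0 ≤ θ) (h1 : θ ≤ 1) : pt (l 0) x θ ∈ PS l := by
  obtain ⟨l', hl', ⟨B, hB⟩, rfl⟩ := hx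
  obtain ⟨o, ho⟩ := strip hX hl hl' hB
  have hi := iso_shift hl' o
  have hm := mix_iso hX hl hi ho h0 h1
  have hs := mix_sy hX hl hi ho h0 h1
  have hp := mix_pt hX hl hi ho h0 h1 0 (-o)
  simp only [neg_add_cancel] at hp
  refine ⟨fun t => mix l (fun t => l' (t + o)) θ (t + ((1 - θ) * 0 + θ * -o)),
    iso_shift hm _, ⟨|dist (l 0) (mix l (fun t => l' (t + o)) θ 0)| + |θ * o|, fun s => ?_⟩, ?_⟩
  · have h2 := hs s (s + ((1 - θ) * 0 + θ * -o))
    apply le_of_sq_le (by positivity)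
    rw [h2]
    have e : (s + ((1 - θ) * 0 + θ * -o) - s) ^ 2 = |θ * o| ^ 2 := by
      rw [sq_abs]
      ring
    have e2 : |dist (l 0) (mix l (fun t => l' (t + o)) θ 0)| ^ 2 =
      dist (l 0) (mix l (fun t => l' (t + o)) θ 0) ^ 2 := sq_abs _
    rw [e, add_sq, e2]
    have : 0 ≤ 2 * |dist (l 0) (mix l (fun t => l' (t + o)) θ 0)| * |θ * o| := by positivity
    linarith
  · simp only [zero_add]
    exact hp.symm

theorem uni_bound {G : Type v} [Group G] [MulAction G X] (hA : Act G X (∅ : Set X)) (ρ : ℝ) :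
    ∃ Q : ℕ, ∀ (x : X) (A : Finset X), (∀ y ∈ A, dist y x ≤ ρ) → Sep A → A.card ≤ Q := by
  classical
  have := hA.proper
  have := hA.isom
  rcases isEmpty_or_nonempty X with hE | ⟨⟨x0⟩⟩
  · exact ⟨0, fun x => (hE.false x).elim⟩
  obtain ⟨K, hK, hKg⟩ := hA.cc
  obtain ⟨r, hr⟩ := hK.isBounded.subset_closedBall x0
  have hcomp := isCompact_closedBall x0 (r + ρ)
  obtain ⟨t, ht⟩ := hcomp.elim_finite_subcover (fun y : X => Metric.ball y (1 / 2))
    (fun y => Metric.isOpen_ball) (fun z _ => Set.mem_iUnion.2 ⟨z, Metric.mem_ball_self (by norm_num)⟩)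
  refine ⟨t.card, fun x A hxA hS => ?_⟩
  obtain ⟨g, hg⟩ := hKg x
  have hmem : ∀ y ∈ A, ∃ c ∈ t, dist (g • y) c < 1 / 2 := by
    intro y hy
    have h1 : g • y ∈ Metric.closedBall x0 (r + ρ) := by
      rw [Metric.mem_closedBall]
      have h2 := dist_triangle (g • y) (g • x) x0
      rw [dist_smul] at h2
      have h3 := hxA y hy
      have h4 : dist (g • x) x0 ≤ r := hr hg
      linarith
    have h5 := ht h1
    simp only [Set.mem_iUnion] at h5
    obtain ⟨c, hc, hc2⟩ := h5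
    exact ⟨c, hc, hc2⟩
  choose! f hf1 hf2 using hmem
  refine Finset.card_le_card_of_injOn f hf1 ?_
  intro y hy y' hy' hyy
  by_contra hne
  have h1 := hS y hy y' hy' hne
  have h2 := hf2 y hy
  have h3 := hf2 y' hy'
  rw [← hyy] at h3
  have h4 := dist_triangle_right (g • y) (g • y') (f y)
  rw [dist_smul] at h4
  linarith

theorem uni_step {G : Type v} [Group G] [MulAction G X] (hA : Act G X (∅ : Set X)) {l : ℝ → X}
    (hl : Isometry l) {j k : ℝ} (hj : 0 ≤ j) (hk : 0 ≤ k) {B1 B2 : ℝ}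
    (h1 : ∀ l' : ℝ → X, Isometry l' → uniU l' (1 + j) B1) (h2 : uniU l (1 + k) B2) :
    uniU l (1 + (k + j)) (B2 * B1) := by
  classical
  have hX := hA.cat
  obtain ⟨Q, hQ⟩ := uni_bound hA (1 + k)
  -- a maximal separated set
  have hex : ∃ N : Finset X, uniG l (1 + k) N ∧ ∀ N', uniG l (1 + k) N' → N'.card ≤ N.card := by
    set T : Set ℕ := {n | ∃ N : Finset X, uniG l (1 + k) N ∧ N.card = n} with hT
    have hTb : BddAbove T := ⟨Q, by
      rintro n ⟨N, hN, rfl⟩
      exact hQ (l 0) N (fun y hy => (hN.1 y hy).2) hN.2⟩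
    have hTn : T.Nonempty := ⟨0, ∅, ⟨fun x hx => absurd hx (Finset.notMem_empty x),
      fun x hx => absurd hx (Finset.notMem_empty x)⟩, rfl⟩
    obtain ⟨N, hN, hNc⟩ := Nat.sSup_mem hTn hTb
    exact ⟨N, hN, fun N' hN' => by rw [hNc]; exact le_csSup hTb ⟨N', hN', rfl⟩⟩
  obtain ⟨N, hN, hNmax⟩ := hex
  intro A hAg
  have hB1 : 0 ≤ B1 := by
    have := h1 l hl ∅ ⟨fun x hx => absurd hx (Finset.notMem_empty x),
      fun x hx => absurd hx (Finset.notMem_empty x)⟩
    simpa using this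
  have hclose : ∀ x ∈ A, ∃ y ∈ N, dist x y ≤ 1 + j := by
    intro x hx
    obtain ⟨hxP, hxd⟩ := hAg.1 x hx
    have hx' : ∃ x' ∈ PS l, dist x' (l 0) ≤ 1 + k ∧ dist x x' ≤ j := by
      by_cases hc : dist x (l 0) ≤ 1 + k
      · exact ⟨x, hxP, hc, by rw [dist_self]; exact hj⟩
      · push Not at hc
        have hd : 0 < dist (l 0) x := by
          rw [dist_comm]
          linarith
        have hθ0 : 0 ≤ (1 + k) / dist (l 0) x := by positivity
        have hθ1 : (1 + k) / dist (l 0) x ≤ 1 := by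
          rw [div_le_one hd, dist_comm]
          exact hc.le
        refine ⟨pt (l 0) x ((1 + k) / dist (l 0) x), uni_conv hX hl hxP hθ0 hθ1, ?_, ?_⟩
        · rw [dist_comm, dist_left hX _ _ hθ0 hθ1, div_mul_cancel₀ _ hd.ne']
        · rw [dist_comm, dist_right hX _ _ hθ0 hθ1, sub_mul, div_mul_cancel₀ _ hd.ne', one_mul,
            dist_comm]
          linarith
    obtain ⟨x', hx'P, hx'd, hxx⟩ := hx'
    by_contra hcon
    push Not at hcon
    have hfar : ∀ y ∈ N, 1 ≤ dist x' y := by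
      intro y hy
      have h3 := hcon y hy
      have h4 := dist_triangle x x' y
      linarith
    have hnot : x' ∉ N := by
      intro hmem
      have := hfar x' hmem
      rw [dist_self] at this
      linarith
    have h3 := hNmax (insert x' N) ⟨?_, ?_⟩
    · rw [Finset.card_insert_of_notMem hnot] at h3
      omega
    · intro z hz
      rcases Finset.mem_insert.1 hz with rfl | hz
      · exact ⟨hx'P, hx'd⟩
      · exact hN.1 z hz
    · intro a ha b hb hab
      rcases Finset.mem_insert.1 ha with ha1 | ha1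
      · rcases Finset.mem_insert.1 hb with hb1 | hb1
        · exact absurd (ha1.trans hb1.symm) hab
        · rw [ha1]
          exact hfar b hb1
      · rcases Finset.mem_insert.1 hb with hb1 | hb1
        · rw [hb1, dist_comm]
          exact hfar a ha1
        · exact hN.2 a ha1 b hb1 hab
  have hsub : A ⊆ N.biUnion (fun y => A.filter (fun x => dist x y ≤ 1 + j)) := by
    intro x hx
    obtain ⟨y, hy, hxy⟩ := hclose x hx
    exact Finset.mem_biUnion.2 ⟨y, hy, Finset.mem_filter.2 ⟨hx, hxy⟩⟩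
  have hpart : ∀ y ∈ N, ((A.filter (fun x => dist x y ≤ 1 + j)).card : ℝ) ≤ B1 := by
    intro y hy
    obtain ⟨ly, hly, hpar, hy0⟩ := (hN.1 y hy).1
    refine h1 ly hly _ ⟨?_, ?_⟩
    · intro x hx
      rw [Finset.mem_filter] at hx
      refine ⟨uni_sub hpar (hAg.1 x hx.1).1, ?_⟩
      rw [hy0]
      exact hx.2
    · intro a ha b hb hab
      exact hAg.2 a (Finset.mem_filter.1 ha).1 b (Finset.mem_filter.1 hb).1 hab
  calc (A.card : ℝ) ≤ ((N.biUnion (fun y => A.filter (fun x => dist x y ≤ 1 + j))).card : ℝ) := by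
        exact_mod_cast Finset.card_le_card hsub
    _ ≤ ∑ y ∈ N, ((A.filter (fun x => dist x y ≤ 1 + j)).card : ℝ) := by
        exact_mod_cast Finset.card_biUnion_le
    _ ≤ ∑ _y ∈ N, B1 := Finset.sum_le_sum hpart
    _ = (N.card : ℝ) * B1 := by rw [Finset.sum_const, nsmul_eq_mul]
    _ ≤ B2 * B1 := mul_le_mul_of_nonneg_right (h2 N hN) hB1

theorem uni_two {G : Type v} [Group G] [MulAction G X] (hA : Act G X (∅ : Set X)) {ε R0 : ℝ}
    (hε : 0 < ε) (hfail : ∀ R : ℝ, R0 ≤ R → ∃ l : ℝ → X, Isometry l ∧ ¬ Gro l ε R) (K : ℕ) :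
    ∃ l : ℝ → X, Isometry l ∧ ∀ k : ℕ, 1 ≤ k → k ≤ K → ∃ A : Finset X, uniG l (1 + (k : ℝ)) A ∧
      Real.exp (ε / 2 * k) ≤ (A.card : ℝ) := by
  by_contra hcon
  push Not at hcon
  obtain ⟨Q, hQ⟩ := uni_bound hA (1 + (K : ℝ))
  have claim : ∀ j : ℕ, ∀ l : ℝ → X, Isometry l →
      uniU l (1 + (j : ℝ)) (((Q : ℝ) + 1) * Real.exp (ε / 2 * j)) := by
    intro j
    induction j using Nat.strong_induction_on with
    | _ j ih =>
      intro l hl
      by_cases hj : j ≤ K
      · intro A hAg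
        have hjK : (j : ℝ) ≤ K := by exact_mod_cast hj
        have h1 : A.card ≤ Q := hQ (l 0) A
          (fun y hy => ((hAg.1 y hy).2).trans (by linarith)) hAg.2
        have h2 : (A.card : ℝ) ≤ Q := by exact_mod_cast h1
        have h3 : 1 ≤ Real.exp (ε / 2 * j) := Real.one_le_exp (by positivity)
        have h4 : (0 : ℝ) ≤ (Q : ℝ) + 1 := by positivity
        nlinarith
      · obtain ⟨k, hk1, hkK, hk⟩ := hcon l hl
        have hkj : k ≤ j := by omega
        have hsub : (((j - k : ℕ) : ℕ) : ℝ) = (j : ℝ) - k := by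
          rw [Nat.cast_sub hkj]
        have h1 := uni_step hA hl (j := (j : ℝ) - k) (k := (k : ℝ))
          (by rw [← hsub]; positivity) (by positivity)
          (B1 := ((Q : ℝ) + 1) * Real.exp (ε / 2 * ((j : ℝ) - k)))
          (B2 := Real.exp (ε / 2 * k))
          (fun l' hl' => by
            have := ih (j - k) (by omega) l' hl'
            rw [hsub] at this
            exact this)
          (fun A hAg => (hk A hAg).le)
        have e1 : 1 + ((k : ℝ) + ((j : ℝ) - k)) = 1 + (j : ℝ) := by ring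
        have e2 : Real.exp (ε / 2 * k) * (((Q : ℝ) + 1) * Real.exp (ε / 2 * ((j : ℝ) - k))) =
            ((Q : ℝ) + 1) * Real.exp (ε / 2 * j) := by
          have e3 : ε / 2 * (j : ℝ) = ε / 2 * k + ε / 2 * ((j : ℝ) - k) := by ring
          rw [e3, Real.exp_add]
          ring
        rw [e1, e2] at h1
        exact h1
  obtain ⟨j, hj⟩ := exists_nat_ge (max R0 (2 * ((Q : ℝ) + 1) / ε))
  have hj1 : R0 ≤ (j : ℝ) := (le_max_left _ _).trans hj
  have hj2 : 2 * ((Q : ℝ) + 1) / ε ≤ (j : ℝ) := (le_max_right _ _).trans hj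
  obtain ⟨l, hl, hG⟩ := hfail (1 + (j : ℝ)) (by linarith)
  unfold Gro at hG
  push Not at hG
  obtain ⟨A, hA1, hA2, hA3⟩ := hG
  have h1 := claim j l hl A ⟨hA1, hA2⟩
  have h2 : (Q : ℝ) + 1 ≤ ε / 2 * j := by
    rw [div_le_iff₀ hε] at hj2
    linarith
  have h3 := Real.add_one_le_exp (ε / 2 * ((j : ℝ) + 2))
  have e4 : ε * (1 + (j : ℝ)) = ε / 2 * j + ε / 2 * ((j : ℝ) + 2) := by ring
  rw [e4, Real.exp_add] at hA3
  have h5 := Real.exp_pos (ε / 2 * (j : ℝ))
  nlinarith

/-- ultralimits of bounded sequences in a proper space -/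
theorem uni_lim [ProperSpace X] (w : ℕ → X) (x0 : X) (r : ℝ)
    (h : ∀ᶠ n in atTop, dist (w n) x0 ≤ r) :
    ∃ x, Tendsto w (hyperfilter ℕ : Filter ℕ) (𝓝 x) := by
  have hle : (hyperfilter ℕ : Filter ℕ) ≤ atTop := Nat.hyperfilter_le_atTop
  have h1 : ∀ᶠ n in (hyperfilter ℕ : Filter ℕ), dist (w n) x0 ≤ r := h.filter_mono hle
  have h2 : ((hyperfilter ℕ).map w : Filter X) ≤ 𝓟 (Metric.closedBall x0 r) := by
    rw [le_principal_iff]
    exact h1
  obtain ⟨x, _, hx⟩ := (isCompact_closedBall x0 r).ultrafilter_le_nhds _ h2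
  exact ⟨x, hx⟩

end UNI

theorem t_UNI : Stmt_UNI.{u, v} := by
  classical
  intro G X _ _ _ hAct hsub ε hε R0
  by_contra hcon
  push Not at hcon
  have hX := hAct.cat
  have := hAct.proper
  have := hAct.isom
  obtain ⟨Kc, hK, hKg⟩ := hAct.cc
  choose lK hlK hA using fun K : ℕ => uni_two hAct hε hcon K
  choose g hg using fun n : ℕ => hKg (lK n 0)
  set x0 : X := g 0 • lK 0 0 with hx0
  obtain ⟨ρ, hρ⟩ := hK.isBounded.subset_closedBall x0
  have hgK : ∀ n, dist (g n • lK n 0) x0 ≤ ρ := fun n => hρ (hg n)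
  have hb0 : ∀ (s : ℝ) (n : ℕ), dist (g n • lK n s) x0 ≤ |s| + ρ := by
    intro s n
    have h2 : dist (g n • lK n s) (g n • lK n 0) = |s| := by
      rw [dist_smul, (hlK n).dist_eq, Real.dist_eq, sub_zero]
    have h3 := dist_triangle (g n • lK n s) (g n • lK n 0) x0
    have h4 := hgK n
    linarith
  choose l0 hl0 using fun s : ℝ => uni_lim (fun n => g n • lK n s) x0 _
    (Eventually.of_forall (hb0 s))
  have h0 : Isometry l0 := by
    apply Isometry.of_dist_eq
    intro s t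
    have h2 := (hl0 s).dist (hl0 t)
    have h3 : Tendsto (fun n => dist (g n • lK n s) (g n • lK n t))
        (hyperfilter ℕ : Filter ℕ) (𝓝 (dist s t)) := by
      refine tendsto_const_nhds.congr ?_
      intro n
      rw [dist_smul, (hlK n).dist_eq]
    exact tendsto_nhds_unique h2 h3
  obtain ⟨R1, hR1⟩ := hsub l0 h0 (ε / 4) (by positivity)
  obtain ⟨k, hk⟩ := exists_nat_ge (max R1 2)
  have hk1 : R1 ≤ 1 + (k : ℝ) := by linarith [(le_max_left R1 2).trans hk]
  have hk2 : (2 : ℝ) ≤ k := (le_max_right R1 2).trans hk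
  have hk2' : 2 ≤ k := by exact_mod_cast hk2
  have hlines : ∀ K : ℕ, ∃ c : Fin ⌈Real.exp (ε / 2 * k)⌉₊ → ℝ → X, k ≤ K →
      (∀ i, Isometry (c i)) ∧ (∀ i s, dist (c i s) (lK K s) ≤ 1 + (k : ℝ)) ∧
      ∀ i j, i ≠ j → 1 ≤ dist (c i 0) (c j 0) := by
    intro K
    by_cases hKk : k ≤ K
    · obtain ⟨A, hAg, hAc⟩ := hA K k (by omega) hKk
      have hcard : ⌈Real.exp (ε / 2 * k)⌉₊ ≤ A.card := Nat.ceil_le.2 hAc
      have hpt : ∀ a : {a // a ∈ A}, ∃ l' : ℝ → X, Isometry l' ∧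
          (∃ B : ℝ, ∀ s : ℝ, dist (lK K s) (l' s) ≤ B) ∧ l' 0 = a.1 := fun a => (hAg.1 a.1 a.2).1
      choose c hc1 hc2 hc3 using hpt
      set e : Fin ⌈Real.exp (ε / 2 * k)⌉₊ → {a // a ∈ A} := fun i =>
        A.equivFin.symm (Fin.castLE hcard i) with he
      have heinj : Function.Injective e := by
        intro i j hij
        have := A.equivFin.symm.injective hij
        exact Fin.castLE_injective hcard this
      refine ⟨fun i => c (e i), fun _ => ⟨fun i => hc1 _, fun i s => ?_, fun i j hij => ?_⟩⟩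
      · rw [dist_comm, uni_const hX (hlK K) (hc1 _) (hc2 _) s, hc3, dist_comm]
        exact (hAg.1 _ (e i).2).2
      · change 1 ≤ dist (c (e i) 0) (c (e j) 0)
        rw [hc3, hc3]
        exact hAg.2 _ (e i).2 _ (e j).2 (fun h => hij (heinj (Subtype.ext h)))
    · exact ⟨fun _ => lK K, fun h => absurd h hKk⟩
  choose c hc using hlines
  have hev : ∀ᶠ n : ℕ in atTop, k ≤ n := eventually_ge_atTop k
  have hev' : ∀ᶠ n : ℕ in (hyperfilter ℕ : Filter ℕ), k ≤ n :=
    hev.filter_mono Nat.hyperfilter_le_atTop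
  have hbi : ∀ i (s : ℝ), ∀ᶠ n : ℕ in atTop,
      dist (g n • c n i s) x0 ≤ (1 + (k : ℝ)) + (|s| + ρ) := by
    intro i s
    filter_upwards [hev] with n hn
    have h2 : dist (g n • c n i s) (g n • lK n s) ≤ 1 + (k : ℝ) := by
      rw [dist_smul]
      exact (hc n hn).2.1 i s
    have h3 := dist_triangle (g n • c n i s) (g n • lK n s) x0
    have h4 := hb0 s n
    linarith
  choose l hl using fun (i : Fin ⌈Real.exp (ε / 2 * k)⌉₊) (s : ℝ) =>
    uni_lim (fun n => g n • c n i s) x0 _ (hbi i s)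
  have hli : ∀ i, Isometry (l i) := by
    intro i
    apply Isometry.of_dist_eq
    intro s t
    have h2 := (hl i s).dist (hl i t)
    have h3 : Tendsto (fun n => dist (g n • c n i s) (g n • c n i t))
        (hyperfilter ℕ : Filter ℕ) (𝓝 (dist s t)) := by
      refine tendsto_const_nhds.congr' ?_
      filter_upwards [hev'] with n hn
      rw [dist_smul, ((hc n hn).1 i).dist_eq]
    exact tendsto_nhds_unique h2 h3
  have hd : ∀ i s, dist (l i s) (l0 s) ≤ 1 + (k : ℝ) := by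
    intro i s
    refine le_of_tendsto ((hl i s).dist (hl0 s)) ?_
    filter_upwards [hev'] with n hn
    rw [dist_smul]
    exact (hc n hn).2.1 i s
  have hs : ∀ i j, i ≠ j → 1 ≤ dist (l i 0) (l j 0) := by
    intro i j hij
    refine ge_of_tendsto ((hl i 0).dist (hl j 0)) ?_
    filter_upwards [hev'] with n hn
    rw [dist_smul]
    exact (hc n hn).2.2 i j hij
  have hinj : Function.Injective (fun i => l i 0) := by
    intro i j hij
    by_contra hne
    have h1 := hs i j hne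
    have h2 : l i 0 = l j 0 := hij
    rw [h2, dist_self] at h1
    linarith
  have hfin := hR1 (1 + (k : ℝ)) hk1 (Finset.univ.image (fun i => l i 0)) ?_ ?_
  · rw [Finset.card_image_of_injective _ hinj, Finset.card_univ, Fintype.card_fin] at hfin
    have h1 := Nat.le_ceil (Real.exp (ε / 2 * k))
    have h2 := Real.exp_le_exp.1 (h1.trans hfin)
    nlinarith
  · intro x hx
    obtain ⟨i, _, rfl⟩ := Finset.mem_image.1 hx
    exact ⟨⟨l i, hli i, ⟨1 + (k : ℝ), fun s => by rw [dist_comm]; exact hd i s⟩, rfl⟩, hd i 0⟩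
  · intro x hx y hy hxy
    obtain ⟨i, _, rfl⟩ := Finset.mem_image.1 hx
    obtain ⟨j, _, rfl⟩ := Finset.mem_image.1 hy
    exact hs i j (fun h => hxy (by rw [h]))

end Pool.Agent.H169C
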