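import Pool.Agent.helper169_cat.Defs

/-!
# LIM2: ultralimits of geodesics; chained pairs lie on parallel lines in the middle part
-/

set_option autoImplicit false

universe u v

namespace Pool.Agent.H169C

open Pool.Agent.TH60.FP

namespace L2

open Filter Topology

variable {X : Type u} [MetricSpace X]

/-- bounded sequences converge along ultrafilters -/
theorem ulim [ProperSpace X] (U : Ultrafilter ℕ) (x0 : X) (f : ℕ → X) (C : ℝ)
    (h : ∀ᶠ n in (U : Filter ℕ), dist (f n) x0 ≤ C) : ∃ y, Tendsto f (U : Filter ℕ) (𝓝 y) := by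
  obtain ⟨y, _, hy⟩ := (isCompact_closedBall x0 C).ultrafilter_le_nhds (U.map f) (by
    rw [Ultrafilter.coe_map]
    exact tendsto_principal.2 h)
  exact ⟨y, hy⟩

/-- a sequence in a finite set is constant along an ultrafilter -/
theorem uconst (U : Ultrafilter ℕ) {F : Set X} (hF : F.Finite) (f : ℕ → X)
    (h : ∀ᶠ n in (U : Filter ℕ), f n ∈ F) : ∃ a ∈ F, ∀ᶠ n in (U : Filter ℕ), f n = a := by
  have h1 : (⋃ a ∈ F, {n | f n = a}) ∈ U := by
    refine mem_of_superset (Ultrafilter.mem_coe.2 h) ?_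
    intro n hn
    simp only [Set.mem_iUnion]
    exact ⟨f n, hn, rfl⟩
  obtain ⟨a, ha, h2⟩ := (Ultrafilter.finite_biUnion_mem_iff hF).1 h1
  exact ⟨a, ha, h2⟩

/-- a vertex of the limit -/
theorem vertex [ProperSpace X] {V : Set X}
    (hfin : ∀ (x : X) (r : ℝ), (V ∩ Metric.closedBall x r).Finite) (U : Ultrafilter ℕ) (x0 : X)
    {L : ℝ} (E : ℕ → ℝ → X) (l : ℝ → X)
    (hE1 : ∀ A : ℝ, ∀ᶠ n in (U : Filter ℕ), ∀ s t : ℝ, |s| ≤ A → |t| ≤ A →
      dist (E n s) (E n t) = |s - t|)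
    (hE2 : ∀ s, Tendsto (fun n => E n s) (U : Filter ℕ) (𝓝 (l s)))
    (hE3 : ∀ A : ℝ, ∃ C : ℝ, ∀ᶠ n in (U : Filter ℕ), ∀ s : ℝ, |s| ≤ A → dist (E n s) x0 ≤ C)
    (hV : ∀ p : ℝ, ∀ᶠ n in (U : Filter ℕ), ∃ s : ℝ, (p ≤ s ∧ s ≤ p + L) ∧ E n s ∈ V) (p : ℝ) :
    ∃ (α : ℕ → ℝ) (α' : ℝ) (a : X), p ≤ α' ∧ α' ≤ p + L ∧ l α' = a ∧
      ∀ᶠ n in (U : Filter ℕ), p ≤ α n ∧ α n ≤ p + L ∧ E n (α n) = a := by
  obtain ⟨α, hα⟩ := (hV p).choice
  set A : ℝ := |p| + |p + L| with hA
  have habs : ∀ s : ℝ, p ≤ s ∧ s ≤ p + L → |s| ≤ A := by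
    intro s hs
    rw [abs_le]
    have h1 := neg_abs_le p
    have h2 := le_abs_self (p + L)
    have h3 := abs_nonneg p
    have h4 := abs_nonneg (p + L)
    constructor
    · linarith [hs.1]
    · linarith [hs.2]
  obtain ⟨C, hC⟩ := hE3 A
  obtain ⟨a, haV, ha⟩ := uconst U (hfin x0 C) (fun n => E n (α n)) (by
    filter_upwards [hα, hC] with n h1 h2
    exact ⟨h1.2, Metric.mem_closedBall.2 (h2 _ (habs _ h1.1))⟩)
  obtain ⟨α', hα'⟩ := ulim U (0 : ℝ) α A (by
    filter_upwards [hα] with n h1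
    rw [Real.dist_eq, sub_zero]
    exact habs _ h1.1)
  have hmem : α' ∈ Set.Icc p (p + L) := by
    refine isClosed_Icc.mem_of_tendsto hα' ?_
    filter_upwards [hα] with n h1
    exact h1.1
  refine ⟨α, α', a, hmem.1, hmem.2, ?_, ?_⟩
  · have h1 : Tendsto (fun n => E n (α n)) (U : Filter ℕ) (𝓝 (l α')) := by
      have h2 : Tendsto (fun n => dist (E n (α n)) (E n α')) (U : Filter ℕ) (𝓝 0) := by
        have h3 : Tendsto (fun n => |α n - α'|) (U : Filter ℕ) (𝓝 0) := by
          have := (hα'.sub_const α').abs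
          simpa using this
        refine h3.congr' ?_
        filter_upwards [hE1 A, hα] with n k1 k2
        exact (k1 _ _ (habs _ k2.1) (habs _ hmem)).symm
      rw [tendsto_iff_dist_tendsto_zero]
      have h4 := (tendsto_iff_dist_tendsto_zero.1 (hE2 α'))
      have h5 := h2.add h4
      rw [add_zero] at h5
      exact squeeze_zero (fun n => dist_nonneg) (fun n => dist_triangle _ _ _) h5
    have h2 : Tendsto (fun n => E n (α n)) (U : Filter ℕ) (𝓝 a) := by
      refine tendsto_const_nhds.congr' ?_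
      filter_upwards [ha] with n hn
      exact hn.symm
    exact tendsto_nhds_unique h1 h2
  · filter_upwards [hα, ha] with n k1 k2
    exact ⟨k1.1.1, k1.1.2, k2⟩

/-- the conclusion for one chained pair -/
def Good (D w : ℝ) (l0 c : ℝ → X) (e : X × X) (l : ℝ → X) (μ : ℝ) : Prop :=
  Isometry l0 ∧ Isometry l ∧ Sy l0 l ∧
    (∀ s : ℝ, -w ≤ s → s ≤ w → dist (l s) (c s) ≤ D + 1) ∧
    (∀ t : ℝ, 0 ≤ t → t ≤ 1 → dist (pt e.1 e.2 t) (c 0) ≤ w →
      pt e.1 e.2 t = l (t * dist e.1 e.2 + μ)) ∧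
    (∀ s : ℝ, -w ≤ s → s ≤ w → ∃ t : ℝ, 0 ≤ t ∧ t ≤ 1 ∧ l s = pt e.1 e.2 t)

/-- the limit of geodesics is a line -/
theorem lim_iso (U : Ultrafilter ℕ) (c : ℕ → ℝ → X) (W : ℕ → ℝ)
    (hW : Tendsto W (U : Filter ℕ) atTop) (hc : ∀ n, GeoOn (c n) (-(W n)) (W n)) (l0 : ℝ → X)
    (hl0 : ∀ s, Tendsto (fun n => c n s) (U : Filter ℕ) (𝓝 (l0 s))) : Isometry l0 := by
  refine Isometry.of_dist_eq fun s t => ?_
  have h1 := (hl0 s).dist (hl0 t)
  have h2 : Tendsto (fun n => dist (c n s) (c n t)) (U : Filter ℕ) (𝓝 |s - t|) := by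
    refine tendsto_const_nhds.congr' ?_
    filter_upwards [hW.eventually_ge_atTop (|s| + |t|)] with n hn
    have k1 := abs_nonneg s
    have k2 := abs_nonneg t
    have k3 := neg_abs_le s
    have k4 := neg_abs_le t
    have k5 := le_abs_self s
    have k6 := le_abs_self t
    exact (hc n s t (by linarith) (by linarith) (by linarith) (by linarith)).symm
  rw [tendsto_nhds_unique h1 h2, Real.dist_eq]

theorem key (hX : Cat X) [ProperSpace X] {V : Set X}
    (hfin : ∀ (x : X) (r : ℝ), (V ∩ Metric.closedBall x r).Finite) {L D w : ℝ} (hL : 0 ≤ L)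
    (hD : 0 ≤ D) (hw : 0 ≤ w) (U : Ultrafilter ℕ) (x0 : X) (C : ℝ) (c : ℕ → ℝ → X) (W : ℕ → ℝ)
    (hW : Tendsto W (U : Filter ℕ) atTop) (hc : ∀ n, GeoOn (c n) (-(W n)) (W n))
    (h0 : ∀ n, dist (c n 0) x0 ≤ C) (l0 : ℝ → X)
    (hl0 : ∀ s, Tendsto (fun n => c n s) (U : Filter ℕ) (𝓝 (l0 s))) (e : ℕ → X × X)
    (he : ∀ n, e n ∈ EE V L D (W n) (c n)) :
    ∀ᶠ n in (U : Filter ℕ), ∃ (l : ℝ → X) (μ : ℝ), Good D w l0 (c n) (e n) l μ := by
  have hiso0 := lim_iso U c W hW hc l0 hl0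
  set d : ℕ → ℝ := fun n => dist (e n).1 (e n).2 with hd
  set E : ℕ → ℝ → X := fun n s => pt (e n).1 (e n).2 (1 / 2 + s / d n) with hE
  -- the length
  have hdW : ∀ n, 0 ≤ W n → |2 * W n - d n| ≤ 2 * D := by
    intro n hn
    obtain ⟨_, h1, h2⟩ := he n
    have h3 : dist (c n (-(W n))) (c n (W n)) = 2 * W n := by
      rw [hc n _ _ le_rfl (by linarith) (by linarith) le_rfl]
      rw [show -(W n) - W n = -(2 * W n) by ring, abs_neg, abs_of_nonneg (by linarith)]
    have h4 := dist_triangle4 (c n (-(W n))) (e n).1 (e n).2 (c n (W n))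
    have h5 := dist_triangle4 (e n).1 (c n (-(W n))) (c n (W n)) (e n).2
    rw [dist_comm (c n (-(W n))) (e n).1, h3] at h4
    rw [dist_comm (c n (W n)) (e n).2, h3] at h5
    rw [abs_le]
    constructor
    · linarith
    · linarith
  have hdT : Tendsto d (U : Filter ℕ) atTop := by
    have h1 : Tendsto (fun n => 2 * W n - 2 * D) (U : Filter ℕ) atTop :=
      tendsto_atTop_add_const_right _ _ (hW.const_mul_atTop (by norm_num : (0 : ℝ) < 2))
    refine tendsto_atTop_mono' _ ?_ h1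
    filter_upwards [hW.eventually_ge_atTop 0] with n hn
    have := (abs_le.1 (hdW n hn)).2
    linarith
  -- parameters
  have hpar : ∀ (n : ℕ) (A : ℝ), 0 < d n → 2 * A ≤ d n → ∀ s : ℝ, |s| ≤ A →
      0 ≤ 1 / 2 + s / d n ∧ 1 / 2 + s / d n ≤ 1 := by
    intro n A hn hA s hs
    have h1 := abs_le.1 hs
    have h2 : -(1 / 2) ≤ s / d n := by
      rw [le_div_iff₀ hn]
      linarith
    have h3 : s / d n ≤ 1 / 2 := by
      rw [div_le_iff₀ hn]
      linarith
    constructor <;> linarith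
  have hgeo : ∀ (n : ℕ) (A : ℝ), 0 < d n → 2 * A ≤ d n → ∀ s t : ℝ, |s| ≤ A → |t| ≤ A →
      dist (E n s) (E n t) = |s - t| := by
    intro n A hn hA s t hs ht
    obtain ⟨h1, h2⟩ := hpar n A hn hA s hs
    obtain ⟨h3, h4⟩ := hpar n A hn hA t ht
    simp only [hE]
    rw [pt_geo hX _ _ h1 h2 h3 h4]
    rw [show (1 / 2 + s / d n) - (1 / 2 + t / d n) = (s - t) / d n by ring, abs_div,
      abs_of_pos hn]
    change |s - t| / d n * d n = |s - t|
    field_simp
  have hclose : ∀ (n : ℕ) (A : ℝ), 0 < d n → 2 * A ≤ d n → A ≤ W n → 0 ≤ W n →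
      ∀ s : ℝ, |s| ≤ A → dist (E n s) (c n s) ≤ D + |s| * (2 * D / d n) := by
    intro n A hn hA hAW hWn s hs
    obtain ⟨h1, h2⟩ := hpar n A hn hA s hs
    obtain ⟨_, h3, h4⟩ := he n
    have h5 := conv_le hX h1 h2 h3 h4
    rw [(hc n).pt hX le_rfl (by linarith) (by linarith) le_rfl h1 h2] at h5
    have e1 : (1 - (1 / 2 + s / d n)) * -(W n) + (1 / 2 + s / d n) * W n = 2 * s / d n * W n := by
      ring
    rw [e1] at h5
    have habs := abs_le.1 hs
    have h6 : |2 * s / d n| ≤ 1 := by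
      rw [abs_div, abs_of_pos hn, div_le_one hn, abs_mul]
      rw [show |(2 : ℝ)| = 2 by norm_num]
      linarith
    have h7 : |2 * s / d n * W n| ≤ W n := by
      rw [abs_mul, abs_of_nonneg hWn]
      exact mul_le_of_le_one_left hWn h6
    have h8 := abs_le.1 h7
    have h9 : dist (c n (2 * s / d n * W n)) (c n s) ≤ |s| * (2 * D / d n) := by
      rw [hc n _ _ h8.1 h8.2 (by linarith) (by linarith)]
      have e2 : 2 * s / d n * W n - s = s * ((2 * W n - d n) / d n) := by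
        field_simp
      rw [e2, abs_mul, abs_div, abs_of_pos hn]
      refine mul_le_mul_of_nonneg_left ?_ (abs_nonneg _)
      exact div_le_div_of_nonneg_right (hdW n hWn) hn.le
    have h10 := dist_triangle (E n s) (c n (2 * s / d n * W n)) (c n s)
    have h11 : dist (E n s) (c n (2 * s / d n * W n)) ≤ D := h5
    linarith
  -- eventually
  have hev : ∀ A : ℝ, ∀ᶠ n in (U : Filter ℕ), 1 ≤ d n ∧ 2 * A ≤ d n ∧ A ≤ W n ∧ 0 ≤ W n := by
    intro A
    filter_upwards [hdT.eventually_ge_atTop 1, hdT.eventually_ge_atTop (2 * A),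
      hW.eventually_ge_atTop A, hW.eventually_ge_atTop 0] with n h1 h2 h3 h4
    exact ⟨h1, h2, h3, h4⟩
  have hE3 : ∀ A : ℝ, ∃ C' : ℝ, ∀ᶠ n in (U : Filter ℕ), ∀ s : ℝ, |s| ≤ A →
      dist (E n s) x0 ≤ C' := by
    intro A
    refine ⟨D + A * (2 * D) + A + C, ?_⟩
    filter_upwards [hev A] with n hn s hs
    obtain ⟨k1, k2, k3, k4⟩ := hn
    have hd0 : 0 < d n := by linarith
    have h1 := hclose n A hd0 k2 k3 k4 s hs
    have h2 : dist (c n s) (c n 0) = |s| := by
      have := abs_le.1 hs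
      rw [hc n s 0 (by linarith) (by linarith) (by linarith) (by linarith), sub_zero]
    have h3 := h0 n
    have h4 := dist_triangle4 (E n s) (c n s) (c n 0) x0
    have h5 : 2 * D / d n ≤ 2 * D := by
      rw [div_le_iff₀ hd0]
      nlinarith
    have h6 : |s| * (2 * D / d n) ≤ A * (2 * D) :=
      mul_le_mul hs h5 (by positivity) (by linarith [abs_nonneg s])
    linarith
  have hlim : ∀ s : ℝ, ∃ y, Tendsto (fun n => E n s) (U : Filter ℕ) (𝓝 y) := by
    intro s
    obtain ⟨C', hC'⟩ := hE3 |s|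
    exact ulim U x0 _ C' (by
      filter_upwards [hC'] with n hn
      exact hn s le_rfl)
  choose l hl using hlim
  have hE1 : ∀ A : ℝ, ∀ᶠ n in (U : Filter ℕ), ∀ s t : ℝ, |s| ≤ A → |t| ≤ A →
      dist (E n s) (E n t) = |s - t| := by
    intro A
    filter_upwards [hev A] with n hn
    exact hgeo n A (by linarith [hn.1]) hn.2.1
  have hliso : Isometry l := by
    refine Isometry.of_dist_eq fun s t => ?_
    have h1 := (hl s).dist (hl t)
    have h2 : Tendsto (fun n => dist (E n s) (E n t)) (U : Filter ℕ) (𝓝 |s - t|) := by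
      refine tendsto_const_nhds.congr' ?_
      filter_upwards [hE1 (|s| + |t|)] with n hn
      exact (hn s t (by linarith [abs_nonneg t]) (by linarith [abs_nonneg s])).symm
    rw [tendsto_nhds_unique h1 h2, Real.dist_eq]
  have hD0 : ∀ s, dist (l0 s) (l s) ≤ D := by
    intro s
    rw [dist_comm]
    have h1 := (hl s).dist (hl0 s)
    have h2 : Tendsto (fun n => D + |s| * (2 * D / d n)) (U : Filter ℕ) (𝓝 (D + |s| * 0)) :=
      (((tendsto_const_nhds (x := 2 * D)).div_atTop hdT).const_mul |s|).const_add D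
    rw [mul_zero, add_zero] at h2
    refine le_of_tendsto_of_tendsto h1 h2 ?_
    filter_upwards [hev |s|] with n hn
    exact hclose n |s| (by linarith [hn.1]) hn.2.1 hn.2.2.1 hn.2.2.2 s le_rfl
  obtain ⟨κ, hκ⟩ := strip hX hiso0 hliso hD0
  have hκ1 : dist (l0 0) (l (0 + κ)) ^ 2 + κ ^ 2 ≤ D ^ 2 := by
    have h1 := hκ 0 (-κ)
    simp only [neg_add_cancel, sub_zero, neg_sq] at h1
    rw [← h1]
    exact pow_le_pow_left₀ dist_nonneg (hD0 0) 2
  have hκD : |κ| ≤ D := by
    refine abs_le_of_sq_le_sq ?_ hD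
    nlinarith [sq_nonneg (dist (l0 0) (l (0 + κ)))]
  have hmD : dist (l0 0) (l (0 + κ)) ≤ D := by
    refine le_of_sq_le hD ?_
    nlinarith [sq_nonneg κ]
  -- the vertices
  have hV : ∀ p : ℝ, ∀ᶠ n in (U : Filter ℕ), ∃ s : ℝ, (p ≤ s ∧ s ≤ p + L) ∧ E n s ∈ V := by
    intro p
    filter_upwards [hev (|p| + |p + L|)] with n hn
    have hd0 : 0 < d n := by linarith [hn.1]
    obtain ⟨h1, h2⟩ := hpar n _ hd0 hn.2.1 p (by linarith [abs_nonneg (p + L)])
    obtain ⟨h3, h4⟩ := hpar n _ hd0 hn.2.1 (p + L) (by linarith [abs_nonneg p])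
    obtain ⟨⟨_, _, hch⟩, _, _⟩ := he n
    obtain ⟨t, ht0, ht1, htV⟩ := hch (1 / 2 + p / d n) (1 / 2 + (p + L) / d n) h1
      (by
        have : p / d n ≤ (p + L) / d n := div_le_div_of_nonneg_right (by linarith) hd0.le
        linarith) h4 (by
        change L ≤ (1 / 2 + (p + L) / d n - (1 / 2 + p / d n)) * d n
        have : (1 / 2 + (p + L) / d n - (1 / 2 + p / d n)) * d n = L := by
          field_simp
          ring
        rw [this])
    refine ⟨(t - 1 / 2) * d n, ⟨?_, ?_⟩, ?_⟩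
    · have h5 : p / d n ≤ t - 1 / 2 := by linarith
      rwa [div_le_iff₀ hd0] at h5
    · have h5 : t - 1 / 2 ≤ (p + L) / d n := by linarith
      rwa [le_div_iff₀ hd0] at h5
    · simp only [hE]
      have : 1 / 2 + (t - 1 / 2) * d n / d n = t := by
        field_simp
        ring
      rw [this]
      exact htV
  set w2 : ℝ := w + 2 * D + 1 with hw2
  obtain ⟨α, α', a, hα1, hα2, hα3, hα⟩ := vertex hfin U x0 E l hE1 hl hE3 hV (-w2 - L)
  obtain ⟨β, β', b, hβ1, hβ2, hβ3, hβ⟩ := vertex hfin U x0 E l hE1 hl hE3 hV w2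
  -- the limit lines near the geodesics
  have hnear : ∀ s : ℝ, ∀ᶠ n in (U : Filter ℕ), dist (c n s) (l0 s) ≤ 1 := by
    intro s
    have h1 := tendsto_iff_dist_tendsto_zero.1 (hl0 s)
    exact (h1.eventually (gt_mem_nhds (by norm_num : (0 : ℝ) < 1))).mono fun n hn => hn.le
  filter_upwards [hα, hβ, hev (w2 + L + w + 1), hnear (-(w + 1)), hnear (w + 1)] with n kα kβ kn k1 k2
  obtain ⟨kα1, kα2, kα3⟩ := kα
  obtain ⟨kβ1, kβ2, kβ3⟩ := kβ
  obtain ⟨kn1, kn2, kn3, kn4⟩ := kn
  have hd0 : 0 < d n := by linarith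
  set A : ℝ := w2 + L + w + 1 with hA
  have habs : ∀ s : ℝ, -A ≤ s → s ≤ A → |s| ≤ A := fun s h1 h2 => abs_le.2 ⟨h1, h2⟩
  have hαβ : β n - α n = β' - α' := by
    have h1 : dist a b = β n - α n := by
      rw [← kα3, ← kβ3, hgeo n A hd0 kn2 _ _ (habs _ (by linarith) (by linarith))
        (habs _ (by linarith) (by linarith)), abs_sub_comm, abs_of_nonneg (by linarith)]
    have h2 : dist a b = β' - α' := by
      rw [← hα3, ← hβ3, hliso.dist_eq, Real.dist_eq, abs_sub_comm, abs_of_nonneg (by linarith)]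
    linarith
  set δ : ℝ := α' - α n with hδ
  have hsame : ∀ s : ℝ, α n ≤ s → s ≤ β n → E n s = l (s + δ) := by
    intro s hs1 hs2
    set h : ℝ := β n - α n with hh
    have hh0 : 0 < h := by linarith
    have ht0 : 0 ≤ (s - α n) / h := div_nonneg (by linarith) hh0.le
    have ht1 : (s - α n) / h ≤ 1 := (div_le_one hh0).2 (by linarith)
    have e1 : pt a b ((s - α n) / h) = E n s := by
      have hg : GeoOn (E n) (α n) (β n) := fun s t a1 a2 a3 a4 =>
        hgeo n A hd0 kn2 _ _ (habs _ (by linarith) (by linarith)) (habs _ (by linarith) (by linarith))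
      rw [← kα3, ← kβ3, hg.pt hX le_rfl (by linarith) (by linarith) le_rfl ht0 ht1]
      congr 1
      have : (1 - (s - α n) / h) * α n + (s - α n) / h * β n = α n + (s - α n) / h * h := by
        rw [hh]; ring
      rw [this, div_mul_cancel₀ _ hh0.ne']
      ring
    have e2 : pt a b ((s - α n) / h) = l (s + δ) := by
      have hg : GeoOn l α' β' := geoOn_of_isometry hliso _ _
      rw [← hα3, ← hβ3, hg.pt hX le_rfl (by linarith) (by linarith) le_rfl ht0 ht1]
      congr 1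
      have : (1 - (s - α n) / h) * α' + (s - α n) / h * β' = α' + (s - α n) / h * h := by
        rw [hαβ]; ring
      rw [this, div_mul_cancel₀ _ hh0.ne', hδ]
      ring
    rw [← e1, e2]
  have hnear' : ∀ s : ℝ, -w ≤ s → s ≤ w → dist (c n s) (l0 s) ≤ 1 := by
    intro s hs1 hs2
    have hw0 : 0 < 2 * (w + 1) := by linarith
    have ht0 : 0 ≤ (s + (w + 1)) / (2 * (w + 1)) := div_nonneg (by linarith) hw0.le
    have ht1 : (s + (w + 1)) / (2 * (w + 1)) ≤ 1 := (div_le_one hw0).2 (by linarith)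
    have h1 := conv_le hX ht0 ht1 k1 k2
    rw [(hc n).pt hX (by linarith) (by linarith) (by linarith) (by linarith) ht0 ht1,
      (geoOn_of_isometry hiso0 (-(w + 1)) (w + 1)).pt hX le_rfl (by linarith) (by linarith) le_rfl
        ht0 ht1] at h1
    have e1 : (1 - (s + (w + 1)) / (2 * (w + 1))) * -(w + 1) +
        (s + (w + 1)) / (2 * (w + 1)) * (w + 1) = s := by
      field_simp
      ring
    rwa [e1] at h1
  refine ⟨fun t => l (t + κ), δ - κ - d n / 2, hiso0, iso_shift hliso κ, hκ, ?_, ?_, ?_⟩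
  · intro s hs1 hs2
    have h1 : dist (l0 s) (l (s + κ)) ≤ D := by
      have := sy_same hκ s
      rw [this]
      exact hmD
    have h2 := hnear' s hs1 hs2
    have h3 := dist_triangle (l (s + κ)) (l0 s) (c n s)
    rw [dist_comm (l (s + κ)) (l0 s), dist_comm (l0 s) (c n s)] at h3
    linarith
  · intro t ht0 ht1 ht
    set s : ℝ := (t - 1 / 2) * d n with hs
    have e1 : E n s = pt (e n).1 (e n).2 t := by
      simp only [hE]
      have : 1 / 2 + s / d n = t := by
        rw [hs]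
        field_simp
        ring
      rw [this]
    have hsd : |s| ≤ d n / 2 := by
      rw [hs, abs_mul, abs_of_pos hd0]
      have : |t - 1 / 2| ≤ 1 / 2 := by
        rw [abs_le]
        constructor <;> linarith
      nlinarith
    have h1 : dist (E n s) (E n 0) = |s| := by
      rw [hgeo n (d n / 2) hd0 (by linarith) s 0 hsd (by simp; linarith), sub_zero]
    have h2 : dist (E n 0) (c n 0) ≤ D := by
      have := hclose n A hd0 kn2 kn3 kn4 0 (habs _ (by linarith) (by linarith))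
      simpa using this
    have h3 := dist_triangle (E n s) (c n 0) (E n 0)
    rw [dist_comm (c n 0) (E n 0), h1, e1] at h3
    have h4 : |s| ≤ w + D := by linarith
    have h5 := abs_le.1 h4
    rw [← e1, hsame s (by linarith) (by linarith)]
    change l (s + δ) = l (t * d n + (δ - κ - d n / 2) + κ)
    congr 1
    rw [hs]
    ring
  · intro s hs1 hs2
    have h1 := abs_le.1 hκD
    have e1 : E n (s + κ - δ) = l (s + κ) := by
      rw [hsame (s + κ - δ) (by linarith) (by linarith)]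
      congr 1
      ring
    have h2 : |s + κ - δ| ≤ A := habs _ (by linarith) (by linarith)
    obtain ⟨h3, h4⟩ := hpar n A hd0 kn2 _ h2
    exact ⟨1 / 2 + (s + κ - δ) / d n, h3, h4, e1.symm⟩

/-- translation of the conclusion -/
theorem Good.smul {G : Type v} [Group G] [MulAction G X] [IsIsometricSMul G X] (hX : Cat X)
    {D w : ℝ} {l0 c : ℝ → X} {e : X × X} {l : ℝ → X} {μ : ℝ} (h : Good D w l0 c e l μ) (g : G) :
    Good D w (fun s => g • l0 s) (fun s => g • c s) (g • e.1, g • e.2) (fun s => g • l s) μ := by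
  obtain ⟨h1, h2, h3, h4, h5, h6⟩ := h
  refine ⟨(isometry_smul X g).comp h1, (isometry_smul X g).comp h2, ?_, ?_, ?_, ?_⟩
  · intro s t
    rw [dist_smul, dist_smul]
    exact h3 s t
  · intro s hs1 hs2
    rw [dist_smul]
    exact h4 s hs1 hs2
  · intro t ht0 ht1 ht
    simp only at ht ⊢
    rw [← pt_smul hX g _ _ ht0 ht1, dist_smul] at ht
    rw [← pt_smul hX g _ _ ht0 ht1, dist_smul, h5 t ht0 ht1 ht]
  · intro s hs1 hs2
    obtain ⟨t, ht0, ht1, ht⟩ := h6 s hs1 hs2
    refine ⟨t, ht0, ht1, ?_⟩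
    simp only
    rw [← pt_smul hX g _ _ ht0 ht1, ht]

end L2

theorem t_LIM2 : Stmt_LIM2.{u, v} := by
  intro G X _ _ _ V L hA hL D w hD hw
  have hX := hA.cat
  have := hA.proper
  have := hA.isom
  by_contra hcon
  push Not at hcon
  obtain ⟨K, hK, hKt⟩ := hA.cc
  choose c hc using fun n : ℕ => hcon (w + n) (by linarith [(Nat.cast_nonneg n : (0 : ℝ) ≤ n)])
  set x0 : X := c 0 0 with hx0
  obtain ⟨C, hC⟩ := hK.isBounded.subset_closedBall x0
  choose g hg using fun n : ℕ => hKt (c n 0)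
  set U : Ultrafilter ℕ := Filter.hyperfilter ℕ with hU
  set W : ℕ → ℝ := fun n => w + n with hWdef
  have hW : Filter.Tendsto W (U : Filter ℕ) Filter.atTop := by
    have h1 : Filter.Tendsto W Filter.atTop Filter.atTop :=
      Filter.tendsto_atTop_add_const_left _ _ tendsto_natCast_atTop_atTop
    refine h1.mono_left ?_
    rw [hU, ← Nat.cofinite_eq_atTop]
    exact Filter.hyperfilter_le_cofinite
  set c' : ℕ → ℝ → X := fun n s => g n • c n s with hc'
  have hgeo' : ∀ n, GeoOn (c' n) (-(W n)) (W n) := by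
    intro n s t h1 h2 h3 h4
    simp only [hc', dist_smul]
    exact (hc n).1 s t h1 h2 h3 h4
  have h0' : ∀ n, dist (c' n 0) x0 ≤ C := fun n => Metric.mem_closedBall.1 (hC (hg n))
  have hlim : ∀ s : ℝ, ∃ y, Filter.Tendsto (fun n => c' n s) (U : Filter ℕ) (nhds y) := by
    intro s
    refine L2.ulim U x0 _ (|s| + C) ?_
    filter_upwards [hW.eventually_ge_atTop |s|] with n hn
    have h1 := abs_nonneg s
    have h2 := neg_abs_le s
    have h3 := le_abs_self s
    have h4 := hgeo' n s 0 (by linarith) (by linarith) (by linarith) (by linarith)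
    have h5 := dist_triangle (c' n s) (c' n 0) x0
    rw [h4, sub_zero] at h5
    linarith [h0' n]
  choose l0 hl0 using hlim
  have hex : ∀ n, ∃ e ∈ EE V L D (W n) (c n), ∀ l μ,
      ¬ L2.Good D w (fun s => (g n)⁻¹ • l0 s) (c n) e l μ := by
    intro n
    by_contra hno
    push Not at hno
    have hno' : ∀ e : X × X, ∃ (l : ℝ → X) (μ : ℝ), e ∈ EE V L D (W n) (c n) →
        L2.Good D w (fun s => (g n)⁻¹ • l0 s) (c n) e l μ := by
      intro e
      by_cases he : e ∈ EE V L D (W n) (c n)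
      · obtain ⟨l, μ, h⟩ := hno e he
        exact ⟨l, μ, fun _ => h⟩
      · exact ⟨fun _ => x0, 0, fun h => absurd h he⟩
    choose l μ hlμ using hno'
    obtain ⟨e, he, hne⟩ := (hc n).2 (fun s => (g n)⁻¹ • l0 s) l μ
    obtain ⟨h1, h2, h3, h4, h5, h6⟩ := hlμ e he
    obtain ⟨s, hs1, hs2, hs3⟩ := hne h1 h2 h3 h4 h5
    obtain ⟨t, ht0, ht1, ht⟩ := h6 s hs1 hs2
    exact hs3 t ht0 ht1 ht
  choose e he hne using hex
  set e' : ℕ → X × X := fun n => (g n • (e n).1, g n • (e n).2) with he'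
  have hee' : ∀ n, e' n ∈ EE V L D (W n) (c' n) := by
    intro n
    obtain ⟨⟨k1, k2, k3⟩, k4, k5⟩ := he n
    refine ⟨⟨hA.inv _ _ k1, hA.inv _ _ k2, ?_⟩, ?_, ?_⟩
    · intro t0 t1 a1 a2 a3 a4
      simp only [he', dist_smul] at a4
      obtain ⟨t, b1, b2, b3⟩ := k3 t0 t1 a1 a2 a3 a4
      refine ⟨t, b1, b2, ?_⟩
      simp only [he']
      rw [← pt_smul hX _ _ _ (by linarith) (by linarith)]
      exact hA.inv _ _ b3
    · simp only [he', hc', dist_smul]
      exact k4
    · simp only [he', hc', dist_smul]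
      exact k5
  obtain ⟨n, l, μ, hgood⟩ := (L2.key hX hA.fin hL hD hw U x0 C c' W hW hgeo' h0' l0 hl0 e'
    hee').exists
  have h1 := hgood.smul hX (g n)⁻¹
  apply hne n (fun s => (g n)⁻¹ • l s) μ
  have e1 : (fun s => (g n)⁻¹ • c' n s) = c n := by
    funext s
    simp only [hc', inv_smul_smul]
  have e2 : ((g n)⁻¹ • (e' n).1, (g n)⁻¹ • (e' n).2) = e n := by
    simp only [he', inv_smul_smul]
  rw [e1, e2] at h1
  exact h1

end Pool.Agent.H169C
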