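import Pool.Agent.helper169_cat.Defs

/-!
# POLY1 and POLY2: flat strips off the 1-skeleton
-/

set_option autoImplicit false

universe u v

namespace Pool.Agent.H169C

open Pool.Agent.TH60.FP

namespace PolyP

theorem dist_sq (x y : EuclideanSpace ℝ (Fin 2)) :
    dist x y ^ 2 = (x 0 - y 0) ^ 2 + (x 1 - y 1) ^ 2 := by
  rw [EuclideanSpace.dist_eq, Real.sq_sqrt (Finset.sum_nonneg fun i _ => sq_nonneg _),
    Fin.sum_univ_two, Real.dist_eq, Real.dist_eq, sq_abs, sq_abs]

theorem det_eq {s u0 u1 x0 x1 y0 y1 : ℝ} (hs : 0 < s) (hu : u0 ^ 2 + u1 ^ 2 = s ^ 2)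
    (hx : x0 * u0 + x1 * u1 = 0) (hy : y0 * u0 + y1 * u1 = 0)
    (h : x1 * u0 - x0 * u1 = y1 * u0 - y0 * u1) : x0 = y0 ∧ x1 = y1 := by
  have hs2 : 0 < s ^ 2 := by positivity
  constructor
  · have h1 : x0 * s ^ 2 = y0 * s ^ 2 := by
      have e1 : x0 * s ^ 2 = u0 * (x0 * u0 + x1 * u1) - u1 * (x1 * u0 - x0 * u1) := by
        rw [← hu]; ring
      have e2 : y0 * s ^ 2 = u0 * (y0 * u0 + y1 * u1) - u1 * (y1 * u0 - y0 * u1) := by
        rw [← hu]; ring
      rw [e1, e2, hx, hy, h]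
    exact mul_right_cancel₀ hs2.ne' h1
  · have h1 : x1 * s ^ 2 = y1 * s ^ 2 := by
      have e1 : x1 * s ^ 2 = u1 * (x0 * u0 + x1 * u1) + u0 * (x1 * u0 - x0 * u1) := by
        rw [← hu]; ring
      have e2 : y1 * s ^ 2 = u1 * (y0 * u0 + y1 * u1) + u0 * (y1 * u0 - y0 * u1) := by
        rw [← hu]; ring
      rw [e1, e2, hx, hy, h]
    exact mul_right_cancel₀ hs2.ne' h1

theorem plane {z A q1 q2 q3 : EuclideanSpace ℝ (Fin 2)} {s δ : ℝ} (hs : 0 < s)
    (hA : dist A z = s) (h1 : dist q1 z = δ) (h2 : dist q2 z = δ) (h3 : dist q3 z = δ)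
    (h1' : dist q1 A ^ 2 = δ ^ 2 + s ^ 2) (h2' : dist q2 A ^ 2 = δ ^ 2 + s ^ 2)
    (h3' : dist q3 A ^ 2 = δ ^ 2 + s ^ 2) : q1 = q2 ∨ q1 = q3 ∨ q2 = q3 := by
  have hA2 : (A 0 - z 0) ^ 2 + (A 1 - z 1) ^ 2 = s ^ 2 := by rw [← dist_sq, hA]
  have key : ∀ q : EuclideanSpace ℝ (Fin 2), dist q z = δ → dist q A ^ 2 = δ ^ 2 + s ^ 2 →
      (q 0 - z 0) * (A 0 - z 0) + (q 1 - z 1) * (A 1 - z 1) = 0 ∧
      ((q 1 - z 1) * (A 0 - z 0) - (q 0 - z 0) * (A 1 - z 1)) ^ 2 = δ ^ 2 * s ^ 2 := by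
    intro q hq hq'
    have e1 : (q 0 - z 0) ^ 2 + (q 1 - z 1) ^ 2 = δ ^ 2 := by rw [← dist_sq, hq]
    rw [dist_sq] at hq'
    have e2 : (q 0 - z 0) * (A 0 - z 0) + (q 1 - z 1) * (A 1 - z 1) = 0 := by
      nlinarith
    refine ⟨e2, ?_⟩
    have e3 : ((q 1 - z 1) * (A 0 - z 0) - (q 0 - z 0) * (A 1 - z 1)) ^ 2 =
        ((q 0 - z 0) ^ 2 + (q 1 - z 1) ^ 2) * ((A 0 - z 0) ^ 2 + (A 1 - z 1) ^ 2) -
        ((q 0 - z 0) * (A 0 - z 0) + (q 1 - z 1) * (A 1 - z 1)) ^ 2 := by ring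
    rw [e3, e1, e2, hA2]; ring
  have uniq : ∀ q q' : EuclideanSpace ℝ (Fin 2), dist q z = δ → dist q A ^ 2 = δ ^ 2 + s ^ 2 →
      dist q' z = δ → dist q' A ^ 2 = δ ^ 2 + s ^ 2 →
      (q 1 - z 1) * (A 0 - z 0) - (q 0 - z 0) * (A 1 - z 1) =
      (q' 1 - z 1) * (A 0 - z 0) - (q' 0 - z 0) * (A 1 - z 1) → q = q' := by
    intro q q' hq hq' hr hr' h
    obtain ⟨e0, e1⟩ := det_eq hs hA2 (key q hq hq').1 (key q' hr hr').1 h
    ext i
    fin_cases i
    · simpa using e0
    · simpa using e1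
  have k1 := (key q1 h1 h1').2
  have k2 := (key q2 h2 h2').2
  have k3 := (key q3 h3 h3').2
  rcases sq_eq_sq_iff_eq_or_eq_neg.1 (k1.trans k2.symm) with e | e
  · exact Or.inl (uniq _ _ h1 h1' h2 h2' e)
  rcases sq_eq_sq_iff_eq_or_eq_neg.1 (k1.trans k3.symm) with e' | e'
  · exact Or.inr (Or.inl (uniq _ _ h1 h1' h3 h3' e'))
  · refine Or.inr (Or.inr (uniq _ _ h2 h2' h3 h3' ?_))
    linarith

variable {X : Type u} [MetricSpace X]

/-- vertices and edges -/
def Sig (V : Set X) (E : Set (X × X)) : Set X := {z | z ∈ V ∨ ∃ e ∈ E, z ∈ seg e.1 e.2}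

theorem three {V : Set X} {E : Set (X × X)} {L : ℝ} (hF : Flat2 X V E L) {z : X}
    (hz : z ∉ Sig V E) : ∃ ε : ℝ, 0 < ε ∧ ∀ (δ : ℝ) (A q1 q2 q3 : X), 0 < δ → δ < ε →
      dist A z = δ → dist q1 z = δ → dist q2 z = δ → dist q3 z = δ →
      dist q1 A ^ 2 = δ ^ 2 + δ ^ 2 → dist q2 A ^ 2 = δ ^ 2 + δ ^ 2 →
      dist q3 A ^ 2 = δ ^ 2 + δ ^ 2 → q1 = q2 ∨ q1 = q3 ∨ q2 = q3 := by
  obtain ⟨ε, hε, φ, hφ⟩ := hF.flat z (fun h => hz (Or.inl h)) (fun e he h => hz (Or.inr ⟨e, he, h⟩))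
  refine ⟨ε, hε, fun δ A q1 q2 q3 h0 hδ hA h1 h2 h3 h1' h2' h3' => ?_⟩
  have bz : z ∈ Metric.ball z ε := Metric.mem_ball_self hε
  have bA : A ∈ Metric.ball z ε := by rw [Metric.mem_ball, hA]; exact hδ
  have b1 : q1 ∈ Metric.ball z ε := by rw [Metric.mem_ball, h1]; exact hδ
  have b2 : q2 ∈ Metric.ball z ε := by rw [Metric.mem_ball, h2]; exact hδ
  have b3 : q3 ∈ Metric.ball z ε := by rw [Metric.mem_ball, h3]; exact hδ
  have inj : ∀ p q, p ∈ Metric.ball z ε → q ∈ Metric.ball z ε → φ p = φ q → p = q := by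
    intro p q hp hq h
    have := hφ p hp q hq
    rw [h, dist_self] at this
    exact dist_eq_zero.1 this.symm
  rcases plane (z := φ z) (A := φ A) (q1 := φ q1) (q2 := φ q2) (q3 := φ q3) h0
    (by rw [hφ _ bA _ bz, hA]) (by rw [hφ _ b1 _ bz, h1]) (by rw [hφ _ b2 _ bz, h2])
    (by rw [hφ _ b3 _ bz, h3]) (by rw [hφ _ b1 _ bA, h1']) (by rw [hφ _ b2 _ bA, h2'])
    (by rw [hφ _ b3 _ bA, h3']) with h | h | h
  · exact Or.inl (inj _ _ b1 b2 h)
  · exact Or.inr (Or.inl (inj _ _ b1 b3 h))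
  · exact Or.inr (Or.inr (inj _ _ b2 b3 h))

theorem seg_dist {a b p q : X} (hp : p ∈ seg a b) (hq : q ∈ seg a b) :
    dist p q ≤ dist a b := by
  have h1 : dist a p + dist p b = dist a b := hp
  have h2 : dist a q + dist q b = dist a b := hq
  have h3 := dist_triangle p a q
  have h4 := dist_triangle p b q
  rw [dist_comm p a] at h3
  rw [dist_comm b q] at h4
  linarith

theorem seg_closed (m : ℝ → X) (hm : Isometry m) (a b : X) : IsClosed {s | m s ∈ seg a b} := by
  have hc : Continuous m := hm.continuous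
  exact isClosed_eq ((continuous_const.dist hc).add (hc.dist continuous_const)) continuous_const

/-- Fact 1 -/
theorem vertex {V : Set X} {E : Set (X × X)} {L : ℝ} (hF : Flat2 X V E L) {m : ℝ → X}
    (hm : Isometry m) {s0 s1 : ℝ} (hs : L < s1 - s0) (hs' : s0 ≤ s1)
    (h : ∀ s, s0 ≤ s → s ≤ s1 → m s ∈ Sig V E) : ∃ s, s0 ≤ s ∧ s ≤ s1 ∧ m s ∈ V := by
  by_contra hno
  push Not at hno
  have hE : ∀ s, s0 ≤ s → s ≤ s1 → ∃ e ∈ E, m s ∈ seg e.1 e.2 := fun s h0 h1 =>
    (h s h0 h1).resolve_left (hno s h0 h1)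
  -- finitely many edges
  let R : ℝ := L + (s1 - s0)
  let W : Set X := V ∩ Metric.closedBall (m s0) R
  have hW : W.Finite := hF.fin (m s0) R
  let E' : Set (X × X) := {e | e ∈ E ∧ ∃ s, s0 ≤ s ∧ s ≤ s1 ∧ m s ∈ seg e.1 e.2}
  have hE' : E'.Finite := by
    refine (hW.prod hW).subset ?_
    rintro e ⟨he, s, h0, h1, hsg⟩
    obtain ⟨hv1, hv2, hL⟩ := hF.ends e he
    have hsg' : dist e.1 (m s) + dist (m s) e.2 = dist e.1 e.2 := hsg
    have d1 : dist (m s) (m s0) ≤ s1 - s0 := by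
      rw [hm.dist_eq, Real.dist_eq, abs_of_nonneg (by linarith)]; linarith
    have n1 := dist_nonneg (x := e.1) (y := m s)
    have n2 := dist_nonneg (x := m s) (y := e.2)
    refine ⟨⟨hv1, ?_⟩, ⟨hv2, ?_⟩⟩
    · rw [Metric.mem_closedBall]
      have := dist_triangle e.1 (m s) (m s0)
      change dist e.1 (m s0) ≤ L + (s1 - s0)
      linarith
    · rw [Metric.mem_closedBall]
      have := dist_triangle e.2 (m s) (m s0)
      rw [dist_comm e.2 (m s)] at this
      change dist e.2 (m s0) ≤ L + (s1 - s0)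
      linarith
  obtain ⟨e0, he0, hse0⟩ := hE s0 le_rfl hs'
  have hpre : IsPreconnected (Set.Icc s0 s1) := isPreconnected_Icc
  rw [isPreconnected_closed_iff] at hpre
  have hclB : IsClosed (⋃ e ∈ E' \ {e0}, {s | m s ∈ seg e.1 e.2}) :=
    (hE'.subset Set.sdiff_subset).isClosed_biUnion fun e _ => seg_closed m hm e.1 e.2
  have hcov : Set.Icc s0 s1 ⊆ {s | m s ∈ seg e0.1 e0.2} ∪
      ⋃ e ∈ E' \ {e0}, {s | m s ∈ seg e.1 e.2} := by
    intro s hs
    obtain ⟨e, he, hse⟩ := hE s hs.1 hs.2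
    by_cases hee : e = e0
    · left; rw [← hee]; exact hse
    · right
      simp only [Set.mem_iUnion]
      exact ⟨e, ⟨⟨he, s, hs.1, hs.2, hse⟩, hee⟩, hse⟩
  have hall : ∀ s ∈ Set.Icc s0 s1, m s ∈ seg e0.1 e0.2 := by
    intro s hs
    rcases hcov hs with h1 | h1
    · exact h1
    · exfalso
      obtain ⟨s', hs', h2, h3⟩ := hpre _ _ (seg_closed m hm e0.1 e0.2) hclB hcov
        ⟨s0, ⟨le_rfl, hs'⟩, hse0⟩ ⟨s, hs, h1⟩
      simp only [Set.mem_iUnion] at h3
      obtain ⟨e, ⟨⟨he, _⟩, hee⟩, hse⟩ := h3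
      exact hno s' hs'.1 hs'.2 (hF.meet e0 he0 e he (fun hh => hee hh.symm) ⟨h2, hse⟩)
  have h1 := seg_dist (hall s0 ⟨le_rfl, hs'⟩) (hall s1 ⟨hs', le_rfl⟩)
  rw [hm.dist_eq, Real.dist_eq, abs_of_nonpos (by linarith)] at h1
  have h2 := (hF.ends e0 he0).2.2
  linarith

/-- points of a strip at distance `δ` from a boundary line -/
theorem off (hX : Cat X) {m a : ℝ → X} (hm : Isometry m) (ha : Isometry a) (h : Sy m a) {δ : ℝ}
    (h0 : 0 < δ) (h1 : δ ≤ dist (m 0) (a 0)) (s : ℝ) : ∃ q, dist q (m s) = δ ∧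
      dist q (m (s + δ)) ^ 2 = δ ^ 2 + δ ^ 2 ∧ dist q (a s) = dist (m 0) (a 0) - δ := by
  have hD : 0 < dist (m 0) (a 0) := lt_of_lt_of_le h0 h1
  have ht0 : 0 ≤ δ / dist (m 0) (a 0) := by positivity
  have ht1 : δ / dist (m 0) (a 0) ≤ 1 := (div_le_one hD).2 h1
  have htD : δ / dist (m 0) (a 0) * dist (m 0) (a 0) = δ := by field_simp
  have hsy := mix_sy hX hm ha h ht0 ht1
  have e0 : dist (m 0) (mix m a (δ / dist (m 0) (a 0)) 0) = δ := by
    unfold mix
    rw [dist_left hX _ _ ht0 ht1, htD]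
  refine ⟨mix m a (δ / dist (m 0) (a 0)) s, ?_, ?_, ?_⟩
  · rw [dist_comm, sy_same hsy s, e0]
  · rw [dist_comm, hsy, e0]; ring
  · unfold mix
    rw [dist_right hX _ _ ht0 ht1, sy_same h s, sub_mul, one_mul, htD]

/-- convexity of the distance from a point -/
theorem conv3 (hX : Cat X) (x y w : X) {t1 t t2 : ℝ} (h0 : 0 ≤ t1) (h1 : t1 ≤ t) (h2 : t ≤ t2)
    (h3 : t2 ≤ 1) : (t2 - t1) * dist (pt x y t) w ≤
      (t2 - t) * dist (pt x y t1) w + (t - t1) * dist (pt x y t2) w := by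
  rcases eq_or_lt_of_le (h1.trans h2) with h | h
  · have e1 : t = t1 := by linarith
    have e2 : t2 = t1 := h.symm
    subst e1; subst e2; simp
  · have hd : 0 < t2 - t1 := by linarith
    set l := (t - t1) / (t2 - t1) with hl
    have hl0 : 0 ≤ l := div_nonneg (by linarith) hd.le
    have hl1 : l ≤ 1 := (div_le_one hd).2 (by linarith)
    have hll : l * (t2 - t1) = t - t1 := by rw [hl]; field_simp
    have e := pt_pt hX x y h0 ((h1.trans h2).trans h3) (h0.trans (h1.trans h2)) h3 hl0 hl1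
    have e' : (1 - l) * t1 + l * t2 = t := by nlinarith
    rw [e'] at e
    have h4 := conv hX (pt x y t1) (pt x y t2) w w hl0 hl1
    rw [pt_self hX w hl0 hl1, e] at h4
    have h5 := mul_le_mul_of_nonneg_left h4 hd.le
    have h6 : (t2 - t1) * ((1 - l) * dist (pt x y t1) w + l * dist (pt x y t2) w) =
        ((t2 - t1) - l * (t2 - t1)) * dist (pt x y t1) w +
          (l * (t2 - t1)) * dist (pt x y t2) w := by ring
    rw [h6, hll] at h5
    have h7 : (t2 - t1 - (t - t1)) = t2 - t := by ring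
    rw [h7] at h5
    exact h5

end PolyP

open PolyP

theorem t_POLY2 : Stmt_POLY2.{u} := by
  intro X _ V E L hX hF a b c m ha hb hc hm hma hmb hmc ha0 hb0 hc0 hab hbc hac s
  have hall : ∀ s, m s ∈ Sig V E := by
    intro s
    by_contra hz
    obtain ⟨ε, hε, h3⟩ := three hF hz
    have pa : 0 < dist (m 0) (a 0) := dist_pos.2 (Ne.symm ha0)
    have pb : 0 < dist (m 0) (b 0) := dist_pos.2 (Ne.symm hb0)
    have pc : 0 < dist (m 0) (c 0) := dist_pos.2 (Ne.symm hc0)
    obtain ⟨δ, hδ0, hδε, hδa, hδb, hδc⟩ : ∃ δ : ℝ, 0 < δ ∧ δ < ε ∧ δ ≤ dist (m 0) (a 0) ∧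
        δ ≤ dist (m 0) (b 0) ∧ δ ≤ dist (m 0) (c 0) := by
      refine ⟨min (ε / 2) (min (dist (m 0) (a 0)) (min (dist (m 0) (b 0)) (dist (m 0) (c 0)))),
        ?_, ?_, ?_, ?_, ?_⟩
      · exact lt_min (by linarith) (lt_min pa (lt_min pb pc))
      · exact lt_of_le_of_lt (min_le_left _ _) (by linarith)
      · exact (min_le_right _ _).trans (min_le_left _ _)
      · exact (min_le_right _ _).trans ((min_le_right _ _).trans (min_le_left _ _))
      · exact (min_le_right _ _).trans ((min_le_right _ _).trans (min_le_right _ _))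
    obtain ⟨qa, a1, a2, a3⟩ := off hX hm ha hma hδ0 hδa s
    obtain ⟨qb, b1, b2, b3⟩ := off hX hm hb hmb hδ0 hδb s
    obtain ⟨qc, c1, c2, c3⟩ := off hX hm hc hmc hδ0 hδc s
    have hA : dist (m (s + δ)) (m s) = δ := by
      rw [hm.dist_eq, Real.dist_eq, add_sub_cancel_left, abs_of_pos hδ0]
    have key : ∀ (x y : ℝ → X) (q : X), Isometry x → Isometry y → Sy m x → Sy m y →
        Btw (x 0) (m 0) (y 0) → dist q (x s) = dist (m 0) (x 0) - δ →
        dist q (y s) = dist (m 0) (y 0) - δ → False := by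
      intro x y q hx hy hmx hmy hbt e1 e2
      have hxy := sy_trans hX hm hx hy hmx hmy
      have h1 := sy_same hxy s
      have h2 : dist (x 0) (m 0) + dist (m 0) (y 0) = dist (x 0) (y 0) := hbt
      have h3 := dist_triangle (x s) q (y s)
      rw [dist_comm (x s) q] at h3
      rw [dist_comm (x 0) (m 0)] at h2
      linarith
    rcases h3 δ (m (s + δ)) qa qb qc hδ0 hδε hA a1 b1 c1 a2 b2 c2 with h | h | h
    · subst h; exact key a b qa ha hb hma hmb hab a3 b3
    · subst h; exact key a c qa ha hc hma hmc hac a3 c3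
    · subst h; exact key b c qb hb hc hmb hmc hbc b3 c3
  rcases le_or_gt 0 (L + 1) with hL | hL
  · exact vertex hF hm (by linarith) (by linarith) (fun s _ _ => hall s)
  · exfalso
    have hV : ∀ s, m s ∈ V := by
      intro s
      rcases hall s with h | ⟨e, he, _⟩
      · exact h
      · have h1 := (hF.ends e he).2.2
        have h2 := dist_nonneg (x := e.1) (y := e.2)
        linarith
    have hfin : (m '' Set.Icc 0 1).Finite := by
      refine (hF.fin (m 0) 1).subset ?_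
      rintro _ ⟨s, hs, rfl⟩
      refine ⟨hV s, ?_⟩
      rw [Metric.mem_closedBall, hm.dist_eq, Real.dist_eq, sub_zero, abs_of_nonneg hs.1]
      exact hs.2
    have h2 : (Set.Icc (0 : ℝ) 1).Finite := Set.Finite.of_finite_image hfin hm.injective.injOn
    exact (Set.Icc_infinite (by norm_num : (0 : ℝ) < 1)) h2

namespace PolyP

variable {X : Type u} [MetricSpace X]

/-- the lines of the strip that stay in the graph -/
theorem bad_finite (hX : Cat X) {V : Set X} {E : Set (X × X)} {L : ℝ} (hF : Flat2 X V E L)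
    {a b : ℝ → X} (ha : Isometry a) (hb : Isometry b) (hab : Sy a b)
    (hD : 0 < dist (a 0) (b 0)) :
    {t : ℝ | (0 ≤ t ∧ t ≤ 1) ∧ ∀ s, mix a b t s ∈ Sig V E}.Finite := by
  have hM : L < (|L| + 1) - 0 := by have := le_abs_self L; linarith
  have hM0 : (0 : ℝ) ≤ |L| + 1 := by positivity
  have hex : ∀ t : ℝ, ((0 ≤ t ∧ t ≤ 1) ∧ ∀ s, mix a b t s ∈ Sig V E) →
      ∃ s, 0 ≤ s ∧ s ≤ |L| + 1 ∧ mix a b t s ∈ V := by
    rintro t ⟨⟨h0, h1⟩, h⟩
    exact vertex hF (mix_iso hX ha hb hab h0 h1) hM hM0 (fun s _ _ => h s)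
  choose! σ hσ0 hσ1 hσV using hex
  have hinj : Set.InjOn (fun t => mix a b t (σ t))
      {t : ℝ | (0 ≤ t ∧ t ≤ 1) ∧ ∀ s, mix a b t s ∈ Sig V E} := by
    intro t ht t' ht' heq
    have hm := mix_iso hX ha hb hab ht.1.1 ht.1.2
    have hm' := mix_iso hX ha hb hab ht'.1.1 ht'.1.2
    have hs := sy_trans hX ha hm hm' (mix_sy hX ha hb hab ht.1.1 ht.1.2)
      (mix_sy hX ha hb hab ht'.1.1 ht'.1.2)
    have h1 := hs (σ t) (σ t')
    have heq' : mix a b t (σ t) = mix a b t' (σ t') := heq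
    rw [heq', dist_self] at h1
    have h2 : dist (mix a b t 0) (mix a b t' 0) = |t - t'| * dist (a 0) (b 0) :=
      pt_geo hX _ _ ht.1.1 ht.1.2 ht'.1.1 ht'.1.2
    have h3 : dist (mix a b t 0) (mix a b t' 0) ^ 2 = 0 := by
      nlinarith [sq_nonneg (dist (mix a b t 0) (mix a b t' 0)), sq_nonneg (σ t' - σ t)]
    have h4 : dist (mix a b t 0) (mix a b t' 0) = 0 := pow_eq_zero_iff two_ne_zero |>.1 h3
    rw [h2] at h4
    rcases mul_eq_zero.1 h4 with h5 | h5
    · have := abs_eq_zero.1 h5; linarith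
    · exact absurd h5 hD.ne'
  refine Set.Finite.of_finite_image ?_ hinj
  refine (hF.fin (a 0) (dist (a 0) (b 0) + (|L| + 1))).subset ?_
  rintro _ ⟨t, ht, rfl⟩
  refine ⟨hσV t ht, ?_⟩
  rw [Metric.mem_closedBall]
  have hm := mix_iso hX ha hb hab ht.1.1 ht.1.2
  have h1 := dist_triangle (mix a b t (σ t)) (mix a b t 0) (a 0)
  rw [hm.dist_eq, Real.dist_eq, sub_zero, abs_of_nonneg (hσ0 t ht)] at h1
  have h2 : dist (mix a b t 0) (a 0) ≤ dist (a 0) (b 0) := by
    rw [dist_comm]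
    unfold mix
    rw [dist_left hX _ _ ht.1.1 ht.1.2]
    nlinarith [ht.1.2]
  have h3 := hσ1 t ht
  change dist (mix a b t (σ t)) (a 0) ≤ _
  linarith

/-- one side of the median -/
theorem side (hX : Cat X) {V : Set X} {E : Set (X × X)} {L : ℝ} (hF : Flat2 X V E L)
    {a b c : ℝ → X} (ha : Isometry a) (hb : Isometry b) (hc : Isometry c) (hab : Sy a b)
    (hac : Sy a c) (hD : 0 < dist (a 0) (b 0)) {t0 : ℝ} (h0 : 0 ≤ t0) (h1 : t0 ≤ 1)
    (hmin : ∀ t, 0 ≤ t → t ≤ 1 → dist (mix a b t0 0) (c 0) ≤ dist (mix a b t 0) (c 0)) :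
    dist (b 0) (c 0) = dist (mix a b t0 0) (c 0) + (1 - t0) * dist (a 0) (b 0) := by
  set D := dist (a 0) (b 0) with hDdef
  set g : ℝ → ℝ := fun t => dist (mix a b t 0) (c 0) with hg
  have hgt : ∀ t, g t = dist (pt (a 0) (b 0) t) (c 0) := fun _ => rfl
  have hg1 : g 1 = dist (b 0) (c 0) := by rw [hgt, pt_one hX]
  have hlip : ∀ t t', 0 ≤ t → t ≤ 1 → 0 ≤ t' → t' ≤ 1 → g t' ≤ g t + |t - t'| * D := by
    intro t t' k0 k1 k2 k3
    have h2 := dist_triangle (pt (a 0) (b 0) t') (pt (a 0) (b 0) t) (c 0)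
    rw [dist_comm (pt (a 0) (b 0) t') (pt (a 0) (b 0) t), pt_geo hX _ _ k0 k1 k2 k3] at h2
    rw [hgt, hgt]; linarith
  have hconv : ∀ t1 t t2, 0 ≤ t1 → t1 ≤ t → t ≤ t2 → t2 ≤ 1 →
      (t2 - t1) * g t ≤ (t2 - t) * g t1 + (t - t1) * g t2 := fun t1 t t2 k0 k1 k2 k3 =>
    conv3 hX (a 0) (b 0) (c 0) k0 k1 k2 k3
  -- the main claim
  have claim : ∀ t, t0 < t → t < 1 → (¬ ∀ s, mix a b t s ∈ Sig V E) → g t + (1 - t) * D ≤ g 1 := by
    intro t ht0 ht1 hbad
    push Not at hbad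
    obtain ⟨s, hs⟩ := hbad
    have k0 : 0 ≤ t := h0.trans ht0.le
    have hm := mix_iso hX ha hb hab k0 ht1.le
    have ham := mix_sy hX ha hb hab k0 ht1.le
    have hmc := sy_trans hX ha hm hc ham hac
    have hgpos : 0 < g t := by
      rcases eq_or_lt_of_le (dist_nonneg (x := mix a b t 0) (y := c 0)) with h | h
      · exfalso
        have e1 : dist (mix a b t0 0) (c 0) = 0 :=
          le_antisymm ((hmin t k0 ht1.le).trans h.symm.le) dist_nonneg
        have e2 : mix a b t 0 = mix a b t0 0 :=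
          (dist_eq_zero.1 h.symm).trans (dist_eq_zero.1 e1).symm
        have e3 : dist (mix a b t 0) (mix a b t0 0) = |t - t0| * D :=
          pt_geo hX _ _ k0 ht1.le h0 h1
        rw [e2, dist_self] at e3
        have e4 : 0 < |t - t0| * D := mul_pos (abs_pos.2 (by linarith)) hD
        linarith
      · exact h
    obtain ⟨ε, hε, h3⟩ := three hF hs
    have p1 : 0 < (t - t0) * D := mul_pos (by linarith) hD
    have p2 : 0 < (1 - t) * D := mul_pos (by linarith) hD
    obtain ⟨δ, hδ0, hδε, hδa, hδb, hδc⟩ : ∃ δ : ℝ, 0 < δ ∧ δ < ε ∧ δ ≤ (t - t0) * D ∧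
        δ ≤ (1 - t) * D ∧ δ ≤ g t := by
      refine ⟨min (ε / 2) (min ((t - t0) * D) (min ((1 - t) * D) (g t))), ?_, ?_, ?_, ?_, ?_⟩
      · exact lt_min (by linarith) (lt_min p1 (lt_min p2 hgpos))
      · exact lt_of_le_of_lt (min_le_left _ _) (by linarith)
      · exact (min_le_right _ _).trans (min_le_left _ _)
      · exact (min_le_right _ _).trans ((min_le_right _ _).trans (min_le_left _ _))
      · exact (min_le_right _ _).trans ((min_le_right _ _).trans (min_le_right _ _))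
    set h := δ / D with hh
    have hh0 : 0 < h := by positivity
    have hhD : h * D = δ := by rw [hh]; field_simp
    have r1 : h ≤ t - t0 := by
      by_contra hcon
      push Not at hcon
      have := mul_lt_mul_of_pos_right hcon hD
      linarith
    have r2 : h ≤ 1 - t := by
      by_contra hcon
      push Not at hcon
      have := mul_lt_mul_of_pos_right hcon hD
      linarith
    -- the points in the strip between `a` and `b`
    have pts : ∀ t', 0 ≤ t' → t' ≤ 1 → |t' - t| = h →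
        dist (mix a b t' s) (mix a b t s) = δ ∧
        dist (mix a b t' s) (mix a b t (s + δ)) ^ 2 = δ ^ 2 + δ ^ 2 ∧
        dist (mix a b t' s) (c s) = g t' := by
      intro t' q0 q1 hq
      have hm' := mix_iso hX ha hb hab q0 q1
      have ham' := mix_sy hX ha hb hab q0 q1
      have hsy := sy_trans hX ha hm' hm ham' ham
      have e0 : dist (mix a b t' 0) (mix a b t 0) = δ := by
        have : dist (mix a b t' 0) (mix a b t 0) = |t' - t| * D :=
          pt_geo hX _ _ q0 q1 k0 ht1.le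
        rw [this, hq, hhD]
      refine ⟨?_, ?_, ?_⟩
      · rw [sy_same hsy s, e0]
      · rw [hsy, e0]; ring
      · exact sy_same (sy_trans hX ha hm' hc ham' hac) s
    obtain ⟨u1, u2, u3⟩ := pts (t - h) (by linarith) (by linarith) (by
      rw [show t - h - t = -h by ring, abs_neg, abs_of_pos hh0])
    obtain ⟨w1, w2, w3⟩ := pts (t + h) (by linarith) (by linarith) (by
      rw [show t + h - t = h by ring, abs_of_pos hh0])
    obtain ⟨q, c1, c2, c3⟩ := off hX hm hc hmc hδ0 hδc s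
    have c3' : dist q (c s) = g t - δ := c3
    have hA : dist (mix a b t (s + δ)) (mix a b t s) = δ := by
      rw [hm.dist_eq, Real.dist_eq, add_sub_cancel_left, abs_of_pos hδ0]
    rcases h3 δ (mix a b t (s + δ)) (mix a b (t - h) s) (mix a b (t + h) s) q hδ0 hδε hA
      u1 w1 c1 u2 w2 c2 with hq | hq | hq
    · exfalso
      have e1 : dist (mix a b (t - h) s) (mix a b (t + h) s) =
          |(t - h) - (t + h)| * dist (a s) (b s) :=
        pt_geo hX _ _ (by linarith) (by linarith) (by linarith) (by linarith)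
      rw [hq, dist_self, sy_same hab s] at e1
      have e2 : 0 < |(t - h) - (t + h)| * D := by
        refine mul_pos (abs_pos.2 ?_) hD
        intro h0
        linarith
      linarith
    · -- `q` lies in the direction of `a`
      rw [hq, c3'] at u3
      have e1 := hconv (t - h) t 1 (by linarith) (by linarith) (by linarith) le_rfl
      rw [← u3] at e1
      have e2 : h * (g t + (1 - t) * D) ≤ h * g 1 := by
        have e3 : (t - (t - h)) * g 1 = h * g 1 := by ring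
        rw [e3] at e1
        have e4 : (1 - (t - h)) * g t - (1 - t) * (g t - δ) = h * (g t + (1 - t) * D) := by
          rw [← hhD]; ring
        linarith
      exact le_of_mul_le_mul_left e2 hh0
    · -- `q` lies in the direction of `b`
      exfalso
      rw [hq, c3'] at w3
      have e1 := hconv t0 t (t + h) h0 ht0.le (by linarith) (by linarith)
      rw [← w3] at e1
      have e2 : g t0 ≤ g t := hmin t k0 ht1.le
      have e3 : (t + h - t) * g t0 ≤ (t + h - t) * g t :=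
        mul_le_mul_of_nonneg_left e2 (by linarith)
      have e4 : 0 < (t - t0) * δ := mul_pos (by linarith) hδ0
      nlinarith
  -- the limit
  have hup : g 1 ≤ g t0 + (1 - t0) * D := by
    have := hlip t0 1 h0 h1 zero_le_one le_rfl
    rw [abs_of_nonpos (by linarith)] at this
    linarith
  have hlow : g t0 + (1 - t0) * D ≤ g 1 := by
    rcases eq_or_lt_of_le h1 with he | hlt
    · rw [he]; simp
    · by_contra hcon
      push Not at hcon
      have hη : 0 < (g t0 + (1 - t0) * D - g 1) / D := div_pos (by linarith) hD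
      set η := (g t0 + (1 - t0) * D - g 1) / D with hηdef
      have hηD : η * D = g t0 + (1 - t0) * D - g 1 := by rw [hηdef]; field_simp
      have hfin := bad_finite hX hF ha hb hab hD
      have hinf : (Set.Ioo t0 (min 1 (t0 + η))).Infinite :=
        Set.Ioo_infinite (lt_min hlt (by linarith))
      obtain ⟨t, ht, htb⟩ := hinf.exists_notMem_finite hfin
      have ht1 : t < 1 := lt_of_lt_of_le ht.2 (min_le_left _ _)
      have ht2 : t < t0 + η := lt_of_lt_of_le ht.2 (min_le_right _ _)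
      have e1 := claim t ht.1 ht1 (fun hall => htb ⟨⟨h0.trans ht.1.le, ht1.le⟩, hall⟩)
      have e2 : g t0 ≤ g t := hmin t (h0.trans ht.1.le) ht1.le
      have e3 : (t - t0) * D < η * D := mul_lt_mul_of_pos_right (by linarith) hD
      rw [hηD] at e3
      nlinarith
  rw [← hg1]
  exact le_antisymm hup hlow

end PolyP

open PolyP

theorem t_POLY1 : Stmt_POLY1.{u} := by
  intro X _ V E L hX hF a b c ha hb hc hab hac hbc
  rcases eq_or_lt_of_le (dist_nonneg (x := a 0) (y := b 0)) with hD | hD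
  · refine ⟨a, ha, sy_refl ha, ?_, ?_, ?_⟩
    · unfold Btw; rw [dist_self, zero_add]
    · unfold Btw
      rw [dist_comm (b 0) (a 0), ← hD, zero_add, dist_eq_zero.1 hD.symm]
    · unfold Btw; rw [dist_self, zero_add]
  · -- the minimum
    have hcont : ContinuousOn (fun t : ℝ => dist (mix a b t 0) (c 0)) (Set.Icc 0 1) := by
      have hl : LipschitzOnWith (Real.toNNReal (dist (a 0) (b 0))) (fun t : ℝ => mix a b t 0)
          (Set.Icc 0 1) := by
        refine LipschitzOnWith.of_dist_le_mul ?_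
        intro t ht t' ht'
        have : dist (mix a b t 0) (mix a b t' 0) = |t - t'| * dist (a 0) (b 0) :=
          pt_geo hX _ _ ht.1 ht.2 ht'.1 ht'.2
        rw [this, Real.coe_toNNReal _ dist_nonneg, Real.dist_eq, mul_comm]
      exact continuous_dist.comp_continuousOn (hl.continuousOn.prodMk continuousOn_const)
    obtain ⟨t0, ht0, hmin⟩ := isCompact_Icc.exists_isMinOn
      (Set.nonempty_Icc.2 (zero_le_one : (0 : ℝ) ≤ 1)) hcont
    have hmin' : ∀ t, 0 ≤ t → t ≤ 1 → dist (mix a b t0 0) (c 0) ≤ dist (mix a b t 0) (c 0) :=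
      fun t h0 h1 => hmin ⟨h0, h1⟩
    have s1 := side hX hF ha hb hc hab hac hD ht0.1 ht0.2 hmin'
    have hba := sy_symm hab
    have hswap : ∀ t, 0 ≤ t → t ≤ 1 → mix b a t = mix a b (1 - t) := by
      intro t h0 h1
      funext s
      exact pt_comm hX _ _ h0 h1
    have s2 := side hX hF (a := b) (b := a) (c := c) hb ha hc hba hbc
      (by rw [dist_comm]; exact hD) (t0 := 1 - t0) (by linarith [ht0.2]) (by linarith [ht0.1])
      (by
        intro t h0 h1
        rw [hswap t h0 h1, hswap (1 - t0) (by linarith [ht0.2]) (by linarith [ht0.1]),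
          show 1 - (1 - t0) = t0 by ring]
        exact hmin' _ (by linarith) (by linarith))
    rw [hswap (1 - t0) (by linarith [ht0.2]) (by linarith [ht0.1]),
      show 1 - (1 - t0) = t0 by ring, dist_comm (b 0) (a 0)] at s2
    refine ⟨mix a b t0, mix_iso hX ha hb hab ht0.1 ht0.2, mix_sy hX ha hb hab ht0.1 ht0.2,
      ?_, ?_, ?_⟩
    · unfold Btw mix
      rw [dist_left hX _ _ ht0.1 ht0.2, dist_right hX _ _ ht0.1 ht0.2]; ring
    · unfold Btw
      have e : dist (b 0) (mix a b t0 0) = (1 - t0) * dist (a 0) (b 0) := by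
        rw [dist_comm]; unfold mix; rw [dist_right hX _ _ ht0.1 ht0.2]
      rw [e, s1]; ring
    · unfold Btw
      have e : dist (a 0) (mix a b t0 0) = t0 * dist (a 0) (b 0) := by
        unfold mix; rw [dist_left hX _ _ ht0.1 ht0.2]
      rw [e, s2]; ring

end Pool.Agent.H169C
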