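import Pool.Agent.helper169_cat.Defs

/-!
# The Cayley graph
-/

set_option autoImplicit false

universe u v

namespace Pool.Agent.H169C

variable {G : Type v} [Group G] {S : Finset G} {Γ : SimpleGraph G}

theorem gam_adj (hΓ : Γ = SimpleGraph.fromRel (fun a b : G => a⁻¹ * b ∈ S)) (a b : G) :
    Γ.Adj a b ↔ a ≠ b ∧ (a⁻¹ * b ∈ S ∨ b⁻¹ * a ∈ S) := by
  rw [hΓ, SimpleGraph.fromRel_adj]

/-- left translation -/
def gam_iso (hΓ : Γ = SimpleGraph.fromRel (fun a b : G => a⁻¹ * b ∈ S)) (g : G) : Γ ≃g Γ where
  toEquiv := Equiv.mulLeft g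
  map_rel_iff' := by
    intro a b
    rw [gam_adj hΓ, gam_adj hΓ]
    simp only [Equiv.coe_mulLeft, mul_inv_rev, ne_eq, mul_right_inj]
    rw [show a⁻¹ * g⁻¹ * (g * b) = a⁻¹ * b by group, show b⁻¹ * g⁻¹ * (g * a) = b⁻¹ * a by group]

theorem gam_conn (hS : Subgroup.closure (S : Set G) = ⊤)
    (hΓ : Γ = SimpleGraph.fromRel (fun a b : G => a⁻¹ * b ∈ S)) : Γ.Connected := by
  have h1 : ∀ g : G, Γ.Reachable 1 g := by
    intro g
    have hg : g ∈ Subgroup.closure (S : Set G) := by rw [hS]; trivial
    induction hg using Subgroup.closure_induction_right with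
    | one => exact SimpleGraph.Reachable.refl 1
    | mul_right x hx y hy ih =>
      refine ih.trans ?_
      by_cases h : x = x * y
      · rw [← h]
      · refine SimpleGraph.Adj.reachable ?_
        rw [gam_adj hΓ]
        refine ⟨h, Or.inl ?_⟩
        rw [show x⁻¹ * (x * y) = y by group]
        exact hy
    | mul_inv_cancel x hx y hy ih =>
      refine ih.trans ?_
      by_cases h : x = x * y⁻¹
      · rw [← h]
      · refine SimpleGraph.Adj.reachable ?_
        rw [gam_adj hΓ]
        refine ⟨h, Or.inr ?_⟩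
        rw [show (x * y⁻¹)⁻¹ * x = y by group]
        exact hy
  have : Nonempty G := ⟨1⟩
  exact ⟨fun a b => (h1 a).symm.trans (h1 b)⟩

theorem gam_dist_mul (hS : Subgroup.closure (S : Set G) = ⊤)
    (hΓ : Γ = SimpleGraph.fromRel (fun a b : G => a⁻¹ * b ∈ S)) (g a b : G) :
    Γ.dist (g * a) (g * b) = Γ.dist a b := by
  have hc := gam_conn hS hΓ
  have key : ∀ g a b : G, Γ.dist (g * a) (g * b) ≤ Γ.dist a b := by
    intro g a b
    obtain ⟨p, hp⟩ := hc.exists_walk_length_eq_dist a b
    rw [← hp]
    have := SimpleGraph.dist_le (p.map (gam_iso hΓ g).toHom)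
    rw [SimpleGraph.Walk.length_map] at this
    exact this
  apply le_antisymm (key g a b)
  have := key g⁻¹ (g * a) (g * b)
  rwa [inv_mul_cancel_left, inv_mul_cancel_left] at this

theorem gam_dist_one (hS : Subgroup.closure (S : Set G) = ⊤)
    (hΓ : Γ = SimpleGraph.fromRel (fun a b : G => a⁻¹ * b ∈ S)) (a b : G) :
    Γ.dist a b = Γ.dist 1 (a⁻¹ * b) := by
  have := gam_dist_mul hS hΓ a⁻¹ a b
  rw [inv_mul_cancel] at this
  exact this.symm

/-- a function which changes by at most `K` along edges is Lipschitz -/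
theorem gam_lip {G : Type v} {Γ : SimpleGraph G} {α : Type*} [PseudoMetricSpace α] (hc : Γ.Connected) (f : G → α) (K : ℝ)
    (hK : ∀ a b, Γ.Adj a b → dist (f a) (f b) ≤ K) (a b : G) :
    dist (f a) (f b) ≤ K * Γ.dist a b := by
  obtain ⟨p, hp⟩ := hc.exists_walk_length_eq_dist a b
  rw [← hp]
  clear hp
  induction p with
  | nil => simp
  | cons h p ih =>
    rename_i u v w
    rw [SimpleGraph.Walk.length_cons]
    have h1 := hK _ _ h
    have h2 := dist_triangle (f u) (f v) (f w)
    push_cast
    linarith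

/-- balls are finite -/
theorem gam_ball (hS : Subgroup.closure (S : Set G) = ⊤)
    (hΓ : Γ = SimpleGraph.fromRel (fun a b : G => a⁻¹ * b ∈ S)) (g : G) (n : ℕ) :
    {h | Γ.dist g h ≤ n}.Finite := by
  classical
  have hc := gam_conn hS hΓ
  induction n with
  | zero =>
    refine (Set.finite_singleton g).subset ?_
    intro h hh
    have : Γ.dist g h = 0 := Nat.le_zero.1 hh
    exact ((hc.dist_eq_zero_iff).1 this).symm
  | succ n ih =>
    have hfin : (Set.image2 (fun a b => a * b) {h | Γ.dist g h ≤ n}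
        ((S : Set G) ∪ (S : Set G)⁻¹)).Finite :=
      Set.Finite.image2 _ ih ((S.finite_toSet).union (S.finite_toSet).inv)
    refine (ih.union hfin).subset ?_
    intro h hh
    have hh' : Γ.dist g h ≤ n + 1 := hh
    rcases Nat.lt_or_ge n (Γ.dist g h) with hlt | hge
    · right
      obtain ⟨p, hp⟩ := hc.exists_walk_length_eq_dist h g
      cases p with
      | nil =>
        rw [SimpleGraph.Walk.length_nil] at hp
        rw [SimpleGraph.dist_comm] at hlt
        omega
      | cons hadj p =>
        rename_i k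
        rw [SimpleGraph.Walk.length_cons] at hp
        have h1 : Γ.dist g k ≤ n := by
          have := SimpleGraph.dist_le p
          rw [SimpleGraph.dist_comm] at this
          rw [SimpleGraph.dist_comm (u := h) (v := g)] at hp
          omega
        refine ⟨k, h1, k⁻¹ * h, ?_, by simp⟩
        rcases ((gam_adj hΓ _ _).1 hadj).2 with h2 | h2
        · right
          rw [Set.mem_inv]
          rw [show (k⁻¹ * h)⁻¹ = h⁻¹ * k by group]
          exact h2
        · left
          exact h2
    · left
      exact hge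

theorem gam_countable (hS : Subgroup.closure (S : Set G) = ⊤)
    (hΓ : Γ = SimpleGraph.fromRel (fun a b : G => a⁻¹ * b ∈ S)) : Countable G := by
  have h : (Set.univ : Set G) = ⋃ n : ℕ, {h | Γ.dist 1 h ≤ n} := by
    ext x
    simp only [Set.mem_univ, Set.mem_iUnion, true_iff]
    exact ⟨Γ.dist 1 x, le_refl (Γ.dist 1 x)⟩
  have h2 : (Set.univ : Set G).Countable := by
    rw [h]
    exact Set.countable_iUnion (fun n => (gam_ball hS hΓ 1 n).countable)
  exact Set.countable_univ_iff.1 h2

end Pool.Agent.H169C
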