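import Pool.Agent.helper169_cat.Count
import Pool.Agent.helper169_cat.Gam

/-!
# Assembly
-/

set_option autoImplicit false

universe u v

namespace Pool.Agent.H169C

open Pool.Agent.TH60.FP

variable {X : Type u} [MetricSpace X]

/-- maximal separated subsets -/
theorem net_of_few (P : Set X) (K : ℕ) (hK : ∀ y : Fin (K + 1) → X, (∀ i, y i ∈ P) →
    ∃ i j, i ≠ j ∧ dist (y i) (y j) < 1) :
    ∃ T : Finset X, T.card ≤ K ∧ ∀ p ∈ P, ∃ t ∈ T, dist p t < 1 := by
  classical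
  have hex : ∃ k : ℕ, ∀ y : Fin (k + 1) → X, (∀ i, y i ∈ P) →
    ∃ i j, i ≠ j ∧ dist (y i) (y j) < 1 := ⟨K, hK⟩
  have hle : Nat.find hex ≤ K := Nat.find_min' hex hK
  have hspec := Nat.find_spec hex
  rcases Nat.eq_zero_or_pos (Nat.find hex) with h0 | hpos
  · refine ⟨∅, by simp, ?_⟩
    intro p hp
    rw [h0] at hspec
    obtain ⟨i, j, hij, _⟩ := hspec (fun _ => p) (fun _ => hp)
    exact absurd (Fin.ext (by omega)) hij
  · obtain ⟨k, hk⟩ : ∃ k, Nat.find hex = k + 1 := ⟨Nat.find hex - 1, by omega⟩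
    have hnot := Nat.find_min hex (m := k) (by omega)
    push Not at hnot
    obtain ⟨y, hy, hsep⟩ := hnot
    refine ⟨Finset.univ.image y, ?_, ?_⟩
    · refine Finset.card_image_le.trans ?_
      rw [Finset.card_univ, Fintype.card_fin]
      omega
    intro p hp
    rw [hk] at hspec
    obtain ⟨i, j, hij, hd⟩ := hspec (Fin.cons p y) (fun i => by
      refine Fin.cases ?_ (fun i => ?_) i
      · rw [Fin.cons_zero]; exact hp
      · rw [Fin.cons_succ]; exact hy i)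
    revert hij hd
    refine Fin.cases ?_ (fun i => ?_) i
    · refine Fin.cases ?_ (fun j => ?_) j
      · intro h; exact absurd rfl h
      · intro _ hd
        rw [Fin.cons_zero, Fin.cons_succ] at hd
        exact ⟨y j, Finset.mem_image_of_mem _ (Finset.mem_univ _), hd⟩
    · refine Fin.cases ?_ (fun j => ?_) j
      · intro _ hd
        rw [Fin.cons_zero, Fin.cons_succ, dist_comm] at hd
        exact ⟨y i, Finset.mem_image_of_mem _ (Finset.mem_univ _), hd⟩
      · intro hij hd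
        rw [Fin.cons_succ, Fin.cons_succ] at hd
        have := hsep i j (fun h => hij (by rw [h]))
        exact absurd hd (not_lt.2 this)

theorem ncard_biUnion_le {α β : Type*} (T : Finset α) (f : α → Set β) (M : ℕ)
    (hf : ∀ t ∈ T, (f t).Finite ∧ (f t).ncard ≤ M) :
    (⋃ t ∈ T, f t).Finite ∧ (⋃ t ∈ T, f t).ncard ≤ T.card * M := by
  classical
  induction T using Finset.induction_on with
  | empty => simp
  | insert a T ha ih =>
    have ih' := ih (fun t ht => hf t (Finset.mem_insert_of_mem ht))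
    have ha' := hf a (Finset.mem_insert_self _ _)
    rw [Finset.set_biUnion_insert, Finset.card_insert_of_notMem ha]
    refine ⟨ha'.1.union ih'.1, ?_⟩
    refine (Set.ncard_union_le _ _).trans ?_
    have : (T.card + 1) * M = M + T.card * M := by ring
    rw [this]
    exact Nat.add_le_add ha'.2 ih'.2

/-- the assembly -/
theorem asm (h1 : Stmt_LIM1.{u, v}) (h2 : Stmt_LIM2.{u, v}) (h3 : Stmt_MACH.{v}) (G : Type v)
    [Group G] [MulAction G X] (V : Set X) (L : ℝ) (hA : Act G X V) (hM : Med X)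
    (hB : Bra X V L) (hL0 : 0 ≤ L) (x0 : X) (S : Finset G) (Γ : SimpleGraph G)
    (hS : Subgroup.closure (S : Set G) = ⊤)
    (hΓ : Γ = SimpleGraph.fromRel (fun a b : G => a⁻¹ * b ∈ S)) : Emb G Γ := by
  classical
  have hX := hA.cat
  have := hA.isom
  have hconn := gam_conn hS hΓ
  -- Lipschitz constant
  obtain ⟨Λ, hΛ⟩ : ∃ Λ : ℕ, ∀ s ∈ S, dist (s • x0) x0 ≤ Λ := by
    obtain ⟨b, hb⟩ := (S.image (fun s => dist (s • x0) x0)).bddAbove
    obtain ⟨n, hn⟩ := exists_nat_ge b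
    refine ⟨n, fun s hs => (hb ?_).trans hn⟩
    exact Finset.mem_coe.2 (Finset.mem_image_of_mem _ hs)
  have hmove : ∀ a b : G, dist (a • x0) (b • x0) = dist ((a⁻¹ * b) • x0) x0 := by
    intro a b
    rw [← dist_smul a⁻¹ (a • x0) (b • x0), inv_smul_smul, smul_smul, dist_comm]
  have hadj : ∀ a b : G, Γ.Adj a b → dist (a • x0) (b • x0) ≤ Λ := by
    intro a b hab
    rcases ((gam_adj hΓ a b).1 hab).2 with h | h
    · rw [hmove]; exact hΛ _ h
    · rw [dist_comm, hmove]; exact hΛ _ h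
  have hlip : ∀ a b : G, dist (a • x0) (b • x0) ≤ Λ * Γ.dist a b :=
    gam_lip hconn (fun g : G => g • x0) Λ hadj
  -- the net
  obtain ⟨K, hKc, hK⟩ := hA.cc
  obtain ⟨C0, hC0⟩ := hKc.isBounded.subset_closedBall x0
  have hq : ∀ z : X, ∃ q : G, dist (q • x0) z ≤ C0 := by
    intro z
    obtain ⟨g, hg⟩ := hK z
    refine ⟨g⁻¹, ?_⟩
    rw [← dist_smul g (g⁻¹ • x0) z, smul_inv_smul, dist_comm]
    exact hC0 hg
  choose q hq using hq
  have hQf : {k : G | dist (k • x0) x0 ≤ 2 * C0 + 1}.Finite := hA.disc x0 _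
  set M0 : ℕ := {k : G | dist (k • x0) x0 ≤ 2 * C0 + 1}.ncard with hM0
  have hnear : ∀ y : X, {a : G | dist (a • x0) y ≤ C0 + 1}.Finite ∧
      {a : G | dist (a • x0) y ≤ C0 + 1}.ncard ≤ M0 := by
    intro y
    have hsub : {a : G | dist (a • x0) y ≤ C0 + 1} ⊆
        (fun k => q y * k) '' {k : G | dist (k • x0) x0 ≤ 2 * C0 + 1} := by
      intro a ha
      have ha' : dist (a • x0) y ≤ C0 + 1 := ha
      refine ⟨(q y)⁻¹ * a, ?_, by simp⟩
      change dist (((q y)⁻¹ * a) • x0) x0 ≤ 2 * C0 + 1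
      rw [← hmove]
      have := dist_triangle_right (q y • x0) (a • x0) y
      linarith [hq y]
    refine ⟨(hQf.image _).subset hsub, ?_⟩
    exact (Set.ncard_le_ncard hsub (hQf.image _)).trans (Set.ncard_image_le hQf)
  -- bounded word length of elements moving `x0` by a bounded amount
  have hword : ∀ A : ℝ, ∃ D : ℕ, ∀ g : G, dist (g • x0) x0 ≤ A → Γ.dist 1 g ≤ D := by
    intro A
    obtain ⟨b, hb⟩ := ((hA.disc x0 A).image (fun g => Γ.dist 1 g)).bddAbove
    exact ⟨b, fun g hg => hb ⟨g, hg, rfl⟩⟩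
  refine h3 G S Γ hS hΓ (fun g => ⌊dist x0 (g • x0)⌋₊) Λ ?_ ?_ ?_
  · intro g h hgh
    have e1 : dist (g • x0) (h • x0) ≤ Λ := by
      refine (hlip g h).trans ?_
      have : (Γ.dist g h : ℝ) ≤ 1 := by exact_mod_cast hgh
      nlinarith [(Nat.cast_nonneg Λ : (0 : ℝ) ≤ Λ)]
    have e2 : dist x0 (g • x0) ≤ dist x0 (h • x0) + Λ := by
      have := dist_triangle_right x0 (g • x0) (h • x0)
      linarith
    calc ⌊dist x0 (g • x0)⌋₊ ≤ ⌊dist x0 (h • x0) + Λ⌋₊ := Nat.floor_le_floor e2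
      _ = ⌊dist x0 (h • x0)⌋₊ + Λ := Nat.floor_add_natCast dist_nonneg Λ
  · intro M
    obtain ⟨D, hD⟩ := hword (M + 1)
    refine ⟨D, fun g hg => hD g ?_⟩
    have := Nat.lt_floor_add_one (dist x0 (g • x0))
    have hg' : (⌊dist x0 (g • x0)⌋₊ : ℝ) ≤ M := by exact_mod_cast hg
    rw [dist_comm]
    linarith
  obtain ⟨C1, hC1⟩ := exists_nat_ge (8 * Λ + 4 * L + 9 : ℝ)
  refine ⟨C1 ^ 2 * M0, fun N n => ?_⟩
  set R : ℝ := Λ * n with hR
  have hR0 : 0 ≤ R := by positivity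
  obtain ⟨W', F, hW', hF1, hF2⟩ := count h1 h2 G V L hA hM hB hL0 x0 R hR0 N
  obtain ⟨B, hBW⟩ := exists_nat_ge (W' + R)
  refine ⟨B, fun j ρ g => q (F j ρ (g • x0)), ?_, ?_⟩
  · intro M
    obtain ⟨D, hD⟩ := hword (C0 + W' + M + 1)
    refine ⟨D, fun j ρ g hBρ hρB hM' => ?_⟩
    rw [gam_dist_one hS hΓ]
    apply hD
    rw [← hmove, dist_comm]
    have hρg : (ρ : ℝ) ≤ dist x0 (g • x0) := by
      have h5 : ρ ≤ ⌊dist x0 (g • x0)⌋₊ := by
        have : ρ + B ≤ ⌊dist x0 (g • x0)⌋₊ := hρB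
        omega
      have := Nat.floor_le (dist_nonneg (x := x0) (y := g • x0))
      have h6 : (ρ : ℝ) ≤ ⌊dist x0 (g • x0)⌋₊ := by exact_mod_cast h5
      linarith
    have e1 := hq (F j ρ (g • x0))
    have e2 := hF1 j ρ (g • x0)
    have e3 := ray_dist_end hX x0 (g • x0) (Nat.cast_nonneg ρ) hρg
    have e4 := dist_triangle (q (F j ρ (g • x0)) • x0) (F j ρ (g • x0)) (g • x0)
    have e5 := dist_triangle (F j ρ (g • x0)) (ray x0 (g • x0) ρ) (g • x0)
    have e6 := Nat.lt_floor_add_one (dist x0 (g • x0))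
    have e7 : (⌊dist x0 (g • x0)⌋₊ : ℝ) ≤ ρ + M := by exact_mod_cast hM'
    linarith
  · intro ρ g hBρ hρB
    have hBρ' : (B : ℝ) ≤ ρ := by exact_mod_cast hBρ
    have hρB' : (ρ : ℝ) + B ≤ ⌊dist x0 (g • x0)⌋₊ := by exact_mod_cast hρB
    have hfl := Nat.floor_le (dist_nonneg (x := x0) (y := g • x0))
    obtain ⟨j0, hj0⟩ := hF2 ρ (g • x0) (by linarith) (by linarith)
    refine ⟨j0, fun j hj => ?_⟩
    set K0 : ℕ := grid (2 * (2 * R * N + L + 2)) (2 * (2 * R * N + L + 2)) with hK0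
    obtain ⟨T, hT, hTP⟩ := net_of_few ((fun h : G => F j ρ (h • x0)) '' {h | Γ.dist g h ≤ n}) K0
      (by
        intro y hy
        choose h hh hy using hy
        obtain ⟨i, i', hii, hd⟩ := hj0 j hj (fun i => h i • x0) (fun i => by
          refine (hlip _ _).trans ?_
          have : Γ.dist g (h i) ≤ n := hh i
          rw [SimpleGraph.dist_comm, hR]
          have h9 : (Γ.dist g (h i) : ℝ) ≤ n := by exact_mod_cast this
          exact mul_le_mul_of_nonneg_left h9 (Nat.cast_nonneg _))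
        refine ⟨i, i', hii, ?_⟩
        rw [← hy i, ← hy i']
        exact hd)
    obtain ⟨hUf, hUc⟩ := ncard_biUnion_le T (fun t => {a : G | dist (a • x0) t ≤ C0 + 1}) M0
      (fun t _ => hnear t)
    have hsub : (fun h : G => q (F j ρ (h • x0))) '' {h | Γ.dist g h ≤ n} ⊆
        ⋃ t ∈ T, {a : G | dist (a • x0) t ≤ C0 + 1} := by
      rintro _ ⟨h, hh, rfl⟩
      obtain ⟨t, ht, htd⟩ := hTP _ ⟨h, hh, rfl⟩
      simp only [Set.mem_iUnion]
      refine ⟨t, ht, ?_⟩
      change dist (q (F j ρ (h • x0)) • x0) t ≤ C0 + 1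
      have e1 := hq (F j ρ (h • x0))
      have e2 := dist_triangle (q (F j ρ (h • x0)) • x0) (F j ρ (h • x0)) t
      have e3 : dist (F j ρ (h • x0)) t < 1 := htd
      linarith
    have hcard : ((fun h : G => q (F j ρ (h • x0))) '' {h | Γ.dist g h ≤ n}).ncard ≤ K0 * M0 :=
      (Set.ncard_le_ncard hsub hUf).trans (hUc.trans (Nat.mul_le_mul_right _ hT))
    refine hcard.trans ?_
    -- the size of the grid
    have hside : ⌊2 * (2 * (2 * R * N + L + 2))⌋₊ + 1 ≤ C1 * ((N + 1) * (n + 1)) := by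
      have e0 : 0 ≤ 2 * (2 * (2 * R * N + L + 2)) := by positivity
      have e1 := Nat.floor_le e0
      have hN0 : (0 : ℝ) ≤ N := Nat.cast_nonneg N
      have hn0 : (0 : ℝ) ≤ n := Nat.cast_nonneg n
      have hΛ0 : (0 : ℝ) ≤ Λ := Nat.cast_nonneg Λ
      have e2 : (⌊2 * (2 * (2 * R * N + L + 2))⌋₊ : ℝ) + 1 ≤ C1 * ((N + 1) * (n + 1)) := by
        have e3 : (1 : ℝ) ≤ (N + 1) * (n + 1) := by nlinarith
        have e4 : (n : ℝ) * N ≤ (N + 1) * (n + 1) := by nlinarith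
        have e5 : (8 * Λ + 4 * L + 9 : ℝ) * ((N + 1) * (n + 1)) ≤ C1 * ((N + 1) * (n + 1)) :=
          mul_le_mul_of_nonneg_right hC1 (by positivity)
        have e6 : 8 * (Λ : ℝ) * (n * N) ≤ 8 * Λ * ((N + 1) * (n + 1)) :=
          mul_le_mul_of_nonneg_left e4 (by positivity)
        have e7 : (4 * L + 9) * 1 ≤ (4 * L + 9) * (((N : ℝ) + 1) * (n + 1)) :=
          mul_le_mul_of_nonneg_left e3 (by positivity)
        have e8 : 2 * (2 * (2 * R * N + L + 2)) = 8 * (Λ : ℝ) * (n * N) + 4 * L + 8 := by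
          rw [hR]; ring
        nlinarith
      exact_mod_cast e2
    have hgrid : K0 ≤ (C1 * ((N + 1) * (n + 1))) ^ 2 := by
      rw [hK0, sq]
      unfold grid
      exact Nat.mul_le_mul hside hside
    have hpow : (C1 * ((N + 1) * (n + 1))) ^ 2 ≤ C1 ^ 2 * ((N + 1) * (n + 1)) ^ 4 := by
      rw [mul_pow]
      exact Nat.mul_le_mul_left _ (Nat.pow_le_pow_right (by positivity) (by norm_num))
    calc K0 * M0 ≤ (C1 ^ 2 * ((N + 1) * (n + 1)) ^ 4) * M0 :=
          Nat.mul_le_mul_right _ (hgrid.trans hpow)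
      _ = C1 ^ 2 * M0 * ((N + 1) * (n + 1)) ^ 4 := by ring

end Pool.Agent.H169C
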