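import Pool.Agent.helper169_cat.SDefs

/-!
# Assembly for subexponential parallel sets
-/

set_option autoImplicit false

universe u v

namespace Pool.Agent.H169C

open Pool.Agent.TH60.FP

variable {X : Type u} [MetricSpace X]

/-- the assembly -/
theorem asm2 (h1 : Stmt_UNI.{u, v}) (h2 : Stmt_LIM3.{u, v}) (h3 : Stmt_MACH2.{v}) (G : Type v)
    [Group G] [MulAction G X] (hA : Act G X (∅ : Set X)) (hsub : ∀ l : ℝ → X, Isometry l → SubG l)
    (x0 : X) (S : Finset G) (Γ : SimpleGraph G)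
    (hS : Subgroup.closure (S : Set G) = ⊤)
    (hΓ : Γ = SimpleGraph.fromRel (fun a b : G => a⁻¹ * b ∈ S)) : Emb G Γ := by
  classical
  have hX := hA.cat
  have := hA.isom
  have hconn := gam_conn hS hΓ
  -- Lipschitz constant
  obtain ⟨Λ, hΛ1, hΛ⟩ : ∃ Λ : ℕ, 1 ≤ Λ ∧ ∀ s ∈ S, dist (s • x0) x0 ≤ Λ := by
    obtain ⟨b, hb⟩ := (S.image (fun s => dist (s • x0) x0)).bddAbove
    obtain ⟨n, hn⟩ := exists_nat_ge b
    refine ⟨n + 1, by omega, fun s hs => ?_⟩
    have h5 := (hb (Finset.mem_coe.2 (Finset.mem_image_of_mem _ hs))).trans hn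
    push_cast
    linarith
  have hΛ0 : (1 : ℝ) ≤ Λ := by exact_mod_cast hΛ1
  have hmove : ∀ a b : G, dist (a • x0) (b • x0) = dist ((a⁻¹ * b) • x0) x0 := by
    intro a b
    rw [← dist_smul a⁻¹ (a • x0) (b • x0), inv_smul_smul, smul_smul, dist_comm]
  have hadj : ∀ a b : G, Γ.Adj a b → dist (a • x0) (b • x0) ≤ Λ := by
    intro a b hab
    rcases ((gam_adj hΓ a b).1 hab).2 with h | h
    · rw [hmove]; exact hΛ _ h
    · rw [dist_comm, hmove]; exact hΛ _ h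
  have hlip : ∀ a b : G, dist (a • x0) (b • x0) ≤ Λ * Γ.dist a b :=
    gam_lip hconn (fun g : G => g • x0) Λ hadj
  -- the net
  obtain ⟨K, hKc, hK⟩ := hA.cc
  obtain ⟨C0, hC0⟩ := hKc.isBounded.subset_closedBall x0
  have hq : ∀ z : X, ∃ q : G, dist (q • x0) z ≤ C0 := by
    intro z
    obtain ⟨g, hg⟩ := hK z
    refine ⟨g⁻¹, ?_⟩
    rw [← dist_smul g (g⁻¹ • x0) z, smul_inv_smul, dist_comm]
    exact hC0 hg
  have hC00 : 0 ≤ C0 := by
    obtain ⟨q, hq'⟩ := hq x0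
    exact dist_nonneg.trans hq'
  choose q hq using hq
  have hQf : {k : G | dist (k • x0) x0 ≤ 2 * C0 + 1}.Finite := hA.disc x0 _
  set M0 : ℕ := {k : G | dist (k • x0) x0 ≤ 2 * C0 + 1}.ncard with hM0
  have hM0pos : 0 < M0 := by
    rw [hM0, Set.ncard_pos hQf]
    refine ⟨1, ?_⟩
    change dist ((1 : G) • x0) x0 ≤ 2 * C0 + 1
    rw [one_smul, dist_self]
    linarith
  have hnear : ∀ y : X, {a : G | dist (a • x0) y ≤ C0 + 1}.Finite ∧
      {a : G | dist (a • x0) y ≤ C0 + 1}.ncard ≤ M0 := by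
    intro y
    have hsub : {a : G | dist (a • x0) y ≤ C0 + 1} ⊆
        (fun k => q y * k) '' {k : G | dist (k • x0) x0 ≤ 2 * C0 + 1} := by
      intro a ha
      have ha' : dist (a • x0) y ≤ C0 + 1 := ha
      refine ⟨(q y)⁻¹ * a, ?_, by simp⟩
      change dist (((q y)⁻¹ * a) • x0) x0 ≤ 2 * C0 + 1
      rw [← hmove]
      have := dist_triangle_right (q y • x0) (a • x0) y
      linarith [hq y]
    refine ⟨(hQf.image _).subset hsub, ?_⟩
    exact (Set.ncard_le_ncard hsub (hQf.image _)).trans (Set.ncard_image_le hQf)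
  -- bounded word length of elements moving `x0` by a bounded amount
  have hword : ∀ A : ℝ, ∃ D : ℕ, ∀ g : G, dist (g • x0) x0 ≤ A → Γ.dist 1 g ≤ D := by
    intro A
    obtain ⟨b, hb⟩ := ((hA.disc x0 A).image (fun g => Γ.dist 1 g)).bddAbove
    exact ⟨b, fun g hg => hb ⟨g, hg, rfl⟩⟩
  refine h3 G S Γ hS hΓ (fun g => ⌊dist x0 (g • x0)⌋₊) Λ ?_ ?_ ?_
  · intro g h hgh
    have e1 : dist (g • x0) (h • x0) ≤ Λ := by
      refine (hlip g h).trans ?_
      have : (Γ.dist g h : ℝ) ≤ 1 := by exact_mod_cast hgh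
      nlinarith [(Nat.cast_nonneg Λ : (0 : ℝ) ≤ Λ)]
    have e2 : dist x0 (g • x0) ≤ dist x0 (h • x0) + Λ := by
      have := dist_triangle_right x0 (g • x0) (h • x0)
      linarith
    calc ⌊dist x0 (g • x0)⌋₊ ≤ ⌊dist x0 (h • x0) + Λ⌋₊ := Nat.floor_le_floor e2
      _ = ⌊dist x0 (h • x0)⌋₊ + Λ := Nat.floor_add_natCast dist_nonneg Λ
  · intro M
    obtain ⟨D, hD⟩ := hword (M + 1)
    refine ⟨D, fun g hg => hD g ?_⟩
    have := Nat.lt_floor_add_one (dist x0 (g • x0))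
    have hg' : (⌊dist x0 (g • x0)⌋₊ : ℝ) ≤ M := by exact_mod_cast hg
    rw [dist_comm]
    linarith
  intro ε hε
  obtain ⟨N, hN⟩ := exists_nat_ge (1 / ε)
  have hN' : 1 ≤ ε * N := by
    rw [div_le_iff₀ hε] at hN
    linarith
  obtain ⟨n0, hn0⟩ := exists_nat_ge (2 * Real.log M0 / ε)
  set ε1 : ℝ := ε / (4 * Λ) with hε1
  have hε10 : 0 < ε1 := by positivity
  obtain ⟨R, hRR, hgro⟩ := h1 G X hA hsub ε1 hε10 (Λ * (n0 + 3))
  have hR0 : 0 ≤ R := by
    have : (0 : ℝ) ≤ Λ * (n0 + 3) := by positivity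
    linarith
  have hΛpos : (0 : ℝ) < Λ := by linarith
  set n : ℕ := ⌊R / Λ⌋₊ with hn
  have hn1 : (n : ℝ) ≤ R / Λ := Nat.floor_le (by positivity)
  have hn2 : R / Λ < n + 1 := Nat.lt_floor_add_one _
  have hnR : (Λ : ℝ) * n ≤ R := by
    rw [le_div_iff₀ hΛpos] at hn1
    linarith
  have hnR2 : R < Λ * (n + 1) := by
    rw [div_lt_iff₀ hΛpos] at hn2
    linarith
  have hn3 : (n0 : ℝ) + 2 < n := by
    have h5 : (Λ : ℝ) * (n0 + 3) < Λ * (n + 1) := by linarith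
    have := lt_of_mul_lt_mul_left h5 hΛpos.le
    linarith
  have hn4 : n0 + 2 < n := by exact_mod_cast hn3
  have hexp1 : ε1 * R ≤ ε * n / 2 := by
    have h5 : ε1 * R ≤ ε1 * (Λ * (n + 1)) := mul_le_mul_of_nonneg_left hnR2.le hε10.le
    have h6 : ε1 * (Λ * (n + 1)) = ε * (n + 1) / 4 := by
      rw [hε1]
      field_simp
    have h7 : (1 : ℝ) ≤ n := by
      have : 1 ≤ n := by omega
      exact_mod_cast this
    nlinarith
  have hexp2 : (M0 : ℝ) ≤ Real.exp (ε * n / 2) := by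
    have h5 : Real.log M0 ≤ ε * n / 2 := by
      have h6 : 2 * Real.log M0 / ε ≤ n := by linarith
      rw [div_le_iff₀ hε] at h6
      linarith
    have h7 : (0 : ℝ) < M0 := by exact_mod_cast hM0pos
    calc (M0 : ℝ) = Real.exp (Real.log M0) := (Real.exp_log h7).symm
      _ ≤ _ := Real.exp_le_exp.2 h5
  -- few separated points
  obtain ⟨W, hW0, hW⟩ := h2 G X hA (⌊Real.exp (ε1 * R)⌋₊ + 1) R hR0 (fun l hl A hAl hAs => by
    have h5 := hgro l hl A hAl hAs
    exact Nat.lt_succ_of_le (Nat.le_floor h5))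
  obtain ⟨B, hBW⟩ := exists_nat_ge (W + R)
  refine ⟨N, n, B, fun _ ρ g => q (ray x0 (g • x0) ρ), hN', by omega, ?_, ?_⟩
  · intro M
    obtain ⟨D, hD⟩ := hword (C0 + M + 1)
    refine ⟨D, fun _ ρ g hBρ hρB hM' => ?_⟩
    rw [gam_dist_one hS hΓ]
    apply hD
    rw [← hmove, dist_comm]
    have hρg : (ρ : ℝ) ≤ dist x0 (g • x0) := by
      have h5 : ρ ≤ ⌊dist x0 (g • x0)⌋₊ := by
        have : ρ + B ≤ ⌊dist x0 (g • x0)⌋₊ := hρB
        omega
      have := Nat.floor_le (dist_nonneg (x := x0) (y := g • x0))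
      have h6 : (ρ : ℝ) ≤ ⌊dist x0 (g • x0)⌋₊ := by exact_mod_cast h5
      linarith
    have e1 := hq (ray x0 (g • x0) ρ)
    have e3 := ray_dist_end hX x0 (g • x0) (Nat.cast_nonneg ρ) hρg
    have e4 := dist_triangle (q (ray x0 (g • x0) ρ) • x0) (ray x0 (g • x0) ρ) (g • x0)
    have e6 := Nat.lt_floor_add_one (dist x0 (g • x0))
    have e7 : (⌊dist x0 (g • x0)⌋₊ : ℝ) ≤ ρ + M := by exact_mod_cast hM'
    linarith
  · intro ρ g hBρ hρB
    have hBρ' : (B : ℝ) ≤ ρ := by exact_mod_cast hBρ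
    have hρB' : (ρ : ℝ) + B ≤ ⌊dist x0 (g • x0)⌋₊ := by exact_mod_cast hρB
    have hfl := Nat.floor_le (dist_nonneg (x := x0) (y := g • x0))
    refine ⟨N, fun j _ => ?_⟩
    set K0 : ℕ := ⌊Real.exp (ε1 * R)⌋₊ with hK0
    have hlipn : ∀ h : G, Γ.dist g h ≤ n → dist (h • x0) (g • x0) ≤ R := by
      intro h hh
      rw [dist_comm]
      refine (hlip _ _).trans (le_trans ?_ hnR)
      have h9 : (Γ.dist g h : ℝ) ≤ n := by exact_mod_cast hh
      exact mul_le_mul_of_nonneg_left h9 (Nat.cast_nonneg _)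
    have hfar : ∀ h : G, Γ.dist g h ≤ n → (ρ : ℝ) + W ≤ dist x0 (h • x0) := by
      intro h hh
      have h5 := hlipn h hh
      have h6 := dist_triangle x0 (h • x0) (g • x0)
      linarith
    obtain ⟨T, hT, hTP⟩ := net_of_few
      ((fun h : G => ray x0 (h • x0) ρ) '' {h | Γ.dist g h ≤ n}) K0 (by
        intro y hy
        choose h hh hy using hy
        have hg0 : (ρ : ℝ) + W ≤ dist x0 (g • x0) := hfar g (by
          rw [SimpleGraph.dist_self]; omega)
        obtain ⟨i, i', hii, hd⟩ := hW (cg x0 (g • x0) ρ) (fun i => cg x0 (h i • x0) ρ)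
          (cg_geo hX (by linarith) hg0) (fun i => cg_geo hX (by linarith) (hfar _ (hh i)))
          (fun i s hs hs' => (cg_lip hX (by linarith) (hfar _ (hh i)) hg0 hs hs').trans
            (hlipn _ (hh i)))
        refine ⟨i, i', hii, ?_⟩
        rw [← hy i, ← hy i']
        simp only [cg_zero] at hd
        exact hd)
    obtain ⟨hUf, hUc⟩ := ncard_biUnion_le T (fun t => {a : G | dist (a • x0) t ≤ C0 + 1}) M0
      (fun t _ => hnear t)
    have hsub : (fun h : G => q (ray x0 (h • x0) ρ)) '' {h | Γ.dist g h ≤ n} ⊆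
        ⋃ t ∈ T, {a : G | dist (a • x0) t ≤ C0 + 1} := by
      rintro _ ⟨h, hh, rfl⟩
      obtain ⟨t, ht, htd⟩ := hTP _ ⟨h, hh, rfl⟩
      simp only [Set.mem_iUnion]
      refine ⟨t, ht, ?_⟩
      change dist (q (ray x0 (h • x0) ρ) • x0) t ≤ C0 + 1
      have e1 := hq (ray x0 (h • x0) ρ)
      have e2 := dist_triangle (q (ray x0 (h • x0) ρ) • x0) (ray x0 (h • x0) ρ) t
      have e3 : dist (ray x0 (h • x0) ρ) t < 1 := htd
      linarith
    have hcard : ((fun h : G => q (ray x0 (h • x0) ρ)) '' {h | Γ.dist g h ≤ n}).ncard ≤ K0 * M0 :=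
      (Set.ncard_le_ncard hsub hUf).trans (hUc.trans (Nat.mul_le_mul_right _ hT))
    have hcard' : (((fun h : G => q (ray x0 (h • x0) ρ)) '' {h | Γ.dist g h ≤ n}).ncard : ℝ) ≤
        K0 * M0 := by exact_mod_cast hcard
    refine hcard'.trans ?_
    have e1 : (K0 : ℝ) ≤ Real.exp (ε * n / 2) :=
      (Nat.floor_le (Real.exp_pos _).le).trans (Real.exp_le_exp.2 hexp1)
    calc (K0 : ℝ) * M0 ≤ Real.exp (ε * n / 2) * Real.exp (ε * n / 2) :=
          mul_le_mul e1 hexp2 (Nat.cast_nonneg _) (Real.exp_pos _).le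
      _ = Real.exp (ε * n) := by
          rw [← Real.exp_add]
          congr 1
          ring

end Pool.Agent.H169C
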