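import Pool.Agent.TH60.FP.Strip
import Pool.Agent.TH60.FP.Trans

/-!
# CAT(0) spaces: points of geodesics, convexity of the metric
-/

set_option autoImplicit false

universe u v

namespace Pool.Agent.H169C

open Pool.Agent.TH60.FP

/-- the CAT(0) inequality, together with the points of the geodesics -/
def Cat (X : Type u) [MetricSpace X] : Prop := ∀ x y : X, ∀ t : ℝ, 0 ≤ t → t ≤ 1 →
  ∃ m : X, ∀ z : X, dist z m ^ 2 ≤ (1 - t) * dist z x ^ 2 + t * dist z y ^ 2 -
    t * (1 - t) * dist x y ^ 2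

/-- the point with parameter `t` of the geodesic from `x` to `y` -/
noncomputable def pt {X : Type u} [MetricSpace X] (x y : X) (t : ℝ) : X :=
  @Classical.epsilon X ⟨x⟩ (fun m => ∀ z : X, dist z m ^ 2 ≤ (1 - t) * dist z x ^ 2 +
    t * dist z y ^ 2 - t * (1 - t) * dist x y ^ 2)

variable {X : Type u} [MetricSpace X]

theorem cn_of_cat (hX : Cat X) : CN X := by
  intro p q
  obtain ⟨m, hm⟩ := hX p q (1 / 2) (by norm_num) (by norm_num)
  refine ⟨m, fun x => ?_⟩
  have := hm x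
  linarith

theorem pt_spec (hX : Cat X) (x y : X) {t : ℝ} (h0 : 0 ≤ t) (h1 : t ≤ 1) (z : X) :
    dist z (pt x y t) ^ 2 ≤ (1 - t) * dist z x ^ 2 + t * dist z y ^ 2 -
      t * (1 - t) * dist x y ^ 2 := by
  have := @Classical.epsilon_spec X (fun m => ∀ z : X, dist z m ^ 2 ≤ (1 - t) * dist z x ^ 2 +
    t * dist z y ^ 2 - t * (1 - t) * dist x y ^ 2) (hX x y t h0 h1)
  exact this z

theorem le_of_sq_le {a b : ℝ} (hb : 0 ≤ b) (h : a ^ 2 ≤ b ^ 2) : a ≤ b :=
  le_of_sq_le_sq h hb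
where
  le_of_sq_le_sq {a b : ℝ} (h : a ^ 2 ≤ b ^ 2) (hb : 0 ≤ b) : a ≤ b := by
    by_contra hlt
    push Not at hlt
    nlinarith

theorem dist_left_le (hX : Cat X) (x y : X) {t : ℝ} (h0 : 0 ≤ t) (h1 : t ≤ 1) :
    dist x (pt x y t) ≤ t * dist x y := by
  have h := pt_spec hX x y h0 h1 x
  rw [dist_self] at h
  apply le_of_sq_le (mul_nonneg h0 dist_nonneg)
  nlinarith

theorem dist_right_le (hX : Cat X) (x y : X) {t : ℝ} (h0 : 0 ≤ t) (h1 : t ≤ 1) :
    dist (pt x y t) y ≤ (1 - t) * dist x y := by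
  have h := pt_spec hX x y h0 h1 y
  rw [dist_self, dist_comm y x, dist_comm y (pt x y t)] at h
  apply le_of_sq_le (mul_nonneg (by linarith) dist_nonneg)
  nlinarith

theorem dist_left (hX : Cat X) (x y : X) {t : ℝ} (h0 : 0 ≤ t) (h1 : t ≤ 1) :
    dist x (pt x y t) = t * dist x y := by
  have h := dist_left_le hX x y h0 h1
  have h' := dist_right_le hX x y h0 h1
  have := dist_triangle x (pt x y t) y
  linarith

theorem dist_right (hX : Cat X) (x y : X) {t : ℝ} (h0 : 0 ≤ t) (h1 : t ≤ 1) :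
    dist (pt x y t) y = (1 - t) * dist x y := by
  have h := dist_left_le hX x y h0 h1
  have h' := dist_right_le hX x y h0 h1
  have := dist_triangle x (pt x y t) y
  linarith

theorem pt_unique (hX : Cat X) {x y m : X} {t : ℝ} (h0 : 0 ≤ t) (h1 : t ≤ 1)
    (hm : dist x m ≤ t * dist x y) (hm' : dist m y ≤ (1 - t) * dist x y) : m = pt x y t := by
  have h := pt_spec hX x y h0 h1 m
  have e1 : dist m x ^ 2 ≤ (t * dist x y) ^ 2 := by
    rw [dist_comm]
    exact pow_le_pow_left₀ dist_nonneg hm 2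
  have e2 : dist m y ^ 2 ≤ ((1 - t) * dist x y) ^ 2 := pow_le_pow_left₀ dist_nonneg hm' 2
  have h3 : dist m (pt x y t) ^ 2 ≤ 0 := by
    have f1 : (1 - t) * dist m x ^ 2 ≤ (1 - t) * (t * dist x y) ^ 2 :=
      mul_le_mul_of_nonneg_left e1 (by linarith)
    have f2 : t * dist m y ^ 2 ≤ t * ((1 - t) * dist x y) ^ 2 :=
      mul_le_mul_of_nonneg_left e2 h0
    nlinarith
  have h4 : dist m (pt x y t) = 0 := by
    have := le_antisymm h3 (sq_nonneg _)
    exact pow_eq_zero_iff (two_ne_zero) |>.mp this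
  exact dist_eq_zero.mp h4

theorem pt_zero (hX : Cat X) (x y : X) : pt x y 0 = x := by
  symm
  apply pt_unique hX le_rfl zero_le_one
  · simp
  · simp

theorem pt_one (hX : Cat X) (x y : X) : pt x y 1 = y := by
  symm
  apply pt_unique hX zero_le_one le_rfl
  · simp
  · simp

theorem pt_self (hX : Cat X) (x : X) {t : ℝ} (h0 : 0 ≤ t) (h1 : t ≤ 1) : pt x x t = x := by
  symm
  apply pt_unique hX h0 h1 <;> simp

theorem pt_comm (hX : Cat X) (x y : X) {t : ℝ} (h0 : 0 ≤ t) (h1 : t ≤ 1) :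
    pt x y t = pt y x (1 - t) := by
  apply pt_unique hX (by linarith) (by linarith)
  · rw [dist_comm, dist_right hX x y h0 h1, dist_comm x y]
  · rw [dist_comm, dist_left hX x y h0 h1, dist_comm x y]
    linarith

theorem pt_geo (hX : Cat X) (x y : X) {s t : ℝ} (hs0 : 0 ≤ s) (hs1 : s ≤ 1) (ht0 : 0 ≤ t)
    (ht1 : t ≤ 1) : dist (pt x y s) (pt x y t) = |s - t| * dist x y := by
  have key : ∀ {s t : ℝ}, 0 ≤ s → s ≤ 1 → 0 ≤ t → t ≤ 1 → s ≤ t →
      dist (pt x y s) (pt x y t) = (t - s) * dist x y := by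
    intro s t hs0 hs1 ht0 ht1 hst
    have h := pt_spec hX x y ht0 ht1 (pt x y s)
    rw [dist_comm (pt x y s) x, dist_left hX x y hs0 hs1, dist_right hX x y hs0 hs1] at h
    have hle : dist (pt x y s) (pt x y t) ≤ (t - s) * dist x y := by
      apply le_of_sq_le (mul_nonneg (by linarith) dist_nonneg)
      nlinarith
    have h3 := dist_triangle x (pt x y s) (pt x y t)
    rw [dist_left hX x y hs0 hs1, dist_left hX x y ht0 ht1] at h3
    linarith
  rcases le_total s t with h | h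
  · rw [key hs0 hs1 ht0 ht1 h, abs_of_nonpos (by linarith)]
    ring
  · rw [dist_comm, key ht0 ht1 hs0 hs1 h, abs_of_nonneg (by linarith)]

theorem pt_pt (hX : Cat X) (x y : X) {a b t : ℝ} (ha0 : 0 ≤ a) (ha1 : a ≤ 1) (hb0 : 0 ≤ b)
    (hb1 : b ≤ 1) (ht0 : 0 ≤ t) (ht1 : t ≤ 1) :
    pt (pt x y a) (pt x y b) t = pt x y ((1 - t) * a + t * b) := by
  have hc0 : 0 ≤ (1 - t) * a + t * b := by
    have := mul_nonneg (sub_nonneg.2 ht1) ha0
    have := mul_nonneg ht0 hb0
    linarith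
  have hc1 : (1 - t) * a + t * b ≤ 1 := by nlinarith
  symm
  apply pt_unique hX ht0 ht1
  · rw [pt_geo hX x y ha0 ha1 hc0 hc1, pt_geo hX x y ha0 ha1 hb0 hb1]
    have e : a - ((1 - t) * a + t * b) = t * (a - b) := by ring
    rw [e, abs_mul, abs_of_nonneg ht0, mul_assoc]
  · rw [pt_geo hX x y hc0 hc1 hb0 hb1, pt_geo hX x y ha0 ha1 hb0 hb1]
    have e : (1 - t) * a + t * b - b = (1 - t) * (a - b) := by ring
    rw [e, abs_mul, abs_of_nonneg (by linarith : (0 : ℝ) ≤ 1 - t), mul_assoc]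

/-- convexity, common end point -/
theorem conv_left (hX : Cat X) (x y y' : X) {t : ℝ} (h0 : 0 ≤ t) (h1 : t ≤ 1) :
    dist (pt x y t) (pt x y' t) ≤ t * dist y y' := by
  have h := pt_spec hX x y h0 h1 (pt x y' t)
  have h' := pt_spec hX x y' h0 h1 y
  rw [dist_comm (pt x y' t) x, dist_left hX x y' h0 h1, dist_comm (pt x y' t) y] at h
  rw [dist_comm y x] at h'
  rw [dist_comm (pt x y' t)] at h
  apply le_of_sq_le (mul_nonneg h0 dist_nonneg)
  have f2 : t * dist y (pt x y' t) ^ 2 ≤ t * ((1 - t) * dist x y ^ 2 + t * dist y y' ^ 2 -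
      t * (1 - t) * dist x y' ^ 2) := mul_le_mul_of_nonneg_left h' h0
  nlinarith

theorem conv_right (hX : Cat X) (x x' y : X) {t : ℝ} (h0 : 0 ≤ t) (h1 : t ≤ 1) :
    dist (pt x y t) (pt x' y t) ≤ (1 - t) * dist x x' := by
  rw [pt_comm hX x y h0 h1, pt_comm hX x' y h0 h1]
  exact conv_left hX y x x' (by linarith) (by linarith)

/-- convexity of the metric -/
theorem conv (hX : Cat X) (x y x' y' : X) {t : ℝ} (h0 : 0 ≤ t) (h1 : t ≤ 1) :
    dist (pt x y t) (pt x' y' t) ≤ (1 - t) * dist x x' + t * dist y y' := by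
  have h2 := conv_left hX x y y' h0 h1
  have h3 := conv_right hX x x' y' h0 h1
  have := dist_triangle (pt x y t) (pt x y' t) (pt x' y' t)
  linarith

theorem conv_le (hX : Cat X) {x y x' y' : X} {t r : ℝ} (h0 : 0 ≤ t) (h1 : t ≤ 1)
    (hx : dist x x' ≤ r) (hy : dist y y' ≤ r) : dist (pt x y t) (pt x' y' t) ≤ r := by
  have h := conv hX x y x' y' h0 h1
  have f1 : (1 - t) * dist x x' ≤ (1 - t) * r := mul_le_mul_of_nonneg_left hx (by linarith)
  have f2 : t * dist y y' ≤ t * r := mul_le_mul_of_nonneg_left hy h0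
  linarith

/-- balls are convex -/
theorem ball_conv (hX : Cat X) {x y z : X} {t r : ℝ} (h0 : 0 ≤ t) (h1 : t ≤ 1)
    (hx : dist x z ≤ r) (hy : dist y z ≤ r) : dist (pt x y t) z ≤ r := by
  have := conv_le hX (x' := z) (y' := z) h0 h1 hx hy
  rwa [pt_self hX z h0 h1] at this

theorem pt_smul {G : Type v} [Group G] [MulAction G X] [IsIsometricSMul G X] (hX : Cat X) (g : G)
    (x y : X) {t : ℝ} (h0 : 0 ≤ t) (h1 : t ≤ 1) : g • pt x y t = pt (g • x) (g • y) t := by
  apply pt_unique hX h0 h1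
  · rw [dist_smul, dist_smul, dist_left hX x y h0 h1]
  · rw [dist_smul, dist_smul, dist_right hX x y h0 h1]

/-- `c` is a geodesic on `[a, b]` -/
def GeoOn (c : ℝ → X) (a b : ℝ) : Prop :=
  ∀ s t : ℝ, a ≤ s → s ≤ b → a ≤ t → t ≤ b → dist (c s) (c t) = |s - t|

theorem GeoOn.mono {c : ℝ → X} {a b a' b' : ℝ} (h : GeoOn c a b) (ha : a ≤ a') (hb : b' ≤ b) :
    GeoOn c a' b' := fun s t h1 h2 h3 h4 =>
  h s t (ha.trans h1) (h2.trans hb) (ha.trans h3) (h4.trans hb)

theorem GeoOn.pt {c : ℝ → X} {a b : ℝ} (hX : Cat X) (h : GeoOn c a b) {s s' t : ℝ} (hs : a ≤ s)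
    (hs' : s ≤ b) (hs'' : a ≤ s') (hs''' : s' ≤ b) (h0 : 0 ≤ t) (h1 : t ≤ 1) :
    Pool.Agent.H169C.pt (c s) (c s') t = c ((1 - t) * s + t * s') := by
  have e1 : a ≤ (1 - t) * s + t * s' := by nlinarith
  have e2 : (1 - t) * s + t * s' ≤ b := by nlinarith
  symm
  apply pt_unique hX h0 h1
  · rw [h _ _ hs hs' e1 e2, h _ _ hs hs' hs'' hs''']
    have e : s - ((1 - t) * s + t * s') = t * (s - s') := by ring
    rw [e, abs_mul, abs_of_nonneg h0]
  · rw [h _ _ e1 e2 hs'' hs''', h _ _ hs hs' hs'' hs''']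
    have e : (1 - t) * s + t * s' - s' = (1 - t) * (s - s') := by ring
    rw [e, abs_mul, abs_of_nonneg (by linarith : (0 : ℝ) ≤ 1 - t)]

theorem geoOn_of_isometry {c : ℝ → X} (h : Isometry c) (a b : ℝ) : GeoOn c a b :=
  fun s t _ _ _ _ => by rw [h.dist_eq, Real.dist_eq]

/-- the point at distance `ρ` from `v` on the geodesic from `v` to `y` -/
noncomputable def ray (v y : X) (ρ : ℝ) : X := pt v y (ρ / dist v y)

theorem ray_geo (hX : Cat X) (v y : X) {a b : ℝ} (ha0 : 0 ≤ a) (ha : a ≤ dist v y) (hb0 : 0 ≤ b)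
    (hb : b ≤ dist v y) : dist (ray v y a) (ray v y b) = |a - b| := by
  unfold ray
  rcases eq_or_lt_of_le (dist_nonneg (x := v) (y := y)) with h | h
  · rw [← h] at ha hb
    have e1 : a = 0 := le_antisymm ha ha0
    have e2 : b = 0 := le_antisymm hb hb0
    rw [e1, e2]
    simp
  · rw [pt_geo hX v y (by positivity) ((div_le_one h).2 ha) (by positivity) ((div_le_one h).2 hb)]
    rw [← sub_div, abs_div, abs_of_pos h]
    field_simp

theorem ray_dist (hX : Cat X) (v y : X) {a : ℝ} (ha0 : 0 ≤ a) (ha : a ≤ dist v y) :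
    dist (ray v y a) v = a := by
  unfold ray
  rcases eq_or_lt_of_le (dist_nonneg (x := v) (y := y)) with h | h
  · rw [← h] at ha ⊢
    rw [div_zero, pt_zero hX, dist_self]
    linarith
  · rw [dist_comm, dist_left hX v y (by positivity) ((div_le_one h).2 ha)]
    field_simp

theorem ray_dist_end (hX : Cat X) (v y : X) {a : ℝ} (ha0 : 0 ≤ a) (ha : a ≤ dist v y) :
    dist (ray v y a) y = dist v y - a := by
  unfold ray
  rcases eq_or_lt_of_le (dist_nonneg (x := v) (y := y)) with h | h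
  · rw [← h] at ha ⊢
    rw [div_zero, pt_zero hX, ← h]
    linarith
  · rw [dist_right hX v y (by positivity) ((div_le_one h).2 ha)]
    field_simp

/-- the radial projection to a ball is `1`-Lipschitz -/
theorem ray_lip (hX : Cat X) (v y y' : X) {ρ : ℝ} (h0 : 0 ≤ ρ) (h1 : ρ ≤ dist v y)
    (h2 : ρ ≤ dist v y') : dist (ray v y ρ) (ray v y' ρ) ≤ dist y y' := by
  -- reduce to `dist v y ≤ dist v y'`
  have key : ∀ y y' : X, ρ ≤ dist v y → dist v y ≤ dist v y' →
      dist (ray v y ρ) (ray v y' ρ) ≤ dist y y' := by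
    intro y y' h1 hyy
    rcases eq_or_lt_of_le (dist_nonneg (x := v) (y := y)) with h | h
    · have e1 : ρ = 0 := le_antisymm (by linarith) h0
      unfold ray
      rw [e1]
      simp only [zero_div]
      rw [pt_zero hX, pt_zero hX, dist_self]
      exact dist_nonneg
    have h' : 0 < dist v y' := lt_of_lt_of_le h hyy
    set a := dist v y with ha
    set a' := dist v y' with ha'
    set t := a / a' with ht
    have ht0 : 0 ≤ t := by positivity
    have ht1 : t ≤ 1 := (div_le_one h').2 hyy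
    have hta : t * a' = a := by rw [ht]; field_simp
    set z := pt v y' t with hz
    have hyz : dist y z ≤ dist y y' := by
      have h3 := pt_spec hX v y' ht0 ht1 y
      rw [dist_comm y v, ← ha, ← ha', ← hz] at h3
      apply le_of_sq_le dist_nonneg
      have h4 : t * (1 - t) * a' ^ 2 = (1 - t) * a * a' := by
        rw [← hta]; ring
      rw [h4] at h3
      have h5 : (1 - t) * a ^ 2 ≤ (1 - t) * a * a' := by
        have := mul_le_mul_of_nonneg_left hyy (mul_nonneg (by linarith : (0 : ℝ) ≤ 1 - t) h.le)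
        nlinarith
      have h6 : t * dist y y' ^ 2 ≤ dist y y' ^ 2 := by
        nlinarith [sq_nonneg (dist y y')]
      linarith
    have hs0 : 0 ≤ ρ / a := by positivity
    have hs1 : ρ / a ≤ 1 := (div_le_one h).2 h1
    have e1 : ray v y' ρ = pt v z (ρ / a) := by
      unfold ray
      rw [← ha', hz]
      have := pt_pt hX v y' (a := 0) (b := t) (t := ρ / a) le_rfl zero_le_one ht0 ht1 hs0 hs1
      rw [pt_zero hX] at this
      rw [this]
      congr 1
      rw [ht]
      field_simp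
      ring
    rw [e1]
    unfold ray
    rw [← ha]
    have h3 := conv_left hX v y z hs0 hs1
    have h4 : ρ / a * dist y z ≤ dist y z := by
      nlinarith [dist_nonneg (x := y) (y := z)]
    linarith
  rcases le_total (dist v y) (dist v y') with h | h
  · exact key y y' h1 h
  · rw [dist_comm, dist_comm y y']
    exact key y' y h2 h

end Pool.Agent.H169C
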