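import Pool.Agent.helper169_cat.Tree

/-!
# The target points, case B
-/

set_option autoImplicit false

universe u v

namespace Pool.Agent.H169C

open Pool.Agent.TH60.FP

variable {X : Type u} [MetricSpace X]

/-- the points near `p0` of the geodesics given by the pairs in `I` -/
def ZZ (I : Set (X × X)) (p0 : X) (w : ℝ) : Set X :=
  {p | ∃ e ∈ I, ∃ t : ℝ, 0 ≤ t ∧ t ≤ 1 ∧ dist (pt e.1 e.2 t) p0 ≤ w ∧ p = pt e.1 e.2 t}

/-- the union of the geodesics between points of `ZZ` -/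
def JJ (I : Set (X × X)) (p0 : X) (w : ℝ) : Set X :=
  {z | ∃ a ∈ ZZ I p0 w, ∃ b ∈ ZZ I p0 w, ∃ t : ℝ, 0 ≤ t ∧ t ≤ 1 ∧ z = pt a b t}

/-- the target points: the points of `JJ` on the sphere of radius `ρ` around `v` which are lowest -/
def Tgt (v : X) (ρ : ℝ) (I : Set (X × X)) (p0 : X) (w : ℝ) (z : X) : Prop :=
  z ∈ JJ I p0 w ∧ dist z v = ρ ∧ ∀ z' ∈ JJ I p0 w, dist z' v = ρ → ∀ e ∈ I, ∀ t1 t2 : ℝ,
    0 ≤ t1 → t1 < t2 → t2 ≤ 1 → dist (pt e.1 e.2 t1) p0 ≤ w → dist (pt e.1 e.2 t2) p0 ≤ w →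
    dist z (pt e.1 e.2 t1) ^ 2 - dist z (pt e.1 e.2 t2) ^ 2 ≤
      dist z' (pt e.1 e.2 t1) ^ 2 - dist z' (pt e.1 e.2 t2) ^ 2

/-! ## Compactness -/

theorem pt_cont (hX : Cat X) {a b a' b' : X} {t t' : ℝ} (h0 : 0 ≤ t) (h1 : t ≤ 1) (h0' : 0 ≤ t')
    (h1' : t' ≤ 1) : dist (pt a b t) (pt a' b' t') ≤
      dist a a' + dist b b' + |t - t'| * dist a' b' := by
  have k1 := conv hX a b a' b' h0 h1
  have k2 := pt_geo hX a' b' h0 h1 h0' h1'
  have k3 := dist_triangle (pt a b t) (pt a' b' t) (pt a' b' t')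
  have k4 : (1 - t) * dist a a' ≤ dist a a' :=
    mul_le_of_le_one_left dist_nonneg (by linarith)
  have k5 : t * dist b b' ≤ dist b b' := mul_le_of_le_one_left dist_nonneg h1
  linarith

theorem pt_continuousOn (hX : Cat X) :
    ContinuousOn (fun x : (X × X) × ℝ => pt x.1.1 x.1.2 x.2)
      (Set.univ ×ˢ Set.Icc (0 : ℝ) 1) := by
  rw [continuousOn_iff_continuous_domRestrict]
  rw [continuous_iff_continuousAt]
  rintro ⟨⟨⟨a, b⟩, t⟩, ht⟩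
  simp only [Set.mem_prod, Set.mem_univ, true_and, Set.mem_Icc] at ht
  rw [ContinuousAt, tendsto_iff_dist_tendsto_zero]
  have hcont : Filter.Tendsto (fun y : (Set.univ ×ˢ Set.Icc (0 : ℝ) 1 : Set ((X × X) × ℝ)) =>
      dist y.1.1.1 a + dist y.1.1.2 b + |y.1.2 - t| * dist a b)
      (nhds ⟨((a, b), t), ⟨Set.mem_univ _, ht⟩⟩) (nhds 0) := by
    have h : Continuous (fun y : (Set.univ ×ˢ Set.Icc (0 : ℝ) 1 : Set ((X × X) × ℝ)) =>
      dist y.1.1.1 a + dist y.1.1.2 b + |y.1.2 - t| * dist a b) := by fun_prop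
    have h2 := h.tendsto ⟨((a, b), t), ⟨Set.mem_univ _, ht⟩⟩
    simpa using h2
  refine squeeze_zero (fun _ => dist_nonneg) (fun y => ?_) hcont
  obtain ⟨⟨⟨a', b'⟩, t'⟩, ht'⟩ := y
  simp only [Set.mem_prod, Set.mem_univ, true_and, Set.mem_Icc] at ht'
  exact pt_cont hX ht'.1 ht'.2 ht.1 ht.2

theorem ZZ_compact (hX : Cat X) {I : Set (X × X)} (hI : I.Finite) (p0 : X) (w : ℝ) :
    IsCompact (ZZ I p0 w) := by
  have e : ZZ I p0 w = ⋃ e ∈ I, ((fun t : ℝ => pt e.1 e.2 t) '' Set.Icc (0 : ℝ) 1) ∩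
      Metric.closedBall p0 w := by
    ext p
    simp only [ZZ, Set.mem_ofPred_eq, Set.mem_iUnion, Set.mem_inter_iff, Set.mem_image,
      Set.mem_Icc, Metric.mem_closedBall]
    constructor
    · rintro ⟨e, he, t, h0, h1, hd, rfl⟩
      exact ⟨e, he, ⟨t, ⟨h0, h1⟩, rfl⟩, hd⟩
    · rintro ⟨e, he, ⟨t, ⟨h0, h1⟩, rfl⟩, hd⟩
      exact ⟨e, he, t, h0, h1, hd, rfl⟩
  rw [e]
  refine hI.isCompact_biUnion fun e _ => IsCompact.inter_right ?_ Metric.isClosed_closedBall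
  refine isCompact_Icc.image_of_continuousOn ?_
  have h := pt_continuousOn hX
  have h2 : ContinuousOn (fun t : ℝ => (((e.1, e.2) : X × X), t)) (Set.Icc (0 : ℝ) 1) := by
    fun_prop
  have h3 := h.comp h2 (fun t ht => ⟨Set.mem_univ _, ht⟩)
  exact h3

theorem JJ_compact (hX : Cat X) {I : Set (X × X)} (hI : I.Finite) (p0 : X) (w : ℝ) :
    IsCompact (JJ I p0 w) := by
  have hZ := ZZ_compact hX hI p0 w
  have e : JJ I p0 w = (fun x : (X × X) × ℝ => pt x.1.1 x.1.2 x.2) ''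
      ((ZZ I p0 w ×ˢ ZZ I p0 w) ×ˢ Set.Icc (0 : ℝ) 1) := by
    ext z
    simp only [JJ, Set.mem_ofPred_eq, Set.mem_image, Set.mem_prod, Set.mem_Icc, Prod.exists]
    constructor
    · rintro ⟨a, ha, b, hb, t, h0, h1, rfl⟩
      exact ⟨a, b, t, ⟨⟨ha, hb⟩, h0, h1⟩, rfl⟩
    · rintro ⟨a, b, t, ⟨⟨ha, hb⟩, h0, h1⟩, rfl⟩
      exact ⟨a, ha, b, hb, t, h0, h1, rfl⟩
  rw [e]
  refine IsCompact.image_of_continuousOn ((hZ.prod hZ).prod isCompact_Icc) ?_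
  exact (pt_continuousOn hX).mono fun x hx => ⟨Set.mem_univ _, hx.2⟩

/-! ## Coordinates -/

/-- the output of LIM2 for a set `I` of pairs -/
structure Coo (I : Set (X × X)) (l0 : ℝ → X) (l : X × X → ℝ → X) (μ : X × X → ℝ) (c : ℝ → X)
    (D w1 : ℝ) : Prop where
  fin : I.Finite
  ne : I.Nonempty
  iso0 : Isometry l0
  iso : ∀ e ∈ I, Isometry (l e)
  sy : ∀ e ∈ I, Sy l0 (l e)
  near : ∀ e ∈ I, ∀ s : ℝ, -w1 ≤ s → s ≤ w1 → dist (l e s) (c s) ≤ D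
  tox : ∀ e ∈ I, ∀ t : ℝ, 0 ≤ t → t ≤ 1 → dist (pt e.1 e.2 t) (c 0) ≤ w1 →
      pt e.1 e.2 t = l e (t * dist e.1 e.2 + μ e)
  frx : ∀ e ∈ I, ∀ s : ℝ, -w1 ≤ s → s ≤ w1 → ∃ t : ℝ, 0 ≤ t ∧ t ≤ 1 ∧ l e s = pt e.1 e.2 t

/-- the points of the cross section -/
def TT (I : Set (X × X)) (l : X × X → ℝ → X) : Set X := {p | ∃ e ∈ I, p = l e 0}

section
variable {I : Set (X × X)} {l0 : ℝ → X} {l : X × X → ℝ → X} {μ : X × X → ℝ} {c : ℝ → X}
  {D w w1 R : ℝ} {v p0 : X} {ρ : ℝ}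

theorem Coo.mono (h : Coo I l0 l μ c D w1) {I' : Set (X × X)} (hI : I' ⊆ I)
    (hne : I'.Nonempty) : Coo I' l0 l μ c D w1 where
  fin := h.fin.subset hI
  ne := hne
  iso0 := h.iso0
  iso := fun e he => h.iso e (hI he)
  sy := fun e he => h.sy e (hI he)
  near := fun e he => h.near e (hI he)
  tox := fun e he => h.tox e (hI he)
  frx := fun e he => h.frx e (hI he)

theorem Coo.sub (h : Coo I l0 l μ c D w1) : TT I l ⊆ Cs l0 := by
  rintro p ⟨e, he, rfl⟩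
  exact mem_Cs (h.iso e he) (h.sy e he)

theorem Coo.Ln (hX : Cat X) (h : Coo I l0 l μ c D w1) {e : X × X} (he : e ∈ I) :
    Pool.Agent.H169C.Ln l0 (l e 0) = l e :=
  Ln_eq hX h.iso0 (h.iso e he) (h.sy e he)

theorem Coo.near_hull (hX : Cat X) (h : Coo I l0 l μ c D w1) {p : X} (hp : p ∈ hull (TT I l)) :
    Near l0 c D w1 p := by
  obtain ⟨a, ha, b, hb, hab⟩ := hp
  have na : ∀ a ∈ TT I l, Near l0 c D w1 a := by
    rintro a ⟨e, he, rfl⟩ s h1 h2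
    rw [h.Ln hX he]
    exact h.near e he s h1 h2
  exact near_conv hX h.iso0 (h.sub ha) (h.sub hb) (na a ha) (na b hb) hab

/-- points of `ZZ` in coordinates -/
theorem Coo.zz (h : Coo I l0 l μ c D w1) (hD : 0 ≤ D) (hR : dist p0 (c 0) ≤ R)
    (hw1 : w + R + D ≤ w1) (hw0 : 0 ≤ w) {a : X} (ha : a ∈ ZZ I p0 w) :
    ∃ e ∈ I, ∃ s, |s| ≤ w + R + D ∧ a = l e s := by
  obtain ⟨e, he, t, t0, t1, hd, rfl⟩ := ha
  have hR0 : 0 ≤ R := dist_nonneg.trans hR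
  have h2 : dist (pt e.1 e.2 t) (c 0) ≤ w + R := by
    have := dist_triangle (pt e.1 e.2 t) p0 (c 0)
    linarith
  have h3 := h.tox e he t t0 t1 (by linarith)
  refine ⟨e, he, _, ?_, h3⟩
  have h4 := h.near e he 0 (by linarith) (by linarith)
  have h5 : dist (l e (t * dist e.1 e.2 + μ e)) (l e 0) ≤ w + R + D := by
    rw [← h3]
    have := dist_triangle (pt e.1 e.2 t) (c 0) (l e 0)
    rw [dist_comm (c 0)] at this
    linarith
  rw [(h.iso e he).dist_eq, Real.dist_eq, sub_zero] at h5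
  exact h5

/-- points of `JJ` in coordinates -/
theorem Coo.jj (hX : Cat X) (h : Coo I l0 l μ c D w1) (hD : 0 ≤ D) (hR : dist p0 (c 0) ≤ R)
    (hw1 : w + R + D ≤ w1) (hw0 : 0 ≤ w) {z : X} (hz : z ∈ JJ I p0 w) :
    ∃ p ∈ hull (TT I l), ∃ s, |s| ≤ w + R + D ∧ z = Pool.Agent.H169C.Ln l0 p s := by
  obtain ⟨a, ha, b, hb, t, t0, t1, rfl⟩ := hz
  obtain ⟨e, he, s, hs, rfl⟩ := h.zz hD hR hw1 hw0 ha
  obtain ⟨e', he', s', hs', rfl⟩ := h.zz hD hR hw1 hw0 hb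
  have hp : l e 0 ∈ Cs l0 := h.sub ⟨e, he, rfl⟩
  have hq : l e' 0 ∈ Cs l0 := h.sub ⟨e', he', rfl⟩
  have k := (Cs_conv hX h.iso0 hp hq t0 t1).2 s s'
  rw [h.Ln hX he, h.Ln hX he'] at k
  refine ⟨pt (l e 0) (l e' 0) t, ⟨_, ⟨e, he, rfl⟩, _, ⟨e', he', rfl⟩, btw_pt hX _ _ t0 t1⟩, _, ?_, k⟩
  rw [abs_le] at hs hs' ⊢
  constructor <;> nlinarith

/-- the points of the hull give points of `JJ` -/
theorem Coo.jj' (hX : Cat X) (h : Coo I l0 l μ c D w1) (hR : dist p0 (c 0) ≤ R)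
    (hcg : ∀ s, -w1 ≤ s → s ≤ w1 → dist (c s) (c 0) = |s|) (hw1 : D ≤ w1)
    (hw : D + D + R ≤ w) {p : X} (hp : p ∈ hull (TT I l)) {s : ℝ} (hs : |s| ≤ D) :
    Pool.Agent.H169C.Ln l0 p s ∈ JJ I p0 w := by
  obtain ⟨a, ⟨e, he, rfl⟩, b, ⟨e', he', rfl⟩, hab⟩ := hp
  obtain ⟨t, t0, t1, rfl⟩ := exists_pt hX hab
  have hp : l e 0 ∈ Cs l0 := h.sub ⟨e, he, rfl⟩
  have hq : l e' 0 ∈ Cs l0 := h.sub ⟨e', he', rfl⟩
  have k := (Cs_conv hX h.iso0 hp hq t0 t1).2 s s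
  rw [h.Ln hX he, h.Ln hX he'] at k
  have e2 : (1 - t) * s + t * s = s := by ring
  rw [e2] at k
  have hs1 := (abs_le.1 hs).1
  have hs2 := (abs_le.1 hs).2
  have key : ∀ e ∈ I, l e s ∈ ZZ I p0 w := by
    intro e he
    obtain ⟨t', t0', t1', ht'⟩ := h.frx e he s (by linarith) (by linarith)
    refine ⟨e, he, t', t0', t1', ?_, ht'⟩
    rw [← ht']
    have k1 := h.near e he s (by linarith) (by linarith)
    have k2 := hcg s (by linarith) (by linarith)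
    have k3 := dist_triangle4 (l e s) (c s) (c 0) p0
    rw [dist_comm (c 0) p0] at k3
    linarith
  exact ⟨_, key e he, _, key e' he', t, t0, t1, k.symm⟩

/-- the function comparing levels -/
theorem Coo.G (hX : Cat X) (h : Coo I l0 l μ c D w1) {p : X} (hp : p ∈ hull (TT I l)) {e : X × X}
    (he : e ∈ I) (s a b : ℝ) : dist (Pool.Agent.H169C.Ln l0 p s) (l e a) ^ 2 -
      dist (Pool.Agent.H169C.Ln l0 p s) (l e b) ^ 2 = (a ^ 2 - b ^ 2) + 2 * (b - a) * s := by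
  have hp' := hull_sub hX h.iso0 h.sub hp
  have hq : l e 0 ∈ Cs l0 := h.sub ⟨e, he, rfl⟩
  have k1 := Ln_dist hX h.iso0 hp' hq s a
  have k2 := Ln_dist hX h.iso0 hp' hq s b
  rw [h.Ln hX he] at k1 k2
  rw [k1, k2]
  ring

/-- constants -/
structure Con (c : ℝ → X) (D w w1 R : ℝ) : Prop where
  D0 : 0 ≤ D
  D1 : D + 1 ≤ w1
  hw : D + D + R + 1 ≤ w
  hw1 : w + R + D ≤ w1
  R0 : 0 ≤ R
  hcg : ∀ s, -w1 ≤ s → s ≤ w1 → dist (c s) (c 0) = |s|

theorem Coo.tgt_of_min (hX : Cat X) (h : Coo I l0 l μ c D w1) (hC : Con c D w w1 R)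
    (hL : Lev v ρ c D w1) (hR : dist p0 (c 0) ≤ R) {p : X} {s : ℝ}
    (hm : MinLev l0 v ρ w1 (hull (TT I l)) p s) :
    Tgt v ρ I p0 w (Pool.Agent.H169C.Ln l0 p s) := by
  have np := h.near_hull hX hm.1
  have hb := cr_bound hL np hm.2.1
  refine ⟨h.jj' hX hR hC.hcg (by linarith [hC.D1]) (by linarith [hC.hw]) hm.1
    (abs_le.2 hb), hm.2.1.2.2, ?_⟩
  intro z' hz' hd e he t1 t2 ht1 h12 ht2 hd1 hd2
  obtain ⟨q, hq, σ, hσ, rfl⟩ := h.jj hX hC.D0 hR hC.hw1 (by linarith [hC.hw, hC.D0, hC.R0]) hz'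
  have hcr : Cr l0 v ρ w1 q σ := by
    refine ⟨?_, ?_, hd⟩
    · have := (abs_le.1 hσ).1
      linarith [hC.hw1]
    · have := (abs_le.1 hσ).2
      linarith [hC.hw1]
  have hle := hm.2.2 q hq σ hcr
  have g1 : dist (pt e.1 e.2 t1) (c 0) ≤ w1 := by
    have := dist_triangle (pt e.1 e.2 t1) p0 (c 0)
    linarith [hC.hw1, hC.D0]
  have g2 : dist (pt e.1 e.2 t2) (c 0) ≤ w1 := by
    have := dist_triangle (pt e.1 e.2 t2) p0 (c 0)
    linarith [hC.hw1, hC.D0]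
  rw [h.tox e he t1 ht1 (by linarith) g1, h.tox e he t2 (by linarith) ht2 g2,
    h.G hX hm.1 he, h.G hX hq he]
  have hd0 : 0 ≤ (t2 * dist e.1 e.2 + μ e) - (t1 * dist e.1 e.2 + μ e) := by
    have := mul_le_mul_of_nonneg_right h12.le (dist_nonneg (x := e.1) (y := e.2))
    linarith
  nlinarith

theorem Coo.min_of_tgt (hX : Cat X) (h : Coo I l0 l μ c D w1) (hC : Con c D w w1 R)
    (hL : Lev v ρ c D w1) (hR : dist p0 (c 0) ≤ R) {z : X} (hz : Tgt v ρ I p0 w z) :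
    ∃ p s, MinLev l0 v ρ w1 (hull (TT I l)) p s ∧ z = Pool.Agent.H169C.Ln l0 p s := by
  obtain ⟨hz1, hz2, hz3⟩ := hz
  obtain ⟨p, hp, s, hs, rfl⟩ := h.jj hX hC.D0 hR hC.hw1 (by linarith [hC.hw, hC.D0, hC.R0]) hz1
  have hcr : Cr l0 v ρ w1 p s := by
    refine ⟨?_, ?_, hz2⟩
    · have := (abs_le.1 hs).1
      linarith [hC.hw1]
    · have := (abs_le.1 hs).2
      linarith [hC.hw1]
  refine ⟨p, s, ⟨hp, hcr, ?_⟩, rfl⟩
  intro q hq σ hσ
  have hb := cr_bound hL (h.near_hull hX hq) hσ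
  have hq' := h.jj' (p0 := p0) (w := w) hX hR hC.hcg (by linarith [hC.D1]) (by linarith [hC.hw]) hq
    (abs_le.2 hb)
  obtain ⟨e, he⟩ := h.ne
  have hD0 := hC.D0
  have hD1 := hC.D1
  have hw := hC.hw
  have hR0 := hC.R0
  obtain ⟨t1, a1, a2, a3⟩ := h.frx e he 0 (by linarith) (by linarith)
  obtain ⟨t2, b1, b2, b3⟩ := h.frx e he 1 (by linarith) (by linarith)
  have n0 := h.near e he 0 (by linarith) (by linarith)
  have n1 := h.near e he 1 (by linarith) (by linarith)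
  have c1 := hC.hcg 1 (by linarith) (by linarith)
  rw [abs_one] at c1
  have d1 : dist (l e 0) p0 ≤ w := by
    have := dist_triangle (l e 0) (c 0) p0
    rw [dist_comm (c 0) p0] at this
    linarith
  have d2 : dist (l e 1) p0 ≤ w := by
    have := dist_triangle4 (l e 1) (c 1) (c 0) p0
    rw [dist_comm (c 0) p0] at this
    linarith
  have k1 := h.tox e he t1 a1 a2 (by rw [← a3]; linarith)
  have k2 := h.tox e he t2 b1 b2 (by
    rw [← b3]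
    have := dist_triangle (l e 1) (c 1) (c 0)
    linarith [hC.hw1])
  rw [← a3] at k1
  rw [← b3] at k2
  have i1 := (h.iso e he).injective k1
  have i2 := (h.iso e he).injective k2
  have hlt : t1 < t2 := by
    by_contra hcon
    push Not at hcon
    have := mul_le_mul_of_nonneg_right hcon (dist_nonneg (x := e.1) (y := e.2))
    linarith
  have k := hz3 _ hq' hσ.2.2 e he t1 t2 a1 hlt b2 (by rw [← a3]; exact d1) (by rw [← b3]; exact d2)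
  rw [← a3, ← b3, h.G hX hp he, h.G hX hq he] at k
  linarith

theorem Coo.tgt_exists (hX : Cat X) (h : Coo I l0 l μ c D w1) (hC : Con c D w w1 R)
    (hL : Lev v ρ c D w1) (hR : dist p0 (c 0) ≤ R) : ∃ z, Tgt v ρ I p0 w z := by
  obtain ⟨e, he⟩ := h.ne
  have hp : l e 0 ∈ hull (TT I l) := subset_hull _ ⟨e, he, rfl⟩
  obtain ⟨s, hs⟩ := cr_exists hL (hull_sub hX h.iso0 h.sub hp) (h.near_hull hX hp)
  have hb := cr_bound hL (h.near_hull hX hp) hs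
  have hJ := h.jj' (p0 := p0) (w := w) hX hR hC.hcg (by linarith [hC.D1]) (by linarith [hC.hw]) hp
    (abs_le.2 hb)
  have hcomp : IsCompact (JJ I p0 w ∩ {z | dist z v = ρ}) :=
    (JJ_compact hX h.fin p0 w).inter_right
      (isClosed_eq (continuous_id.dist continuous_const) continuous_const)
  obtain ⟨z, hz, hzm⟩ := hcomp.exists_isMinOn ⟨_, hJ, hs.2.2⟩
    (f := fun z => dist z (l e 0) ^ 2 - dist z (l e 1) ^ 2)
    (by fun_prop)
  obtain ⟨p, hp', σ, hσ, rfl⟩ := h.jj hX hC.D0 hR hC.hw1 (by linarith [hC.hw, hC.D0, hC.R0]) hz.1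
  refine ⟨_, h.tgt_of_min hX hC hL hR (p := p) (s := σ) ⟨hp', ⟨?_, ?_, hz.2⟩, ?_⟩⟩
  · have := (abs_le.1 hσ).1
    linarith [hC.hw1]
  · have := (abs_le.1 hσ).2
    linarith [hC.hw1]
  intro q hq τ hτ
  have hb' := cr_bound hL (h.near_hull hX hq) hτ
  have hq' := h.jj' (p0 := p0) (w := w) hX hR hC.hcg (by linarith [hC.D1]) (by linarith [hC.hw]) hq
    (abs_le.2 hb')
  have k := hzm ⟨hq', hτ.2.2⟩
  simp only [Set.mem_ofPred_eq] at k
  rw [h.G hX hp' he, h.G hX hq he] at k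
  linarith

end

end Pool.Agent.H169C
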