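import Pool.Agent.helper169_cat.CaseB

/-!
# Few separated target points
-/

set_option autoImplicit false

universe u v

namespace Pool.Agent.H169C

open Pool.Agent.TH60.FP

variable {X : Type u} [MetricSpace X]

/-- pigeonhole in a rectangle -/
theorem grid_pigeon {A B : ℝ} (a b : Fin (grid A B + 1) → ℝ) (ha : ∀ i, 0 ≤ a i ∧ a i ≤ A)
    (hb : ∀ i, 0 ≤ b i ∧ b i ≤ B) : ∃ i j, i ≠ j ∧ |a i - a j| < 1 / 2 ∧ |b i - b j| < 1 / 2 := by
  have hfa : ∀ i, ⌊2 * a i⌋₊ < ⌊2 * A⌋₊ + 1 := fun i =>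
    Nat.lt_succ_of_le (Nat.floor_le_floor (by linarith [(ha i).2]))
  have hfb : ∀ i, ⌊2 * b i⌋₊ < ⌊2 * B⌋₊ + 1 := fun i =>
    Nat.lt_succ_of_le (Nat.floor_le_floor (by linarith [(hb i).2]))
  let φ : Fin (grid A B + 1) → Fin (⌊2 * A⌋₊ + 1) × Fin (⌊2 * B⌋₊ + 1) :=
    fun i => (⟨_, hfa i⟩, ⟨_, hfb i⟩)
  have hcard : Fintype.card (Fin (⌊2 * A⌋₊ + 1) × Fin (⌊2 * B⌋₊ + 1)) <
      Fintype.card (Fin (grid A B + 1)) := by
    rw [Fintype.card_prod, Fintype.card_fin, Fintype.card_fin, Fintype.card_fin]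
    unfold grid
    omega
  obtain ⟨i, j, hij, h⟩ := Fintype.exists_ne_map_eq_of_card_lt φ hcard
  have key : ∀ x y : ℝ, 0 ≤ x → 0 ≤ y → ⌊2 * x⌋₊ = ⌊2 * y⌋₊ → |x - y| < 1 / 2 := by
    intro x y hx hy hxy
    have x1 := Nat.floor_le (show 0 ≤ 2 * x by linarith)
    have x2 := Nat.lt_floor_add_one (2 * x)
    have y1 := Nat.floor_le (show 0 ≤ 2 * y by linarith)
    have y2 := Nat.lt_floor_add_one (2 * y)
    rw [hxy] at x1 x2
    rw [abs_lt]
    constructor <;> linarith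
  have h' : (φ i).1.1 = (φ j).1.1 ∧ (φ i).2.1 = (φ j).2.1 := by rw [h]; exact ⟨rfl, rfl⟩
  exact ⟨i, j, hij, key _ _ (ha i).1 (ha j).1 h'.1, key _ _ (hb i).1 (hb j).1 h'.2⟩

theorem grid_mono {a b a' b' : ℝ} (ha : a ≤ a') (hb : b ≤ b') : grid a b ≤ grid a' b' := by
  unfold grid
  exact Nat.mul_le_mul (Nat.succ_le_succ (Nat.floor_le_floor (by linarith)))
    (Nat.succ_le_succ (Nat.floor_le_floor (by linarith)))

/-- the geodesic through the sphere of radius `ρ` towards `v` -/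
noncomputable def cg (v y : X) (ρ : ℝ) : ℝ → X := fun s => ray v y (ρ - s)

theorem cg_zero (v y : X) (ρ : ℝ) : cg v y ρ 0 = ray v y ρ := by
  unfold cg
  rw [sub_zero]

theorem cg_geo (hX : Cat X) {v y : X} {ρ n : ℝ} (h1 : n ≤ ρ) (h2 : ρ + n ≤ dist v y) :
    GeoOn (cg v y ρ) (-n) n := by
  intro s t hs hs' ht ht'
  unfold cg
  rw [ray_geo hX v y (by linarith) (by linarith) (by linarith) (by linarith)]
  rw [← abs_neg]
  congr 1
  ring

theorem cg_dist (hX : Cat X) {v y : X} {ρ n : ℝ} (h1 : n ≤ ρ) (h2 : ρ + n ≤ dist v y) {s : ℝ}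
    (hs : -n ≤ s) (hs' : s ≤ n) : dist (cg v y ρ s) v = ρ - s :=
  ray_dist hX v y (by linarith) (by linarith)

theorem cg_lip (hX : Cat X) {v x y : X} {ρ n : ℝ} (h1 : n ≤ ρ) (h2 : ρ + n ≤ dist v y)
    (h3 : ρ + n ≤ dist v x) {s : ℝ} (hs : -n ≤ s) (hs' : s ≤ n) :
    dist (cg v y ρ s) (cg v x ρ s) ≤ dist y x :=
  ray_lip hX v y x (by linarith) (by linarith) (by linarith)

/-- the chained pairs near the geodesic of a nearby point -/
theorem EE_sub (hX : Cat X) {V : Set X} {L r R W : ℝ} {v x y : X} {ρ : ℝ} (hW : 0 ≤ W)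
    (h1 : W ≤ ρ) (h2 : ρ + W ≤ dist v y) (h3 : ρ + W ≤ dist v x) (hR : dist y x ≤ R) :
    EE V L r W (cg v y ρ) ⊆ EE V L (r + R) W (cg v x ρ) := by
  rintro e ⟨he, ha, hb⟩
  refine ⟨he, ?_, ?_⟩
  · have k1 := cg_lip hX h1 h2 h3 (s := -W) le_rfl (by linarith)
    have k2 := dist_triangle e.1 (cg v y ρ (-W)) (cg v x ρ (-W))
    linarith
  · have k1 := cg_lip hX h1 h2 h3 (s := W) (by linarith) le_rfl
    have k2 := dist_triangle e.2 (cg v y ρ W) (cg v x ρ W)
    linarith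

theorem EE_mono {V : Set X} {L r r' W : ℝ} {c : ℝ → X} (h : r ≤ r') :
    EE V L r W c ⊆ EE V L r' W c := fun _ he => ⟨he.1, he.2.1.trans h, he.2.2.trans h⟩

theorem EE_finite {V : Set X} {L r W : ℝ} {c : ℝ → X}
    (hV : ∀ (x : X) (r : ℝ), (V ∩ Metric.closedBall x r).Finite) : (EE V L r W c).Finite := by
  refine ((hV (c (-W)) r).prod (hV (c W) r)).subset ?_
  rintro e ⟨he, ha, hb⟩
  exact ⟨⟨he.1, ha⟩, ⟨he.2.1, hb⟩⟩

open Classical in
/-- the target point of `y` -/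
noncomputable def Fl (V : Set X) (L : ℝ) (v : X) (r W w ρ : ℝ) (y : X) : X :=
  if h : ∃ z, Tgt v ρ (EE V L r W (cg v y ρ)) (ray v y ρ) w z then h.choose else ray v y ρ

theorem Fl_spec {V : Set X} {L : ℝ} {v : X} {r W w ρ : ℝ} {y : X}
    (h : ∃ z, Tgt v ρ (EE V L r W (cg v y ρ)) (ray v y ρ) w z) :
    Tgt v ρ (EE V L r W (cg v y ρ)) (ray v y ρ) w (Fl V L v r W w ρ y) := by
  unfold Fl
  rw [dif_pos h]
  exact h.choose_spec

theorem Fl_empty {V : Set X} {L : ℝ} {v : X} {r W w ρ : ℝ} {y : X}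
    (h : EE V L r W (cg v y ρ) = ∅) : Fl V L v r W w ρ y = ray v y ρ := by
  unfold Fl
  rw [dif_neg]
  rintro ⟨z, ⟨a, ⟨e, he, _⟩, _⟩, _⟩
  rw [h] at he
  exact he

theorem Fl_dist (hX : Cat X) {V : Set X} {L : ℝ} {v : X} {r W w ρ : ℝ} (hw : 0 ≤ w) (y : X) :
    dist (Fl V L v r W w ρ y) (ray v y ρ) ≤ w := by
  by_cases h : ∃ z, Tgt v ρ (EE V L r W (cg v y ρ)) (ray v y ρ) w z
  · obtain ⟨a, ⟨e, _, t1, _, _, h1, rfl⟩, b, ⟨e', _, t2, _, _, h2, rfl⟩, t, t0, t1', h3⟩ :=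
      (Fl_spec h).1
    rw [h3]
    exact ball_conv hX t0 t1' h1 h2
  · unfold Fl
    rw [dif_neg h, dist_self]
    exact hw

theorem btw_dist (hX : Cat X) {a b p q : X} (hp : Btw a p b) (hq : Btw a q b) :
    dist p q = |dist a p - dist a q| := by
  obtain ⟨t, t0, t1, rfl⟩ := exists_pt hX hp
  obtain ⟨t', t0', t1', rfl⟩ := exists_pt hX hq
  rw [pt_geo hX a b t0 t1 t0' t1', dist_left hX a b t0 t1, dist_left hX a b t0' t1', ← sub_mul,
    abs_mul, abs_of_nonneg (dist_nonneg (x := a) (y := b))]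

/-- case B -/
theorem caseB {G : Type v} [Group G] [MulAction G X] {V : Set X} {L : ℝ} (hA : Act G X V)
    (hM : Med X) {D w w1 W R : ℝ} (hR : 0 ≤ R) (hD0 : 0 ≤ D) (hw : w = 2 * (D + 1) + R + 1)
    (hw1 : w1 = w + R + (D + 1)) (hW : w1 ≤ W)
    (h2 : ∀ c : ℝ → X, GeoOn c (-W) W → ∃ (l0 : ℝ → X) (l : X × X → ℝ → X)
    (μ : X × X → ℝ), ∀ e ∈ EE V L D W c,
    Isometry l0 ∧ Isometry (l e) ∧ Sy l0 (l e) ∧
    (∀ s : ℝ, -w1 ≤ s → s ≤ w1 → dist (l e s) (c s) ≤ D + 1) ∧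
    (∀ t : ℝ, 0 ≤ t → t ≤ 1 → dist (pt e.1 e.2 t) (c 0) ≤ w1 →
      pt e.1 e.2 t = l e (t * dist e.1 e.2 + μ e)) ∧
    (∀ s : ℝ, -w1 ≤ s → s ≤ w1 → ∃ t : ℝ, 0 ≤ t ∧ t ≤ 1 ∧ l e s = pt e.1 e.2 t))
    {v x : X} {ρ r : ℝ} (hρ : W ≤ ρ) (hx : ρ + W + R ≤ dist v x) (hrD : r + R ≤ D)
    (hne : (EE V L (r - R) W (cg v x ρ)).Nonempty)
    (y : Fin (grid (2 * (D + 1)) (2 * (D + 1)) + 1) → X) (hy : ∀ i, dist (y i) x ≤ R) :
    ∃ i j, i ≠ j ∧ dist (Fl V L v r W w ρ (y i)) (Fl V L v r W w ρ (y j)) < 1 := by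
  have hX := hA.cat
  have hw1' : 0 < w1 := by linarith
  have hW0 : 0 ≤ W := by linarith
  have hx' : ρ + W ≤ dist v x := by linarith
  have hy' : ∀ i, ρ + W ≤ dist v (y i) := by
    intro i
    have := dist_triangle v (y i) x
    linarith [hy i]
  have hgeo := cg_geo hX hρ hx'
  obtain ⟨l0, l, μ, hl⟩ := h2 (cg v x ρ) hgeo
  have hsub1 : EE V L (r - R) W (cg v x ρ) ⊆ EE V L D W (cg v x ρ) := EE_mono (by linarith)
  have hne3 : (EE V L (r + R) W (cg v x ρ)).Nonempty := hne.mono (EE_mono (by linarith))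
  have hsub3 : EE V L (r + R) W (cg v x ρ) ⊆ EE V L D W (cg v x ρ) := EE_mono hrD
  have hCoo3 : Coo (EE V L (r + R) W (cg v x ρ)) l0 l μ (cg v x ρ) (D + 1) w1 :=
    { fin := EE_finite hA.fin
      ne := hne3
      iso0 := (hl _ (hsub3 hne3.choose_spec)).1
      iso := fun e he => (hl e (hsub3 he)).2.1
      sy := fun e he => (hl e (hsub3 he)).2.2.1
      near := fun e he => (hl e (hsub3 he)).2.2.2.1
      tox := fun e he => (hl e (hsub3 he)).2.2.2.2.1
      frx := fun e he => (hl e (hsub3 he)).2.2.2.2.2 }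
  have hL : Lev v ρ (cg v x ρ) (D + 1) w1 :=
    { D0 := by linarith
      Dw := by linarith
      hρ := by linarith
      hc := fun s hs hs' => cg_dist hX hρ hx' (by linarith) (by linarith) }
  have hC : Con (cg v x ρ) (D + 1) w w1 R :=
    { D0 := by linarith
      D1 := by linarith
      hw := by linarith
      hw1 := by linarith
      R0 := hR
      hcg := fun s hs hs' => by
        rw [hgeo s 0 (by linarith) (by linarith) (by linarith) hW0, sub_zero] }
  have hCoo1 := hCoo3.mono (I' := EE V L (r - R) W (cg v x ρ)) (EE_mono (by linarith)) hne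
  -- the pairs of the nearby points
  have hI1 : ∀ i, EE V L (r - R) W (cg v x ρ) ⊆ EE V L r W (cg v (y i) ρ) := by
    intro i
    have := EE_sub (V := V) (L := L) (r := r - R) hX hW0 hρ hx' (hy' i)
      (R := R) (by rw [dist_comm]; exact hy i)
    rwa [sub_add_cancel] at this
  have hI3 : ∀ i, EE V L r W (cg v (y i) ρ) ⊆ EE V L (r + R) W (cg v x ρ) := fun i =>
    EE_sub hX hW0 hρ (hy' i) hx' (hy i)
  have hc0 : dist (cg v x ρ 0) (cg v x ρ 0) ≤ R := by rw [dist_self]; exact hR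
  obtain ⟨z1, hz1⟩ := hCoo1.tgt_exists hX hC hL hc0
  obtain ⟨p1, s1, m1, _⟩ := hCoo1.min_of_tgt hX hC hL hc0 hz1
  obtain ⟨z3, hz3⟩ := hCoo3.tgt_exists hX hC hL hc0
  obtain ⟨p3, s3, m3, _⟩ := hCoo3.min_of_tgt hX hC hL hc0 hz3
  have hCi : ∀ i, Coo (EE V L r W (cg v (y i) ρ)) l0 l μ (cg v x ρ) (D + 1) w1 := fun i =>
    hCoo3.mono (hI3 i) (hne.mono (hI1 i))
  have hpi : ∀ i, dist (ray v (y i) ρ) (cg v x ρ 0) ≤ R := by
    intro i
    rw [← cg_zero]
    exact (cg_lip hX hρ (hy' i) hx' (by linarith) hW0).trans (hy i)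
  have key : ∀ i, ∃ p s, MinLev l0 v ρ w1 (hull (TT (EE V L r W (cg v (y i) ρ)) l)) p s ∧
      Fl V L v r W w ρ (y i) = Ln l0 p s := fun i =>
    (hCi i).min_of_tgt hX hC hL (hpi i) (Fl_spec ((hCi i).tgt_exists hX hC hL (hpi i)))
  choose p s hp using key
  have hTT : ∀ {I I' : Set (X × X)}, I ⊆ I' → TT I l ⊆ TT I' l := by
    rintro I I' h q ⟨e, he, rfl⟩
    exact ⟨e, h he, rfl⟩
  have hbtw : ∀ i, Btw p1 (p i) p3 := fun i =>
    path hX hM hCoo3.iso0 hL (hTT (hI1 i)) (hTT (hI3 i)) hCoo3.sub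
      (fun q hq => hCoo3.near_hull hX hq) m1 (hp i).1 m3
  have hpC : ∀ i, p i ∈ Cs l0 := fun i => hull_sub hX hCoo3.iso0 (hCi i).sub (hp i).1.1
  have hsb : ∀ i, -(D + 1) ≤ s i ∧ s i ≤ D + 1 := fun i =>
    cr_bound hL ((hCi i).near_hull hX (hp i).1.1) (hp i).1.2.1
  have h13 : dist p1 p3 ≤ 2 * (D + 1) := by
    have n1 := hCoo1.near_hull hX m1.1 0 (by linarith) (by linarith)
    have n3 := hCoo3.near_hull hX m3.1 0 (by linarith) (by linarith)
    rw [(Ln_spec (hull_sub hX hCoo3.iso0 hCoo1.sub m1.1)).2.2] at n1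
    rw [(Ln_spec (hull_sub hX hCoo3.iso0 hCoo3.sub m3.1)).2.2] at n3
    have := dist_triangle_right p1 p3 (cg v x ρ 0)
    linarith
  obtain ⟨i, j, hij, ha, hb⟩ := grid_pigeon (A := 2 * (D + 1)) (B := 2 * (D + 1))
    (fun i => dist p1 (p i)) (fun i => s i + (D + 1)) (fun i => ⟨dist_nonneg, by
      have := hbtw i
      unfold Btw at this
      have h3 := dist_nonneg (x := p i) (y := p3)
      linarith⟩) (fun i => ⟨by linarith [(hsb i).1], by linarith [(hsb i).2]⟩)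
  refine ⟨i, j, hij, ?_⟩
  rw [(hp i).2, (hp j).2]
  have hd := Ln_dist hX hCoo3.iso0 (hpC i) (hpC j) (s i) (s j)
  rw [btw_dist hX (hbtw i) (hbtw j), sq_abs] at hd
  simp only [add_sub_add_right_eq_sub] at hb
  rw [abs_lt] at ha hb
  have : dist (Ln l0 (p i) (s i)) (Ln l0 (p j) (s j)) ^ 2 < 1 ^ 2 := by
    rw [hd]
    nlinarith [ha.1, ha.2, hb.1, hb.2]
  exact lt_of_pow_lt_pow_left₀ 2 zero_le_one this

/-- the count -/
theorem count (h1 : Stmt_LIM1.{u, v}) (h2 : Stmt_LIM2.{u, v}) (G : Type v) [Group G]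
    [MulAction G X] (V : Set X) (L : ℝ) (hA : Act G X V) (hM : Med X) (hB : Bra X V L)
    (hL0 : 0 ≤ L) (v : X) (R : ℝ) (hR : 0 ≤ R) (N : ℕ) :
    ∃ (W' : ℝ) (F : Fin N → ℝ → X → X), 0 ≤ W' ∧
      (∀ j ρ y, dist (F j ρ y) (ray v y ρ) ≤ W') ∧
      (∀ ρ x, W' ≤ ρ → ρ + W' + R ≤ dist v x → ∃ j0 : ℕ, ∀ j : Fin N, (j : ℕ) ≠ j0 →
        ∀ y : Fin (grid (2 * (2 * R * N + L + 2)) (2 * (2 * R * N + L + 2)) + 1) → X,
          (∀ i, dist (y i) x ≤ R) → ∃ i i', i ≠ i' ∧ dist (F j ρ (y i)) (F j ρ (y i')) < 1) := by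
  have hX := hA.cat
  set a : ℕ → ℝ := fun j => 2 * R * j + L + 1 with ha
  set D : ℝ := a N with hD
  have hD0 : 0 ≤ D := by
    have : 0 ≤ 2 * R * N := by positivity
    simp only [hD, ha]
    linarith
  obtain ⟨w, hw⟩ : ∃ w : ℝ, w = 2 * (D + 1) + R + 1 := ⟨_, rfl⟩
  obtain ⟨w1, hw1⟩ : ∃ w1 : ℝ, w1 = w + R + (D + 1) := ⟨_, rfl⟩
  obtain ⟨W, hwW, hW⟩ := h2 G X V L hA hL0 D w1 hD0 (by linarith)
  have hW0 : 0 ≤ W := by linarith
  obtain ⟨n, hWn, hn⟩ := h1 G X V L hA hM hB hL0 W R hW0 hR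
  have hamono : ∀ i j : ℕ, i ≤ j → a i ≤ a j := by
    intro i j hij
    have : (i : ℝ) ≤ j := by exact_mod_cast hij
    simp only [ha]
    nlinarith
  refine ⟨n, fun j ρ y => Fl V L v (a j + R) W w ρ y, by linarith, ?_, ?_⟩
  · intro j ρ y
    exact (Fl_dist hX (by linarith) y).trans (by linarith)
  intro ρ x hρ hx
  have hx' : ρ + W ≤ dist v x := by linarith
  have hasucc : ∀ j : ℕ, a j + R + R = a (j + 1) := by
    intro j
    simp only [ha]
    push_cast
    ring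
  classical
  -- the exceptional index
  by_cases hex : ∃ j : ℕ, (EE V L (a (j + 1)) W (cg v x ρ)).Nonempty
  · refine ⟨Nat.find hex, ?_⟩
    intro j hj y hy
    rcases lt_or_gt_of_ne hj with hlt | hgt
    · -- case A
      have hempty : EE V L (a (j + 1)) W (cg v x ρ) = ∅ := by
        by_contra hcon
        exact Nat.find_min hex hlt (Set.nonempty_iff_ne_empty.2 hcon)
      have hy' : ∀ i, ρ + n ≤ dist v (y i) := by
        intro i
        have := dist_triangle v (y i) x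
        linarith [hy i]
      have hF : ∀ i, Fl V L v (a j + R) W w ρ (y i) = ray v (y i) ρ := by
        intro i
        apply Fl_empty
        have k := EE_sub (V := V) (L := L) (r := a j + R) hX hW0 (by linarith)
          (by linarith [hy' i] : ρ + W ≤ dist v (y i)) hx' (hy i)
        rw [hasucc, hempty] at k
        exact Set.subset_empty_iff.1 k
      by_contra hcon
      push Not at hcon
      have hle : grid (2 * R) (2 * R) + 1 ≤
          grid (2 * (2 * R * N + L + 2)) (2 * (2 * R * N + L + 2)) + 1 := by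
        have hN : (1 : ℝ) ≤ N := by
          have : 0 < N := lt_of_le_of_lt (Nat.zero_le _) j.2
          exact_mod_cast this
        have : 2 * R ≤ 2 * (2 * R * N + L + 2) := by nlinarith
        exact Nat.succ_le_succ (grid_mono this this)
      obtain ⟨e, he⟩ := hn (cg v x ρ) (fun i => cg v (y (Fin.castLE hle i)) ρ)
        (cg_geo hX hρ (by linarith)) (fun i => cg_geo hX hρ (hy' _))
        (fun i s hs hs' => (cg_lip hX hρ (hy' _) (by linarith) hs hs').trans (hy _))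
        (fun i i' hii => by
          have k := hcon (Fin.castLE hle i) (Fin.castLE hle i')
            (fun h => hii (Fin.castLE_injective hle h))
          rw [hF, hF] at k
          simp only [cg_zero]
          exact k)
      have : e ∈ EE V L (a (j + 1)) W (cg v x ρ) := by
        refine EE_mono ?_ he
        simp only [ha]
        push_cast
        nlinarith [hR, (Nat.cast_nonneg (j : ℕ) : (0 : ℝ) ≤ ((j : ℕ) : ℝ))]
      rw [hempty] at this
      exact this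
    · -- case B
      have hne : (EE V L (a j + R - R) W (cg v x ρ)).Nonempty := by
        refine (Nat.find_spec hex).mono (EE_mono ?_)
        rw [add_sub_cancel_right]
        exact hamono _ _ hgt
      have hrD : a j + R + R ≤ D := by
        rw [hasucc]
        exact hamono _ _ j.2
      have e1 : 2 * (2 * R * N + L + 2) = 2 * (D + 1) := by
        simp only [hD, ha]
        ring
      have k := caseB hA hM hR hD0 hw hw1 hwW hW (by linarith : W ≤ ρ) (by linarith) hrD hne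
      rw [← e1] at k
      exact k y hy
  · -- case A for all indices
    push Not at hex
    refine ⟨N, ?_⟩
    intro j hj y hy
    have hempty : EE V L (a (j + 1)) W (cg v x ρ) = ∅ := hex j
    have hy' : ∀ i, ρ + n ≤ dist v (y i) := by
      intro i
      have := dist_triangle v (y i) x
      linarith [hy i]
    have hF : ∀ i, Fl V L v (a j + R) W w ρ (y i) = ray v (y i) ρ := by
      intro i
      apply Fl_empty
      have k := EE_sub (V := V) (L := L) (r := a j + R) hX hW0 (by linarith)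
        (by linarith [hy' i] : ρ + W ≤ dist v (y i)) hx' (hy i)
      rw [hasucc, hempty] at k
      exact Set.subset_empty_iff.1 k
    by_contra hcon
    push Not at hcon
    have hle : grid (2 * R) (2 * R) + 1 ≤
        grid (2 * (2 * R * N + L + 2)) (2 * (2 * R * N + L + 2)) + 1 := by
      have hN : (1 : ℝ) ≤ N := by
        have : 0 < N := lt_of_le_of_lt (Nat.zero_le _) j.2
        exact_mod_cast this
      have : 2 * R ≤ 2 * (2 * R * N + L + 2) := by nlinarith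
      exact Nat.succ_le_succ (grid_mono this this)
    obtain ⟨e, he⟩ := hn (cg v x ρ) (fun i => cg v (y (Fin.castLE hle i)) ρ)
      (cg_geo hX hρ (by linarith)) (fun i => cg_geo hX hρ (hy' _))
      (fun i s hs hs' => (cg_lip hX hρ (hy' _) (by linarith) hs hs').trans (hy _))
      (fun i i' hii => by
        have k := hcon (Fin.castLE hle i) (Fin.castLE hle i')
          (fun h => hii (Fin.castLE_injective hle h))
        rw [hF, hF] at k
        simp only [cg_zero]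
        exact k)
    have : e ∈ EE V L (a (j + 1)) W (cg v x ρ) := by
      refine EE_mono ?_ he
      simp only [ha]
      push_cast
      nlinarith [hR, (Nat.cast_nonneg (j : ℕ) : (0 : ℝ) ≤ ((j : ℕ) : ℝ))]
    rw [hempty] at this
    exact this

end Pool.Agent.H169C
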