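import Pool.Agent.helper169_cat.Par

/-!
# Project: 2-dimensional CAT(0) groups coarsely embed into Hilbert space

Definitions and the statements of the parts (`def Stmt_... : Prop`).
-/

set_option autoImplicit false

universe u v

namespace Pool.Agent.H169C

open Pool.Agent.TH60.FP

/-- `m` is on a geodesic from `a` to `b` -/
def Btw {X : Type u} [MetricSpace X] (a m b : X) : Prop := dist a m + dist m b = dist a b

/-- the cross sections of families of parallel lines are trees: three synchronised lines have a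
median -/
def Med (X : Type u) [MetricSpace X] : Prop := ∀ a b c : ℝ → X, Isometry a → Isometry b →
  Isometry c → Sy a b → Sy a c → Sy b c → ∃ m : ℝ → X, Isometry m ∧ Sy a m ∧
    Btw (a 0) (m 0) (b 0) ∧ Btw (b 0) (m 0) (c 0) ∧ Btw (a 0) (m 0) (c 0)

/-- a line along which three half strips meet has a vertex in every interval of length `L` -/
def Bra (X : Type u) [MetricSpace X] (V : Set X) (L : ℝ) : Prop := ∀ a b c m : ℝ → X,
  Isometry a → Isometry b → Isometry c → Isometry m → Sy m a → Sy m b → Sy m c →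
  a 0 ≠ m 0 → b 0 ≠ m 0 → c 0 ≠ m 0 →
  Btw (a 0) (m 0) (b 0) → Btw (b 0) (m 0) (c 0) → Btw (a 0) (m 0) (c 0) →
  ∀ s : ℝ, ∃ s' : ℝ, s ≤ s' ∧ s' ≤ s + L ∧ m s' ∈ V

/-- chained pairs of vertices: every part of length `L` of the geodesic contains a vertex -/
def Ch {X : Type u} [MetricSpace X] (V : Set X) (L : ℝ) (e : X × X) : Prop :=
  e.1 ∈ V ∧ e.2 ∈ V ∧ ∀ t0 t1 : ℝ, 0 ≤ t0 → t0 ≤ t1 → t1 ≤ 1 →
    L ≤ (t1 - t0) * dist e.1 e.2 → ∃ t : ℝ, t0 ≤ t ∧ t ≤ t1 ∧ pt e.1 e.2 t ∈ V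

/-- the chained pairs near the geodesic `c` on `[-W, W]` -/
def EE {X : Type u} [MetricSpace X] (V : Set X) (L r W : ℝ) (c : ℝ → X) : Set (X × X) :=
  {e | Ch V L e ∧ dist e.1 (c (-W)) ≤ r ∧ dist e.2 (c W) ≤ r}

/-- geometric action on a CAT(0) space with an invariant locally finite set `V` of vertices -/
structure Act (G : Type v) (X : Type u) [Group G] [MetricSpace X] [MulAction G X] (V : Set X) :
    Prop where
  proper : ProperSpace X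
  isom : IsIsometricSMul G X
  cat : Cat X
  cc : ∃ K : Set X, IsCompact K ∧ ∀ x : X, ∃ g : G, g • x ∈ K
  disc : ∀ (x : X) (r : ℝ), {g : G | dist (g • x) x ≤ r}.Finite
  inv : ∀ (g : G), ∀ v ∈ V, g • v ∈ V
  fin : ∀ (x : X) (r : ℝ), (V ∩ Metric.closedBall x r).Finite

/-- the bound for the number of separated points in a rectangle with sides `a` and `b` -/
noncomputable def grid (a b : ℝ) : ℕ := (⌊2 * a⌋₊ + 1) * (⌊2 * b⌋₊ + 1)

/-- LIM1 : long geodesics near each other, without chained pairs near them, pass through few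
separated points -/
def Stmt_LIM1 : Prop := ∀ (G : Type v) (X : Type u) [Group G] [MetricSpace X] [MulAction G X]
  (V : Set X) (L : ℝ), Act G X V → Med X → Bra X V L → 0 ≤ L → ∀ W R : ℝ, 0 ≤ W → 0 ≤ R →
  ∃ n : ℝ, W ≤ n ∧ ∀ (c0 : ℝ → X) (c : Fin (grid (2 * R) (2 * R) + 1) → ℝ → X),
    GeoOn c0 (-n) n → (∀ i, GeoOn (c i) (-n) n) →
    (∀ i s, -n ≤ s → s ≤ n → dist (c i s) (c0 s) ≤ R) →
    (∀ i j, i ≠ j → 1 ≤ dist (c i 0) (c j 0)) →
    (EE V L (R + L + 1) W c0).Nonempty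

/-- LIM2 : the chained pairs near a long geodesic lie on parallel lines in the middle part -/
def Stmt_LIM2 : Prop := ∀ (G : Type v) (X : Type u) [Group G] [MetricSpace X] [MulAction G X]
  (V : Set X) (L : ℝ), Act G X V → 0 ≤ L → ∀ D w : ℝ, 0 ≤ D → 0 ≤ w →
  ∃ W : ℝ, w ≤ W ∧ ∀ c : ℝ → X, GeoOn c (-W) W → ∃ (l0 : ℝ → X) (l : X × X → ℝ → X)
    (μ : X × X → ℝ), ∀ e ∈ EE V L D W c,
    Isometry l0 ∧ Isometry (l e) ∧ Sy l0 (l e) ∧
    (∀ s : ℝ, -w ≤ s → s ≤ w → dist (l e s) (c s) ≤ D + 1) ∧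
    (∀ t : ℝ, 0 ≤ t → t ≤ 1 → dist (pt e.1 e.2 t) (c 0) ≤ w →
      pt e.1 e.2 t = l e (t * dist e.1 e.2 + μ e)) ∧
    (∀ s : ℝ, -w ≤ s → s ≤ w → ∃ t : ℝ, 0 ≤ t ∧ t ≤ 1 ∧ l e s = pt e.1 e.2 t)

/-- the conclusion: the word metric coarsely embeds into `ℓ²` -/
def Emb (G : Type v) (Γ : SimpleGraph G) : Prop :=
  ∃ (f : G → lp (fun _ : ℕ => ℝ) 2) (r₁ r₂ : ℕ → ℝ), Filter.Tendsto r₁ Filter.atTop Filter.atTop ∧
    ∀ g h, r₁ (Γ.dist g h) ≤ ‖f g - f h‖ ∧ ‖f g - f h‖ ≤ r₂ (Γ.dist g h)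

/-- MACH : the averaging machine -/
def Stmt_MACH : Prop := ∀ (G : Type v) [Group G] (S : Finset G) (Γ : SimpleGraph G),
  Subgroup.closure (S : Set G) = ⊤ → Γ = SimpleGraph.fromRel (fun a b : G => a⁻¹ * b ∈ S) →
  ∀ (H : G → ℕ) (Λ : ℕ), (∀ g h, Γ.dist g h ≤ 1 → H g ≤ H h + Λ) →
  (∀ M : ℕ, ∃ D : ℕ, ∀ g, H g ≤ M → Γ.dist 1 g ≤ D) →
  (∃ C : ℕ, ∀ N n : ℕ, ∃ (B : ℕ) (F : Fin N → ℕ → G → G),
    (∀ M : ℕ, ∃ D : ℕ, ∀ j ρ g, B ≤ ρ → ρ + B ≤ H g → H g ≤ ρ + M → Γ.dist g (F j ρ g) ≤ D) ∧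
    (∀ ρ g, B ≤ ρ → ρ + B ≤ H g → ∃ j0 : ℕ, ∀ j : Fin N, (j : ℕ) ≠ j0 →
      (F j ρ '' {h | Γ.dist g h ≤ n}).ncard ≤ C * ((N + 1) * (n + 1)) ^ 4)) →
  Emb G Γ

/-- the geodesic from `a` to `b` -/
def seg {X : Type u} [MetricSpace X] (a b : X) : Set X := {z | dist a z + dist z b = dist a b}

/-- `V`, `E` are the vertices and edges (geodesic segments of length at most `L`, given by their
end points) of a locally finite graph in `X`, off which `X` is locally isometric to a subset of the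
Euclidean plane -/
structure Flat2 (X : Type u) [MetricSpace X] (V : Set X) (E : Set (X × X)) (L : ℝ) : Prop where
  fin : ∀ (x : X) (r : ℝ), (V ∩ Metric.closedBall x r).Finite
  ends : ∀ e ∈ E, e.1 ∈ V ∧ e.2 ∈ V ∧ dist e.1 e.2 ≤ L
  meet : ∀ e ∈ E, ∀ e' ∈ E, e ≠ e' → seg e.1 e.2 ∩ seg e'.1 e'.2 ⊆ V
  flat : ∀ z : X, z ∉ V → (∀ e ∈ E, z ∉ seg e.1 e.2) → ∃ ε : ℝ, 0 < ε ∧
    ∃ φ : X → EuclideanSpace ℝ (Fin 2), ∀ x ∈ Metric.ball z ε, ∀ y ∈ Metric.ball z ε,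
      dist (φ x) (φ y) = dist x y

/-- POLY1 -/
def Stmt_POLY1 : Prop := ∀ (X : Type u) [MetricSpace X] (V : Set X) (E : Set (X × X)) (L : ℝ),
  Cat X → Flat2 X V E L → Med X

/-- POLY2 -/
def Stmt_POLY2 : Prop := ∀ (X : Type u) [MetricSpace X] (V : Set X) (E : Set (X × X)) (L : ℝ),
  Cat X → Flat2 X V E L → Bra X V (L + 1)

end Pool.Agent.H169C
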