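import Pool.Agent.helper169_cat.Basic
import Pool.Agent.TH60.FP.Mid

/-!
# Synchronised parallel lines and the flat strips between them
-/

set_option autoImplicit false

universe u v

namespace Pool.Agent.H169C

open Pool.Agent.TH60.FP

variable {X : Type u} [MetricSpace X]

theorem sy_refl {a : ℝ → X} (ha : Isometry a) : Sy a a := by
  intro s t
  rw [dist_self, ha.dist_eq, Real.dist_eq, sq_abs]
  ring

theorem sy_symm {a b : ℝ → X} (h : Sy a b) : Sy b a := by
  intro s t
  rw [dist_comm, h t s, dist_comm]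
  ring

theorem sy_trans (hX : Cat X) {a b c : ℝ → X} (ha : Isometry a) (hb : Isometry b)
    (hc : Isometry c) (hab : Sy a b) (hac : Sy a c) : Sy b c :=
  t_trans t_strip X (cn_of_cat hX) a b c ha hb hc hab hac

theorem sy_same {a b : ℝ → X} (h : Sy a b) (s : ℝ) : dist (a s) (b s) = dist (a 0) (b 0) := by
  have h2 := h s s
  rw [sub_self, zero_pow two_ne_zero, add_zero] at h2
  exact (pow_left_inj₀ dist_nonneg dist_nonneg two_ne_zero).1 h2

theorem sy_eq {a b : ℝ → X} (h : Sy a b) (h0 : a 0 = b 0) : a = b := by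
  funext s
  have := sy_same h s
  rw [h0, dist_self] at this
  exact dist_eq_zero.1 this

theorem strip (hX : Cat X) {a b : ℝ → X} (ha : Isometry a) (hb : Isometry b) {B : ℝ}
    (h : ∀ t, dist (a t) (b t) ≤ B) : ∃ o : ℝ, Sy a (fun t => b (t + o)) :=
  t_strip X (cn_of_cat hX) a b ha hb ⟨B, h⟩

theorem iso_shift {b : ℝ → X} (hb : Isometry b) (o : ℝ) : Isometry (fun t => b (t + o)) := by
  apply Isometry.of_dist_eq
  intro s t
  rw [hb.dist_eq, Real.dist_eq, Real.dist_eq]
  congr 1
  ring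

/-- the line at the fraction `t` of the strip between `a` and `b` -/
noncomputable def mix (a b : ℝ → X) (t : ℝ) : ℝ → X := fun s => pt (a s) (b s) t

section
variable {a b : ℝ → X} {t : ℝ}

theorem iso_sq (ha : Isometry a) (s s' : ℝ) : dist (a s) (a s') ^ 2 = (s' - s) ^ 2 := by
  rw [ha.dist_eq, Real.dist_eq, sq_abs]
  ring

theorem mix_left (hX : Cat X) (ha : Isometry a) (hab : Sy a b) (h0 : 0 ≤ t)
    (h1 : t ≤ 1) (s s' : ℝ) :
    dist (a s) (mix a b t s') ^ 2 ≤ (s' - s) ^ 2 + t ^ 2 * dist (a 0) (b 0) ^ 2 := by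
  have h := pt_spec hX (a s') (b s') h0 h1 (a s)
  rw [iso_sq ha, hab s s', sy_same hab s'] at h
  unfold mix
  nlinarith

theorem mix_right (hX : Cat X) (hb : Isometry b) (hab : Sy a b) (h0 : 0 ≤ t)
    (h1 : t ≤ 1) (s s' : ℝ) :
    dist (b s) (mix a b t s') ^ 2 ≤ (s' - s) ^ 2 + (1 - t) ^ 2 * dist (a 0) (b 0) ^ 2 := by
  have h := pt_spec hX (a s') (b s') h0 h1 (b s)
  rw [iso_sq hb, dist_comm (b s) (a s'), hab s' s, sy_same hab s'] at h
  unfold mix
  nlinarith

theorem mix_up (hX : Cat X) (ha : Isometry a) (hb : Isometry b) (hab : Sy a b) (h0 : 0 ≤ t)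
    (h1 : t ≤ 1) (s s' : ℝ) : dist (mix a b t s) (mix a b t s') ^ 2 ≤ (s' - s) ^ 2 := by
  have h := pt_spec hX (a s') (b s') h0 h1 (mix a b t s)
  rw [sy_same hab s', dist_comm _ (a s'), dist_comm _ (b s')] at h
  have h2 := mix_left hX ha hab h0 h1 s' s
  have h3 := mix_right hX hb hab h0 h1 s' s
  have f1 := mul_le_mul_of_nonneg_left h2 (by linarith : (0 : ℝ) ≤ 1 - t)
  have f2 := mul_le_mul_of_nonneg_left h3 h0
  have e : dist (mix a b t s) (mix a b t s') = dist (mix a b t s) (pt (a s') (b s') t) := rfl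
  rw [e]
  nlinarith

theorem mix_iso (hX : Cat X) (ha : Isometry a) (hb : Isometry b) (hab : Sy a b) (h0 : 0 ≤ t)
    (h1 : t ≤ 1) : Isometry (mix a b t) := by
  have hup : ∀ s s' : ℝ, s < s' → dist (mix a b t s) (mix a b t s') ≤ s' - s := by
    intro s s' hs
    exact le_of_sq_le (by linarith) (mix_up hX ha hb hab h0 h1 s s')
  have hlow : ∀ s s' : ℝ, s < s' → s' - s ≤ dist (mix a b t s) (mix a b t s') := by
    intro s s' hst
    by_contra hcon
    push Not at hcon
    set d : ℝ := dist (mix a b t s) (mix a b t s') with hd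
    set e : ℝ := t ^ 2 * dist (a 0) (b 0) ^ 2 with he
    have he0 : 0 ≤ e := by positivity
    set δ : ℝ := s' - s - d with hδ
    have hδ0 : 0 < δ := by linarith
    set L : ℝ := e / δ + 1 + |s| + |s'| with hL
    have hq : 0 ≤ e / δ := by positivity
    have hs1 : -|s| ≤ s := neg_abs_le s
    have ht1 : s' ≤ |s'| := le_abs_self s'
    have hs0 : 0 ≤ |s| := abs_nonneg s
    have ht0 : 0 ≤ |s'| := abs_nonneg s'
    have hx1 : 0 < L + s := by rw [hL]; linarith
    have hx2 : 0 < L - s' := by rw [hL]; linarith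
    have k1 : dist (a (-L)) (mix a b t s) ≤ (L + s) + e / (2 * (L + s)) := by
      apply Mid.root_bound hx1 he0
      have := mix_left hX ha hab h0 h1 (-L) s
      nlinarith
    have k2 : dist (a L) (mix a b t s') ≤ (L - s') + e / (2 * (L - s')) := by
      apply Mid.root_bound hx2 he0
      have := mix_left hX ha hab h0 h1 L s'
      nlinarith
    have k3 : dist (a (-L)) (a L) ≤ dist (a (-L)) (mix a b t s) +
        dist (mix a b t s) (mix a b t s') + dist (mix a b t s') (a L) :=
      dist_triangle4 _ _ _ _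
    have k4 : dist (a (-L)) (a L) = 2 * L := by
      rw [ha.dist_eq, Real.dist_eq]
      have : 0 < L := by rw [hL]; linarith
      rw [show -L - L = -(2 * L) by ring, abs_neg, abs_of_pos (by linarith)]
    rw [k4, dist_comm (mix a b t s') (a L)] at k3
    have k5 : e / (2 * (L + s)) < δ / 2 := by
      rw [div_lt_iff₀ (by linarith)]
      have : e / δ < L + s := by rw [hL]; linarith
      rw [div_lt_iff₀ hδ0] at this
      nlinarith
    have k6 : e / (2 * (L - s')) < δ / 2 := by
      rw [div_lt_iff₀ (by linarith)]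
      have : e / δ < L - s' := by rw [hL]; linarith
      rw [div_lt_iff₀ hδ0] at this
      nlinarith
    linarith
  apply Isometry.of_dist_eq
  intro s s'
  rw [Real.dist_eq]
  rcases lt_trichotomy s s' with hst | hst | hst
  · rw [abs_of_neg (by linarith)]
    linarith [hup s s' hst, hlow s s' hst]
  · subst hst
    simp
  · rw [abs_of_pos (by linarith), dist_comm]
    linarith [hup s' s hst, hlow s' s hst]

theorem mix_sy (hX : Cat X) (ha : Isometry a) (hb : Isometry b) (hab : Sy a b) (h0 : 0 ≤ t)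
    (h1 : t ≤ 1) : Sy a (mix a b t) := by
  set D := dist (a 0) (b 0) with hD
  have ham := mix_left hX ha hab h0 h1
  have hpar : ∀ s, dist (a s) (mix a b t s) ≤ D := by
    intro s
    apply le_of_sq_le dist_nonneg
    have := ham s s
    have h2 : t ^ 2 * D ^ 2 ≤ D ^ 2 := mul_le_of_le_one_left (sq_nonneg D) (pow_le_one₀ h0 h1)
    rw [← hD, sub_self] at this
    nlinarith
  have hm := mix_iso hX ha hb hab h0 h1
  obtain ⟨o, ho⟩ := strip hX ha hm hpar
  have ho0 : o = 0 := by
    by_contra hne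
    have key : ∀ w : ℝ, dist (a 0) (mix a b t (0 + o)) ^ 2 ≤ 2 * w * o + o ^ 2 + D ^ 2 := by
      intro w
      have h1' := ho 0 w
      simp only [sub_zero] at h1'
      have h2 := ham 0 (w + o)
      have h3 : t ^ 2 * D ^ 2 ≤ D ^ 2 := mul_le_of_le_one_left (sq_nonneg D) (pow_le_one₀ h0 h1)
      rw [← hD] at h2
      nlinarith
    have k1 := key (-(o ^ 2 + D ^ 2 + 1) / (2 * o))
    have k2 : 2 * (-(o ^ 2 + D ^ 2 + 1) / (2 * o)) * o = -(o ^ 2 + D ^ 2 + 1) := by
      field_simp
    rw [k2] at k1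
    nlinarith [sq_nonneg (dist (a 0) (mix a b t (0 + o)))]
  subst ho0
  intro s t'
  have := ho s t'
  simpa using this

/-- straight segments of the strip -/
theorem mix_pt (hX : Cat X) (ha : Isometry a) (hb : Isometry b) (hab : Sy a b) (h0 : 0 ≤ t)
    (h1 : t ≤ 1) (s s' : ℝ) : pt (a s) (b s') t = mix a b t ((1 - t) * s + t * s') := by
  set σ := (1 - t) * s + t * s' with hσ
  apply pt_unique hX h0 h1
  · rw [sy_same hab σ]
    apply le_of_sq_le (mul_nonneg h0 dist_nonneg)
    have h := pt_spec hX (a s) (b s') h0 h1 (a σ)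
    rw [iso_sq ha, hab σ s', hab s s'] at h
    rw [hσ] at h ⊢
    nlinarith
  · rw [sy_same hab σ, dist_comm]
    apply le_of_sq_le (mul_nonneg (by linarith) dist_nonneg)
    have h := pt_spec hX (a s) (b s') h0 h1 (b σ)
    rw [dist_comm (b σ) (a s), iso_sq hb, hab s σ, hab s s'] at h
    rw [hσ] at h ⊢
    nlinarith

end

end Pool.Agent.H169C
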