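import Pool.Agent.helper169_cat.Asm

/-!
# CAT(0) groups whose parallel sets have subexponential growth: definitions and parts
-/

set_option autoImplicit false

universe u v

namespace Pool.Agent.H169C

open Pool.Agent.TH60.FP

/-- the parallel set of the line `l` : all points on lines parallel to `l` -/
def PS {X : Type u} [MetricSpace X] (l : ℝ → X) : Set X :=
  {x | ∃ l' : ℝ → X, Isometry l' ∧ (∃ B : ℝ, ∀ s : ℝ, dist (l s) (l' s) ≤ B) ∧ l' 0 = x}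

/-- the finite set `A` is `1`-separated -/
def Sep {X : Type u} [MetricSpace X] (A : Finset X) : Prop := ∀ x ∈ A, ∀ y ∈ A, x ≠ y → 1 ≤ dist x y

/-- `1`-separated subsets of the part of the parallel set in the ball of radius `R` have at most
`exp (ε * R)` elements -/
def Gro {X : Type u} [MetricSpace X] (l : ℝ → X) (ε R : ℝ) : Prop := ∀ A : Finset X,
  (∀ x ∈ A, x ∈ PS l ∧ dist x (l 0) ≤ R) → Sep A → (A.card : ℝ) ≤ Real.exp (ε * R)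

/-- the parallel set of `l` has subexponential growth -/
def SubG {X : Type u} [MetricSpace X] (l : ℝ → X) : Prop := ∀ ε : ℝ, 0 < ε → ∃ R0 : ℝ, ∀ R : ℝ,
  R0 ≤ R → Gro l ε R

/-- UNI : pointwise subexponential growth is uniform -/
def Stmt_UNI : Prop := ∀ (G : Type v) (X : Type u) [Group G] [MetricSpace X] [MulAction G X],
  Act G X (∅ : Set X) → (∀ l : ℝ → X, Isometry l → SubG l) → ∀ ε : ℝ, 0 < ε → ∀ R0 : ℝ,
  ∃ R : ℝ, R0 ≤ R ∧ ∀ l : ℝ → X, Isometry l → Gro l ε R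

/-- LIM3 : long geodesics near each other pass through few separated points -/
def Stmt_LIM3 : Prop := ∀ (G : Type v) (X : Type u) [Group G] [MetricSpace X] [MulAction G X],
  Act G X (∅ : Set X) → ∀ (m : ℕ) (R : ℝ), 0 ≤ R →
  (∀ l : ℝ → X, Isometry l → ∀ A : Finset X, (∀ x ∈ A, x ∈ PS l ∧ dist x (l 0) ≤ R) → Sep A →
    A.card < m) →
  ∃ n : ℝ, 0 ≤ n ∧ ∀ (c0 : ℝ → X) (c : Fin m → ℝ → X),
    GeoOn c0 (-n) n → (∀ i, GeoOn (c i) (-n) n) →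
    (∀ i s, -n ≤ s → s ≤ n → dist (c i s) (c0 s) ≤ R) →
    ∃ i j, i ≠ j ∧ dist (c i 0) (c j 0) < 1

/-- MACH2 : the averaging machine with subexponential counts -/
def Stmt_MACH2 : Prop := ∀ (G : Type v) [Group G] (S : Finset G) (Γ : SimpleGraph G),
  Subgroup.closure (S : Set G) = ⊤ → Γ = SimpleGraph.fromRel (fun a b : G => a⁻¹ * b ∈ S) →
  ∀ (H : G → ℕ) (Λ : ℕ), (∀ g h, Γ.dist g h ≤ 1 → H g ≤ H h + Λ) →
  (∀ M : ℕ, ∃ D : ℕ, ∀ g, H g ≤ M → Γ.dist 1 g ≤ D) →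
  (∀ ε : ℝ, 0 < ε → ∃ (N n B : ℕ) (F : Fin N → ℕ → G → G), 1 ≤ ε * N ∧ 2 ≤ n ∧
    (∀ M : ℕ, ∃ D : ℕ, ∀ j ρ g, B ≤ ρ → ρ + B ≤ H g → H g ≤ ρ + M → Γ.dist g (F j ρ g) ≤ D) ∧
    (∀ ρ g, B ≤ ρ → ρ + B ≤ H g → ∃ j0 : ℕ, ∀ j : Fin N, (j : ℕ) ≠ j0 →
      ((F j ρ '' {h | Γ.dist g h ≤ n}).ncard : ℝ) ≤ Real.exp (ε * n))) →
  Emb G Γ

end Pool.Agent.H169C
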