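import Pool.Agent.helper169_cat.Defs

/-!
# Cross sections, medians, hulls, and the minimal level of a sphere
-/

set_option autoImplicit false

universe u v

namespace Pool.Agent.H169C

open Pool.Agent.TH60.FP

variable {X : Type u} [MetricSpace X]

/-! ## Betweenness -/

theorem Btw.symm {a m b : X} (h : Btw a m b) : Btw b m a := by
  unfold Btw at *
  rw [dist_comm b m, dist_comm m a, dist_comm b a]
  linarith

theorem Btw.trans {a z p b : X} (h1 : Btw a z p) (h2 : Btw a p b) : Btw a z b := by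
  unfold Btw at *
  have t1 := dist_triangle z p b
  have t2 := dist_triangle a z b
  linarith

theorem btw_pt (hX : Cat X) (a b : X) {t : ℝ} (h0 : 0 ≤ t) (h1 : t ≤ 1) : Btw a (pt a b t) b := by
  unfold Btw
  rw [dist_left hX a b h0 h1, dist_right hX a b h0 h1]
  ring

theorem btw_left (a b : X) : Btw a a b := by
  unfold Btw
  rw [dist_self, zero_add]

theorem exists_pt (hX : Cat X) {a m b : X} (h : Btw a m b) :
    ∃ t : ℝ, 0 ≤ t ∧ t ≤ 1 ∧ m = pt a b t := by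
  unfold Btw at h
  rcases eq_or_lt_of_le (dist_nonneg (x := a) (y := b)) with h0 | h0
  · refine ⟨0, le_rfl, zero_le_one, ?_⟩
    rw [pt_zero hX]
    rw [← h0] at h
    have := dist_nonneg (x := a) (y := m)
    have := dist_nonneg (x := m) (y := b)
    exact (dist_eq_zero.1 (by linarith : dist a m = 0)).symm
  · have e1 : dist a m ≤ dist a b := by
      have := dist_nonneg (x := m) (y := b)
      linarith
    refine ⟨dist a m / dist a b, by positivity, (div_le_one h0).2 e1, ?_⟩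
    apply pt_unique hX (by positivity) ((div_le_one h0).2 e1)
    · rw [div_mul_cancel₀ _ h0.ne']
    · rw [sub_mul, div_mul_cancel₀ _ h0.ne']
      linarith

theorem btw_split (hX : Cat X) {a z m b : X} (hz : Btw a z b) (hm : Btw a m b) :
    Btw a z m ∨ Btw m z b := by
  obtain ⟨t, t0, t1, rfl⟩ := exists_pt hX hz
  obtain ⟨u, u0, u1, rfl⟩ := exists_pt hX hm
  rcases le_total t u with h | h
  · left
    unfold Btw
    rw [dist_left hX a b t0 t1, dist_left hX a b u0 u1, pt_geo hX a b t0 t1 u0 u1,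
      abs_of_nonpos (by linarith)]
    ring
  · right
    unfold Btw
    rw [dist_right hX a b t0 t1, dist_right hX a b u0 u1, pt_geo hX a b u0 u1 t0 t1,
      abs_of_nonpos (by linarith)]
    ring

/-! ## The cross section -/

/-- `p` is on a line synchronised with `l0`, at level `0` -/
def Cs (l0 : ℝ → X) : Set X := {p | ∃ m : ℝ → X, Isometry m ∧ Sy l0 m ∧ m 0 = p}

open Classical in
/-- the line through the point `p` of the cross section -/
noncomputable def Ln (l0 : ℝ → X) (p : X) : ℝ → X :=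
  if h : ∃ m : ℝ → X, Isometry m ∧ Sy l0 m ∧ m 0 = p then h.choose else fun _ => p

variable {l0 : ℝ → X}

theorem Ln_spec {p : X} (hp : p ∈ Cs l0) :
    Isometry (Ln l0 p) ∧ Sy l0 (Ln l0 p) ∧ Ln l0 p 0 = p := by
  have hp' : ∃ m : ℝ → X, Isometry m ∧ Sy l0 m ∧ m 0 = p := hp
  unfold Ln
  rw [dif_pos hp']
  exact hp'.choose_spec

theorem mem_Cs {m : ℝ → X} (hm : Isometry m) (hs : Sy l0 m) : m 0 ∈ Cs l0 := ⟨m, hm, hs, rfl⟩

theorem Ln_sy (hX : Cat X) (h0 : Isometry l0) {p q : X} (hp : p ∈ Cs l0) (hq : q ∈ Cs l0) :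
    Sy (Ln l0 p) (Ln l0 q) :=
  sy_trans hX h0 (Ln_spec hp).1 (Ln_spec hq).1 (Ln_spec hp).2.1 (Ln_spec hq).2.1

theorem Ln_eq (hX : Cat X) (h0 : Isometry l0) {m : ℝ → X} (hm : Isometry m) (hs : Sy l0 m) :
    Ln l0 (m 0) = m := by
  have hp := mem_Cs hm hs
  obtain ⟨h1, h2, h3⟩ := Ln_spec hp
  exact sy_eq (sy_trans hX h0 h1 hm h2 hs) h3

theorem Ln_dist (hX : Cat X) (h0 : Isometry l0) {p q : X} (hp : p ∈ Cs l0) (hq : q ∈ Cs l0)
    (s s' : ℝ) : dist (Ln l0 p s) (Ln l0 q s') ^ 2 = dist p q ^ 2 + (s' - s) ^ 2 := by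
  rw [Ln_sy hX h0 hp hq s s', (Ln_spec hp).2.2, (Ln_spec hq).2.2]

theorem Cs_conv (hX : Cat X) (h0 : Isometry l0) {p q : X} (hp : p ∈ Cs l0) (hq : q ∈ Cs l0)
    {t : ℝ} (t0 : 0 ≤ t) (t1 : t ≤ 1) : pt p q t ∈ Cs l0 ∧
      ∀ s s', pt (Ln l0 p s) (Ln l0 q s') t = Ln l0 (pt p q t) ((1 - t) * s + t * s') := by
  have hpq := Ln_sy hX h0 hp hq
  obtain ⟨a1, a2, a3⟩ := Ln_spec hp
  obtain ⟨b1, b2, b3⟩ := Ln_spec hq
  have hm := mix_iso hX a1 b1 hpq t0 t1
  have hms := mix_sy hX a1 b1 hpq t0 t1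
  have hl : Sy l0 (mix (Ln l0 p) (Ln l0 q) t) :=
    sy_trans hX a1 h0 hm (sy_symm a2) hms
  have e : mix (Ln l0 p) (Ln l0 q) t 0 = pt p q t := by
    unfold mix
    rw [a3, b3]
  have hL := Ln_eq hX h0 hm hl
  rw [e] at hL
  refine ⟨⟨_, hm, hl, e⟩, fun s s' => ?_⟩
  rw [mix_pt hX a1 b1 hpq t0 t1, hL]

theorem Cs_conv' (hX : Cat X) (h0 : Isometry l0) {p q z : X} (hp : p ∈ Cs l0) (hq : q ∈ Cs l0)
    (h : Btw p z q) : z ∈ Cs l0 := by
  obtain ⟨t, t0, t1, rfl⟩ := exists_pt hX h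
  exact (Cs_conv hX h0 hp hq t0 t1).1

theorem Cs_med (hX : Cat X) (hM : Med X) (h0 : Isometry l0) {p q r : X} (hp : p ∈ Cs l0)
    (hq : q ∈ Cs l0) (hr : r ∈ Cs l0) : ∃ m ∈ Cs l0, Btw p m q ∧ Btw q m r ∧ Btw p m r := by
  obtain ⟨a1, a2, a3⟩ := Ln_spec hp
  obtain ⟨b1, b2, b3⟩ := Ln_spec hq
  obtain ⟨c1, c2, c3⟩ := Ln_spec hr
  obtain ⟨m, m1, m2, m3, m4, m5⟩ := hM _ _ _ a1 b1 c1 (Ln_sy hX h0 hp hq) (Ln_sy hX h0 hp hr)
    (Ln_sy hX h0 hq hr)
  rw [a3, b3] at m3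
  rw [b3, c3] at m4
  rw [a3, c3] at m5
  exact ⟨m 0, Cs_conv' hX h0 hp hq m3, m3, m4, m5⟩

theorem thin (hX : Cat X) (hM : Med X) (h0 : Isometry l0) {p q r z : X} (hp : p ∈ Cs l0)
    (hq : q ∈ Cs l0) (hr : r ∈ Cs l0) (hz : Btw p z q) : Btw p z r ∨ Btw r z q := by
  obtain ⟨m, _, m1, m2, m3⟩ := Cs_med hX hM h0 hp hq hr
  rcases btw_split hX hz m1 with h | h
  · exact Or.inl (h.trans m3)
  · right
    exact (h.symm.trans m2).symm

/-- the hull of a set of points -/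
def hull (T : Set X) : Set X := {z | ∃ a ∈ T, ∃ b ∈ T, Btw a z b}

theorem subset_hull (T : Set X) : T ⊆ hull T := fun a ha => ⟨a, ha, a, ha, btw_left a a⟩

theorem hull_mono {T T' : Set X} (h : T ⊆ T') : hull T ⊆ hull T' := by
  rintro z ⟨a, ha, b, hb, hz⟩
  exact ⟨a, h ha, b, h hb, hz⟩

theorem hull_sub (hX : Cat X) (h0 : Isometry l0) {T : Set X} (hT : T ⊆ Cs l0) :
    hull T ⊆ Cs l0 := by
  rintro z ⟨a, ha, b, hb, hz⟩
  exact Cs_conv' hX h0 (hT ha) (hT hb) hz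

theorem hull_conv (hX : Cat X) (hM : Med X) (h0 : Isometry l0) {T : Set X} (hT : T ⊆ Cs l0)
    {p q z : X} (hp : p ∈ hull T) (hq : q ∈ hull T) (hz : Btw p z q) : z ∈ hull T := by
  have hp' := hull_sub hX h0 hT hp
  have hq' := hull_sub hX h0 hT hq
  obtain ⟨a, ha, b, hb, hab⟩ := hp
  obtain ⟨c, hc, d, hd, hcd⟩ := hq
  rcases thin hX hM h0 hp' hq' (hT hc) hz with h | h
  · rcases thin hX hM h0 hp' (hT hc) (hT ha) h with h' | h'
    · exact ⟨a, ha, b, hb, h'.symm.trans hab⟩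
    · exact ⟨a, ha, c, hc, h'⟩
  · exact ⟨c, hc, d, hd, h.trans hcd⟩

/-! ## Levels of a sphere -/

/-- the data for the levels: the sphere of radius `ρ` around `v`, the geodesic `c` towards `v`,
the bound `D` for the distance from `c`, the window `w` -/
structure Lev (v : X) (ρ : ℝ) (c : ℝ → X) (D w : ℝ) : Prop where
  D0 : 0 ≤ D
  Dw : D + 1 ≤ w
  hρ : 0 < ρ
  hc : ∀ s, -w ≤ s → s ≤ w → dist (c s) v = ρ - s

/-- the line through `p` is near `c` -/
def Near (l0 : ℝ → X) (c : ℝ → X) (D w : ℝ) (p : X) : Prop :=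
  ∀ s, -w ≤ s → s ≤ w → dist (Ln l0 p s) (c s) ≤ D

theorem near_conv (hX : Cat X) (h0 : Isometry l0) {c : ℝ → X} {D w : ℝ} {p q z : X}
    (hp : p ∈ Cs l0) (hq : q ∈ Cs l0) (np : Near l0 c D w p) (nq : Near l0 c D w q)
    (hz : Btw p z q) : Near l0 c D w z := by
  obtain ⟨t, t0, t1, rfl⟩ := exists_pt hX hz
  intro s h1 h2
  have e := (Cs_conv hX h0 hp hq t0 t1).2 s s
  have e2 : (1 - t) * s + t * s = s := by ring
  rw [e2] at e
  rw [← e]
  exact ball_conv hX t0 t1 (np s h1 h2) (nq s h1 h2)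

/-- the crossing of the line through `p` with the sphere -/
def Cr (l0 : ℝ → X) (v : X) (ρ w : ℝ) (p : X) (s : ℝ) : Prop :=
  -w ≤ s ∧ s ≤ w ∧ dist (Ln l0 p s) v = ρ

section
variable {v : X} {ρ : ℝ} {c : ℝ → X} {D w : ℝ}

theorem lev_upper (hL : Lev v ρ c D w) {p : X} (np : Near l0 c D w p) {s : ℝ} (h1 : -w ≤ s)
    (h2 : s ≤ w) : dist (Ln l0 p s) v ≤ ρ - s + D := by
  have := dist_triangle (Ln l0 p s) (c s) v
  rw [hL.hc s h1 h2] at this
  have := np s h1 h2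
  linarith

theorem lev_lower (hL : Lev v ρ c D w) {p : X} (np : Near l0 c D w p) {s : ℝ} (h1 : -w ≤ s)
    (h2 : s ≤ w) : ρ - s - D ≤ dist (Ln l0 p s) v := by
  have := dist_triangle (c s) (Ln l0 p s) v
  rw [hL.hc s h1 h2, dist_comm (c s)] at this
  have := np s h1 h2
  linarith

theorem cr_bound (hL : Lev v ρ c D w) {p : X} (np : Near l0 c D w p) {s : ℝ}
    (h : Cr l0 v ρ w p s) : -D ≤ s ∧ s ≤ D := by
  obtain ⟨h1, h2, h3⟩ := h
  have a1 := lev_upper hL np h1 h2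
  have a2 := lev_lower hL np h1 h2
  rw [h3] at a1 a2
  constructor <;> linarith

/-- strict convexity of the ball along a geodesic -/
theorem strict (hX : Cat X) {m : ℝ → X} (hm : Isometry m) {a b e : ℝ} (hab : a < b) (hbe : b ≤ e)
    (hρ : 0 < ρ) (h1 : dist (m a) v ≤ ρ) (h2 : dist (m e) v < ρ) : dist (m b) v < ρ := by
  have hae : 0 < e - a := by linarith
  set t := (b - a) / (e - a) with ht
  have t0 : 0 < t := div_pos (by linarith) hae
  have t1 : t ≤ 1 := (div_le_one hae).2 (by linarith)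
  have e1 : (1 - t) * a + t * e = b := by
    have : t * (e - a) = b - a := by rw [ht]; field_simp
    linarith
  have h := (geoOn_of_isometry hm a e).pt hX le_rfl (by linarith) (by linarith) le_rfl t0.le t1
  rw [e1] at h
  have h3 := pt_spec hX (m a) (m e) t0.le t1 v
  rw [h, dist_comm v, dist_comm v, dist_comm v] at h3
  have f1 : dist (m a) v ^ 2 ≤ ρ ^ 2 := pow_le_pow_left₀ dist_nonneg h1 2
  have f2 : dist (m e) v ^ 2 < ρ ^ 2 := pow_lt_pow_left₀ h2 dist_nonneg two_ne_zero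
  have f3 : (1 - t) * dist (m a) v ^ 2 ≤ (1 - t) * ρ ^ 2 :=
    mul_le_mul_of_nonneg_left f1 (by linarith)
  have f4 : t * dist (m e) v ^ 2 < t * ρ ^ 2 := mul_lt_mul_of_pos_left f2 t0
  have f5 : 0 ≤ t * (1 - t) * dist (m a) (m e) ^ 2 :=
    mul_nonneg (mul_nonneg t0.le (by linarith)) (sq_nonneg _)
  have f6 : dist (m b) v ^ 2 < ρ ^ 2 := by linarith
  exact lt_of_pow_lt_pow_left₀ 2 hρ.le f6

theorem cr_exists (hL : Lev v ρ c D w) {p : X} (hp : p ∈ Cs l0)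
    (np : Near l0 c D w p) : ∃ s, Cr l0 v ρ w p s := by
  have hD := hL.D0
  have hw := hL.Dw
  have hcont : Continuous (fun s => dist (Ln l0 p s) v) :=
    ((Ln_spec hp).1.continuous).dist continuous_const
  have h1 := lev_lower hL np (s := -(D + 1)) (by linarith) (by linarith)
  have h2 := lev_upper hL np (s := D + 1) (by linarith) (by linarith)
  have hle : -(D + 1) ≤ D + 1 := by linarith
  obtain ⟨s, hs, hs'⟩ := intermediate_value_Icc' hle hcont.continuousOn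
    (show ρ ∈ Set.Icc (dist (Ln l0 p (D + 1)) v) (dist (Ln l0 p (-(D + 1))) v) from
      ⟨by linarith, by linarith⟩)
  exact ⟨s, by linarith [hs.1], by linarith [hs.2], hs'⟩

/-- a point of the line inside the ball is above the crossing -/
theorem cr_lt (hX : Cat X) (hL : Lev v ρ c D w) {p : X} (hp : p ∈ Cs l0)
    (np : Near l0 c D w p) {s s' : ℝ} (h : Cr l0 v ρ w p s)
    (h' : dist (Ln l0 p s') v < ρ) : s < s' := by
  by_contra hcon
  push Not at hcon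
  have hb := cr_bound hL np h
  have hw := hL.Dw
  have h2 := lev_upper hL np (s := D + 1) (by linarith [hL.D0]) (by linarith)
  rcases eq_or_lt_of_le hcon with he | hlt
  · rw [he, h.2.2] at h'
    exact lt_irrefl _ h'
  · have := strict hX (Ln_spec hp).1 (b := s) hlt (by linarith : s ≤ D + 1) hL.hρ h'.le
      (by linarith)
    rw [h.2.2] at this
    exact lt_irrefl _ this

theorem cr_unique (hX : Cat X) (hL : Lev v ρ c D w) {p : X} (hp : p ∈ Cs l0)
    (np : Near l0 c D w p) {s s' : ℝ} (h : Cr l0 v ρ w p s) (h' : Cr l0 v ρ w p s') : s = s' := by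
  have key : ∀ s s', Cr l0 v ρ w p s → Cr l0 v ρ w p s' → ¬ s < s' := by
    intro s s' h h' hlt
    have hb := cr_bound hL np h'
    have h2 := lev_upper hL np (s := D + 1) (by linarith [hL.D0, hL.Dw]) (by linarith [hL.Dw])
    have := strict hX (Ln_spec hp).1 (b := s') hlt (by linarith : s' ≤ D + 1) hL.hρ h.2.2.le
      (by linarith)
    rw [h'.2.2] at this
    exact lt_irrefl _ this
  rcases lt_trichotomy s s' with h1 | h1 | h1
  · exact absurd h1 (key _ _ h h')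
  · exact h1
  · exact absurd h1 (key _ _ h' h)

/-- strict convexity of the level -/
theorem cr_convex (hX : Cat X) (h0 : Isometry l0) (hL : Lev v ρ c D w) {p q : X} (hp : p ∈ Cs l0)
    (hq : q ∈ Cs l0) (np : Near l0 c D w p) (nq : Near l0 c D w q) (hpq : p ≠ q) {s s' σ t : ℝ}
    (t0 : 0 < t) (t1 : t < 1) (h : Cr l0 v ρ w p s) (h' : Cr l0 v ρ w q s')
    (hσ : Cr l0 v ρ w (pt p q t) σ) : σ < (1 - t) * s + t * s' := by
  obtain ⟨z1, z2⟩ := Cs_conv hX h0 hp hq t0.le t1.le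
  have nz := near_conv hX h0 hp hq np nq (btw_pt hX p q t0.le t1.le)
  apply cr_lt hX hL z1 nz hσ
  rw [← z2 s s']
  have h3 := pt_spec hX (Ln l0 p s) (Ln l0 q s') t0.le t1.le v
  rw [dist_comm v, dist_comm v, dist_comm v, h.2.2, h'.2.2, Ln_dist hX h0 hp hq] at h3
  have hd : 0 < dist p q := dist_pos.2 hpq
  have f1 : 0 < t * (1 - t) * (dist p q ^ 2 + (s' - s) ^ 2) := by
    have : 0 < dist p q ^ 2 + (s' - s) ^ 2 := by positivity
    exact mul_pos (mul_pos t0 (by linarith)) this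
  have f6 : dist (pt (Ln l0 p s) (Ln l0 q s') t) v ^ 2 < ρ ^ 2 := by nlinarith
  exact lt_of_pow_lt_pow_left₀ 2 hL.hρ.le f6

/-- a minimal level of a set `H` -/
def MinLev (l0 : ℝ → X) (v : X) (ρ w : ℝ) (H : Set X) (p : X) (s : ℝ) : Prop :=
  p ∈ H ∧ Cr l0 v ρ w p s ∧ ∀ q ∈ H, ∀ σ, Cr l0 v ρ w q σ → s ≤ σ

/-- the path property -/
theorem path (hX : Cat X) (hM : Med X) (h0 : Isometry l0) (hL : Lev v ρ c D w)
    {T1 T2 T3 : Set X} (h12 : T1 ⊆ T2) (h23 : T2 ⊆ T3) (hT : T3 ⊆ Cs l0)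
    (hN : ∀ p ∈ hull T3, Near l0 c D w p) {p1 p2 p3 : X} {s1 s2 s3 : ℝ}
    (m1 : MinLev l0 v ρ w (hull T1) p1 s1) (m2 : MinLev l0 v ρ w (hull T2) p2 s2)
    (m3 : MinLev l0 v ρ w (hull T3) p3 s3) : Btw p1 p2 p3 := by
  have H12 := hull_mono h12
  have H23 := hull_mono h23
  have HC := hull_sub hX h0 hT
  have q1 : p1 ∈ hull T2 := H12 m1.1
  have q2 : p2 ∈ hull T3 := H23 m2.1
  have c1 : p1 ∈ Cs l0 := HC (H23 q1)
  have c2 : p2 ∈ Cs l0 := HC q2
  have c3 : p3 ∈ Cs l0 := HC m3.1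
  obtain ⟨m, hm, b1, b2, b3⟩ := Cs_med hX hM h0 c1 c2 c3
  have hm2 : m ∈ hull T2 := hull_conv hX hM h0 (h23.trans hT) q1 m2.1 b1
  have hm3 : m ∈ hull T3 := H23 hm2
  obtain ⟨σ, hσ⟩ := cr_exists hL hm (hN m hm3)
  have hmin := m2.2.2 m hm2 σ hσ
  have h32 : s3 ≤ s2 := m3.2.2 p2 q2 s2 m2.2.1
  by_cases hne : p2 = p3
  · rw [← hne] at b2 ⊢
    exact (btw_left p2 p1).symm
  obtain ⟨t, t0, t1, ht⟩ := exists_pt hX b2
  rcases eq_or_lt_of_le t0 with h | tpos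
  · rw [← h, pt_zero hX] at ht
    rw [← ht]
    exact b3
  exfalso
  rcases eq_or_lt_of_le t1 with h | tlt
  · rw [h, pt_one hX] at ht
    have e3 : s2 ≤ s3 := by
      have : p3 ∈ hull T2 := ht ▸ hm2
      exact m2.2.2 p3 this s3 m3.2.1
    have hz : pt p2 p3 (1 / 2) ∈ hull T3 :=
      hull_conv hX hM h0 hT q2 m3.1 (btw_pt hX p2 p3 (by norm_num) (by norm_num))
    obtain ⟨τ, hτ⟩ := cr_exists hL (HC hz) (hN _ hz)
    have k1 := cr_convex hX h0 hL c2 c3 (hN p2 q2) (hN p3 m3.1) hne (by norm_num) (by norm_num)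
      m2.2.1 m3.2.1 hτ
    have k2 := m3.2.2 _ hz τ hτ
    linarith
  · rw [ht] at hσ
    have k1 := cr_convex hX h0 hL c2 c3 (hN p2 q2) (hN p3 m3.1) hne tpos tlt m2.2.1 m3.2.1 hσ
    nlinarith

end

end Pool.Agent.H169C
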